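import Pool.Agent.Q276.LR.E1

/-! Blocks of gaps and correlations of signs. -/

set_option autoImplicit false

open Filter Topology Set MeasureTheory

namespace Pool.Agent.Q276.LR

open SG (ord NZ zmult ZS)
open H177.Lat (kI yy third PP_conv del2)

/-- the deviation of a gap from its mean -/
noncomputable def xx (n : ℕ) : ℝ := del2 n - 1

lemma XD_ext (J n K i : ℕ) (hi : i < K) (hn : 2 ^ J ≤ n) :
    XD J (n + i) = ∑ m ∈ Finset.Ico (n - 2 ^ J) (n + K + 2 ^ J),
      Ph J ((m : ℝ) - (n + i : ℕ)) * xx m := by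
  unfold XD xx
  apply Finset.sum_subset
  · intro m
    simp only [Finset.mem_Ioo, Finset.mem_Ico]
    omega
  · intro m hm hm'
    simp only [Finset.mem_Ioo, Finset.mem_Ico, not_and, not_lt] at hm hm'
    rw [Ph_far, zero_mul]
    rcases le_or_gt m (n + i - 2 ^ J) with h | h
    · have h1 : (m : ℝ) + 2 ^ J ≤ (n + i : ℕ) := by exact_mod_cast (by omega : m + 2 ^ J ≤ n + i)
      rw [abs_of_nonpos (by have : (0 : ℝ) < 2 ^ J := by positivity
                            linarith)]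
      linarith
    · have h1 : ((n + i : ℕ) : ℝ) + 2 ^ J ≤ m := by exact_mod_cast hm' h
      rw [abs_of_nonneg (by have : (0 : ℝ) < 2 ^ J := by positivity
                            linarith)]
      linarith

lemma split3 (g : ℕ → ℝ) (n K R : ℕ) (hn : R ≤ n) (hK : 1 ≤ K) :
    ∑ m ∈ Finset.Ico (n - R) (n + K + R), g m = ∑ i ∈ Finset.range K, g (n + i) +
      ∑ k ∈ Finset.Icc 1 R, (g (n - k) + g (n + K - 1 + k)) := by
  rw [← Finset.sum_Ico_consecutive g (by omega : n - R ≤ n) (by omega : n ≤ n + K + R),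
    ← Finset.sum_Ico_consecutive g (by omega : n ≤ n + K) (by omega : n + K ≤ n + K + R)]
  have e1 : ∑ m ∈ Finset.Ico (n - R) n, g m = ∑ k ∈ Finset.Icc 1 R, g (n - k) := by
    apply Finset.sum_nbij' (fun m => n - m) (fun k => n - k)
    · intro m hm
      rw [Finset.mem_Ico] at hm
      rw [Finset.mem_Icc]
      omega
    · intro m hm
      rw [Finset.mem_Icc] at hm
      rw [Finset.mem_Ico]
      omega
    · intro m hm
      rw [Finset.mem_Ico] at hm
      omega
    · intro m hm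
      rw [Finset.mem_Icc] at hm
      omega
    · intro m hm
      rw [Finset.mem_Ico] at hm
      congr 1
      omega
  have e2 : ∑ m ∈ Finset.Ico n (n + K), g m = ∑ i ∈ Finset.range K, g (n + i) := by
    rw [Finset.sum_Ico_eq_sum_range, Nat.add_sub_cancel_left]
  have e3 : ∑ m ∈ Finset.Ico (n + K) (n + K + R), g m = ∑ k ∈ Finset.Icc 1 R, g (n + K - 1 + k) := by
    apply Finset.sum_nbij' (fun m => m - (n + K - 1)) (fun k => n + K - 1 + k)
    · intro m hm
      rw [Finset.mem_Ico] at hm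
      rw [Finset.mem_Icc]
      omega
    · intro m hm
      rw [Finset.mem_Icc] at hm
      rw [Finset.mem_Ico]
      omega
    · intro m hm
      rw [Finset.mem_Ico] at hm
      omega
    · intro m hm
      rw [Finset.mem_Icc] at hm
      omega
    · intro m hm
      rw [Finset.mem_Ico] at hm
      congr 1
      omega
  rw [e1, e2, e3, Finset.sum_add_distrib]
  ring

/-- the weights for a block of `K` gaps -/
noncomputable def ut (J K k : ℕ) : ℝ := (K : ℝ)⁻¹ * ∑ i ∈ Finset.range K, wt J (k + i)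

/-- the deviation of the sum of a block from its prediction by the outer gaps -/
noncomputable def BB (J K n : ℕ) : ℝ :=
  ∑ i ∈ Finset.range K, xx (n + i) +
    ∑ k ∈ Finset.Icc 1 (2 ^ J), ut J K k * (xx (n - k) + xx (n + K - 1 + k))

lemma BB_bound {J : ℕ} (hJ : 1 ≤ J) {K : ℕ} (hK : 1 ≤ K) (n : ℕ) (hn : 2 ^ J ≤ n) :
    |BB J K n| ≤ (K : ℝ)⁻¹ * ∑ i ∈ Finset.range K, |XD J (n + i)| +
      ((Nat.log 2 K : ℝ) + 2) / J * ∑ i ∈ Finset.range K, |xx (n + i)| := by
  have hK0 : (0 : ℝ) < K := by exact_mod_cast hK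
  have hJ0 : (0 : ℝ) < J := by exact_mod_cast hJ
  have e1 : ∑ i ∈ Finset.range K, XD J (n + i) =
      ∑ l ∈ Finset.range K, (∑ i ∈ Finset.range K, Ph J ((l : ℝ) - i)) * xx (n + l) +
      ∑ k ∈ Finset.Icc 1 (2 ^ J), (∑ i ∈ Finset.range K, wt J (k + i)) *
        (xx (n - k) + xx (n + K - 1 + k)) := by
    rw [Finset.sum_congr rfl fun i hi => XD_ext J n K i (Finset.mem_range.1 hi) hn, Finset.sum_comm,
      split3 _ n K (2 ^ J) hn hK]
    congr 1
    · refine Finset.sum_congr rfl fun l _ => ?_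
      rw [Finset.sum_mul]
      refine Finset.sum_congr rfl fun i _ => ?_
      congr 2
      push_cast
      ring
    · refine Finset.sum_congr rfl fun k hk => ?_
      rw [Finset.mem_Icc] at hk
      rw [mul_add, Finset.sum_mul]
      congr 1
      · refine Finset.sum_congr rfl fun i _ => ?_
        rw [Ph_wt J _ (k + i)]
        rw [Nat.cast_sub (by omega : k ≤ n)]
        push_cast
        rw [show (n : ℝ) - k - (n + i) = -((k : ℝ) + i) by ring, abs_neg, abs_of_nonneg (by positivity)]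
      · have e0 : ∑ i ∈ Finset.range K, wt J (k + i) = ∑ i ∈ Finset.range K, wt J (k + (K - 1 - i)) :=
          (Finset.sum_range_reflect (fun i => wt J (k + i)) K).symm
        rw [e0, Finset.sum_mul]
        refine Finset.sum_congr rfl fun i hi => ?_
        rw [Finset.mem_range] at hi
        rw [Ph_wt J _ (k + (K - 1 - i))]
        have e2 : ((n + K - 1 + k : ℕ) : ℝ) - (n + i : ℕ) = ((k + (K - 1 - i) : ℕ) : ℝ) := by
          have : n + K - 1 + k = (n + i) + (k + (K - 1 - i)) := by omega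
          rw [this]
          push_cast
          ring
        rw [e2, abs_of_nonneg (Nat.cast_nonneg _)]
  have e2 : (K : ℝ) * BB J K n = ∑ i ∈ Finset.range K, XD J (n + i) +
      ∑ l ∈ Finset.range K, (K - ∑ i ∈ Finset.range K, Ph J ((l : ℝ) - i)) * xx (n + l) := by
    rw [e1]
    unfold BB ut
    rw [mul_add, Finset.mul_sum, Finset.mul_sum]
    have e3 : ∀ l ∈ Finset.range K, (K - ∑ i ∈ Finset.range K, Ph J ((l : ℝ) - i)) * xx (n + l) =
        K * xx (n + l) - (∑ i ∈ Finset.range K, Ph J ((l : ℝ) - i)) * xx (n + l) := fun l _ => by ring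
    rw [Finset.sum_congr rfl e3, Finset.sum_sub_distrib]
    have e4 : ∀ k ∈ Finset.Icc 1 (2 ^ J), (K : ℝ) * ((K : ℝ)⁻¹ * (∑ i ∈ Finset.range K, wt J (k + i)) *
        (xx (n - k) + xx (n + K - 1 + k))) = (∑ i ∈ Finset.range K, wt J (k + i)) *
        (xx (n - k) + xx (n + K - 1 + k)) := fun k _ => by
      field_simp
    rw [Finset.sum_congr rfl e4]
    ring
  have h1 : ∀ l ∈ Finset.range K, |K - ∑ i ∈ Finset.range K, Ph J ((l : ℝ) - i)| ≤
      K * (((Nat.log 2 K : ℝ) + 2) / J) := by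
    intro l hl
    rw [Finset.mem_range] at hl
    have e5 : K - ∑ i ∈ Finset.range K, Ph J ((l : ℝ) - i) =
        ∑ i ∈ Finset.range K, (1 - Ph J ((l : ℝ) - i)) := by
      rw [Finset.sum_sub_distrib, Finset.sum_const, Finset.card_range, nsmul_eq_mul, mul_one]
    rw [e5]
    refine (Finset.abs_sum_le_sum_abs _ _).trans ?_
    have h2 : ∀ i ∈ Finset.range K, |1 - Ph J ((l : ℝ) - i)| ≤ ((Nat.log 2 K : ℝ) + 2) / J := by
      intro i hi
      rw [Finset.mem_range] at hi
      obtain ⟨d, hd, hdK⟩ : ∃ d : ℕ, |(l : ℝ) - i| = d ∧ d ≤ K := by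
        rcases le_total i l with h | h
        · refine ⟨l - i, ?_, by omega⟩
          rw [Nat.cast_sub h, abs_of_nonneg]
          have : (i : ℝ) ≤ l := by exact_mod_cast h
          linarith
        · refine ⟨i - l, ?_, by omega⟩
          rw [Nat.cast_sub h, abs_of_nonpos, neg_sub]
          have : (l : ℝ) ≤ i := by exact_mod_cast h
          linarith
      rw [Ph_wt J _ d hd, abs_of_nonneg (by linarith [wt_le_one hJ d])]
      refine (wt_near hJ d).trans ?_
      apply div_le_div_of_nonneg_right _ hJ0.le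
      have h3 : Nat.log 2 d ≤ Nat.log 2 K := Nat.log_mono_right hdK
      have h4 : (Nat.log 2 d : ℝ) ≤ Nat.log 2 K := by exact_mod_cast h3
      linarith
    refine (Finset.sum_le_sum h2).trans (le_of_eq ?_)
    rw [Finset.sum_const, Finset.card_range, nsmul_eq_mul]
  have h2 : (K : ℝ) * |BB J K n| ≤ ∑ i ∈ Finset.range K, |XD J (n + i)| +
      K * (((Nat.log 2 K : ℝ) + 2) / J) * ∑ i ∈ Finset.range K, |xx (n + i)| := by
    have e6 : (K : ℝ) * |BB J K n| = |(K : ℝ) * BB J K n| := by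
      rw [abs_mul, abs_of_pos hK0]
    rw [e6, e2]
    refine (abs_add_le _ _).trans (add_le_add (Finset.abs_sum_le_sum_abs _ _) ?_)
    refine (Finset.abs_sum_le_sum_abs _ _).trans ?_
    rw [Finset.mul_sum]
    refine Finset.sum_le_sum fun l hl => ?_
    rw [abs_mul]
    exact mul_le_mul_of_nonneg_right (h1 l hl) (abs_nonneg _)
  have h3 := mul_le_mul_of_nonneg_left h2 (show (0 : ℝ) ≤ (K : ℝ)⁻¹ by positivity)
  have e7 : (K : ℝ)⁻¹ * (K * |BB J K n|) = |BB J K n| := by field_simp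
  rw [e7] at h3
  refine h3.trans (le_of_eq ?_)
  field_simp

lemma shift_sum (F : ℕ → ℝ) (hF : ∀ n, 0 ≤ F n) (a N K : ℕ) :
    ∑ n ∈ Finset.Ioc a N, ∑ i ∈ Finset.range K, F (n + i) ≤ K * ∑ n ∈ Finset.Icc 1 (N + K), F n := by
  rw [Finset.sum_comm]
  have h : ∀ i ∈ Finset.range K, ∑ n ∈ Finset.Ioc a N, F (n + i) ≤ ∑ n ∈ Finset.Icc 1 (N + K), F n := by
    intro i hi
    rw [Finset.mem_range] at hi
    have e : ∑ n ∈ Finset.Ioc a N, F (n + i) = ∑ m ∈ (Finset.Ioc a N).image (fun n => n + i), F m := by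
      rw [Finset.sum_image]
      intro x _ y _ hxy
      simpa using hxy
    rw [e]
    apply Finset.sum_le_sum_of_subset_of_nonneg
    · intro m hm
      rw [Finset.mem_image] at hm
      obtain ⟨n, hn, rfl⟩ := hm
      rw [Finset.mem_Ioc] at hn
      rw [Finset.mem_Icc]
      omega
    · intro n _ _
      exact hF n
  refine (Finset.sum_le_sum h).trans (le_of_eq ?_)
  rw [Finset.sum_const, Finset.card_range, nsmul_eq_mul]

lemma eventually_shift {P : ℕ → Prop} (h : ∀ᶠ N : ℕ in atTop, P N) (K : ℕ) :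
    ∀ᶠ N : ℕ in atTop, P (N + K) :=
  (tendsto_add_atTop_nat K).eventually h

/-- **every block of gaps is determined by the outer gaps** -/
theorem blocks_rigid (hRH : RiemannHypothesis) : ∃ C : ℝ, 0 < C ∧ ∀ J K : ℕ, 1 ≤ J → 1 ≤ K →
    ∀ᶠ N : ℕ in atTop, ∑ n ∈ Finset.Ioc (2 ^ J) N, |BB J K n| ≤
      C * (1 / Real.sqrt J + K * (1 + Real.log K) / J) * N := by
  obtain ⟨C, hC, h1⟩ := XD_global hRH
  obtain ⟨C1, hC1, h2⟩ := mean_dev
  refine ⟨2 * C + 4 * C1, by positivity, fun J K hJ hK => ?_⟩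
  have hJ0 : (0 : ℝ) < J := by exact_mod_cast hJ
  have hK0 : (0 : ℝ) < K := by exact_mod_cast hK
  have hK1 : (1 : ℝ) ≤ K := by exact_mod_cast hK
  have hlK : 0 ≤ Real.log K := Real.log_nonneg hK1
  filter_upwards [eventually_shift (h1 J hJ) K, eventually_shift h2 K, eventually_ge_atTop K]
    with N g1 g2 g3
  have hNK : ((N + K : ℕ) : ℝ) ≤ 2 * N := by
    have : N + K ≤ 2 * N := by omega
    exact_mod_cast this
  have hN0 : (0 : ℝ) ≤ N := Nat.cast_nonneg N
  have s1 : ∑ n ∈ Finset.Ioc (2 ^ J) N, |BB J K n| ≤ ∑ n ∈ Finset.Ioc (2 ^ J) N,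
      ((K : ℝ)⁻¹ * ∑ i ∈ Finset.range K, |XD J (n + i)| +
      ((Nat.log 2 K : ℝ) + 2) / J * ∑ i ∈ Finset.range K, |xx (n + i)|) := by
    refine Finset.sum_le_sum fun n hn => ?_
    rw [Finset.mem_Ioc] at hn
    exact BB_bound hJ hK n (by omega)
  refine s1.trans ?_
  rw [Finset.sum_add_distrib, ← Finset.mul_sum, ← Finset.mul_sum]
  have s2 := shift_sum (fun n => |XD J n|) (fun n => abs_nonneg _) (2 ^ J) N K
  have s3 := shift_sum (fun n => |xx n|) (fun n => abs_nonneg _) (2 ^ J) N K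
  have s4 : (K : ℝ)⁻¹ * ∑ n ∈ Finset.Ioc (2 ^ J) N, ∑ i ∈ Finset.range K, |XD J (n + i)| ≤
      2 * C * (1 / Real.sqrt J) * N := by
    rw [inv_mul_le_iff₀ hK0]
    refine s2.trans ?_
    apply mul_le_mul_of_nonneg_left _ hK0.le
    refine g1.trans ?_
    calc C / Real.sqrt J * ((N + K : ℕ) : ℝ) ≤ C / Real.sqrt J * (2 * N) :=
          mul_le_mul_of_nonneg_left hNK (by positivity)
      _ = _ := by ring
  have s5 : ((Nat.log 2 K : ℝ) + 2) / J * ∑ n ∈ Finset.Ioc (2 ^ J) N, ∑ i ∈ Finset.range K, |xx (n + i)| ≤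
      4 * C1 * (K * (1 + Real.log K) / J) * N := by
    have t1 : (Nat.log 2 K : ℝ) + 2 ≤ 2 * (1 + Real.log K) := by
      have t2 : (2 : ℝ) ^ (Nat.log 2 K) ≤ K := by
        have := Nat.pow_log_le_self 2 (by omega : K ≠ 0)
        exact_mod_cast this
      have t3 := Real.log_le_log (by positivity) t2
      rw [Real.log_pow] at t3
      have t4 := Real.log_two_gt_d9
      have t5 : (0 : ℝ) ≤ Nat.log 2 K := Nat.cast_nonneg _
      nlinarith
    have t2 : ∑ n ∈ Finset.Ioc (2 ^ J) N, ∑ i ∈ Finset.range K, |xx (n + i)| ≤ K * (C1 * (2 * N)) := by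
      refine s3.trans (mul_le_mul_of_nonneg_left ?_ hK0.le)
      exact g2.trans (mul_le_mul_of_nonneg_left hNK hC1.le)
    calc ((Nat.log 2 K : ℝ) + 2) / J * ∑ n ∈ Finset.Ioc (2 ^ J) N, ∑ i ∈ Finset.range K, |xx (n + i)| ≤
        (2 * (1 + Real.log K)) / J * (K * (C1 * (2 * N))) := by
          apply mul_le_mul _ t2 _ (by positivity)
          · exact div_le_div_of_nonneg_right t1 hJ0.le
          · exact Finset.sum_nonneg fun n _ => Finset.sum_nonneg fun i _ => abs_nonneg _
      _ = _ := by ring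
  have p1 : 0 ≤ 1 / Real.sqrt J * N := by positivity
  have p2 : 0 ≤ K * (1 + Real.log K) / J * N := by positivity
  nlinarith

end Pool.Agent.Q276.LR
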