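import Pool.Agent.Q276.LR.D1
import Pool.Agent.H177R3.CosE

/-! The weighted sums of the unfolded gaps. -/

set_option autoImplicit false

open Filter Topology Set MeasureTheory

namespace Pool.Agent.Q276.LR

open SG (ord NZ zmult ZS)
open H177.Lat (kI yy third PP_conv del2)

/-- the weighted sum of the deviations of the unfolded gaps near the `n`-th gap -/
noncomputable def XD (J : ℕ) (n : ℕ) : ℝ :=
  ∑ m ∈ Finset.Ioo (n - 2 ^ J) (n + 2 ^ J), Ph J ((m : ℝ) - n) * (del2 m - 1)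

lemma gap_conv {T : ℝ} (hT : 100 ≤ T) {m : ℕ} (hm : 1 ≤ m) (h1 : T ≤ ord m) (h2 : ord m ≤ 3 * T) :
    |del2 m - (yy T (m + 1) - yy T m)| ≤ (ord (m + 1) - ord m) / Real.pi := by
  have hpi := Real.pi_gt_three
  have hpi4 := Real.pi_lt_d2
  have hmono := SG.ord_mono hm (Nat.le_succ m)
  have e1 : del2 m - (yy T (m + 1) - yy T m) = (ord (m + 1) - ord m) / (2 * Real.pi) *
      (Real.log (ord m / (2 * Real.pi)) - Real.log T) := by
    unfold del2 yy
    ring
  have hTpos : 0 < T := by linarith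
  have hop : 0 < ord m := by linarith
  have h3 : Real.log (ord m / (2 * Real.pi)) ≤ Real.log T := by
    apply Real.log_le_log (by positivity)
    rw [div_le_iff₀ (by positivity)]
    nlinarith
  have h4 : Real.log T - 2 ≤ Real.log (ord m / (2 * Real.pi)) := by
    rw [Real.log_div hop.ne' (by positivity)]
    have h5 : Real.log T ≤ Real.log (ord m) := Real.log_le_log hTpos h1
    have h6 : Real.log (2 * Real.pi) ≤ 2 := by
      rw [Real.log_le_iff_le_exp (by positivity)]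
      have h7 := Real.exp_one_gt_d9
      have h8 : Real.exp 2 = Real.exp 1 * Real.exp 1 := by
        rw [← Real.exp_add]
        norm_num
      rw [h8]
      nlinarith
    linarith
  rw [e1, abs_mul, abs_of_nonneg (by apply div_nonneg; linarith; positivity),
    abs_of_nonpos (by linarith)]
  have h9 : 0 ≤ (ord (m + 1) - ord m) / (2 * Real.pi) := by
    apply div_nonneg
    · linarith
    · positivity
  calc (ord (m + 1) - ord m) / (2 * Real.pi) * -(Real.log (ord m / (2 * Real.pi)) - Real.log T) ≤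
      (ord (m + 1) - ord m) / (2 * Real.pi) * 2 := mul_le_mul_of_nonneg_left (by linarith) h9
    _ = (ord (m + 1) - ord m) / Real.pi := by field_simp

lemma Ph_le_one' (J : ℕ) (hJ : 1 ≤ J) (x : ℝ) : Ph J x ≤ 1 := by
  have hJ0 : (0 : ℝ) < J := by exact_mod_cast hJ
  unfold Ph
  rw [inv_mul_le_iff₀ hJ0, mul_one]
  calc ∑ j ∈ Finset.range J, H177.Lat.tri (2 ^ (j + 1)) x ≤ ∑ j ∈ Finset.range J, (1 : ℝ) := by
        refine Finset.sum_le_sum fun j _ => ?_
        unfold H177.Lat.tri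
        apply max_le (by norm_num)
        have : 0 ≤ |x| / 2 ^ (j + 1) := by positivity
        linarith
    _ = J := by rw [Finset.sum_const, Finset.card_range, nsmul_eq_mul, mul_one]

lemma Ph_nonneg' (J : ℕ) (x : ℝ) : 0 ≤ Ph J x := by
  unfold Ph
  apply mul_nonneg (by positivity)
  exact Finset.sum_nonneg fun j _ => H177.Lat.tri_nonneg _ _

lemma XD_diff (J : ℕ) (hJ : 1 ≤ J) {T : ℝ} (hT : 100 ≤ T) (n : ℕ) (hn : 2 ^ J ≤ n)
    (h : ∀ m ∈ Finset.Ioo (n - 2 ^ J) (n + 2 ^ J), T ≤ ord m ∧ ord m ≤ 3 * T) :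
    |XD J n| ≤ |XX J (yy T) n| + (ord (n + 2 ^ J) - ord (n - (2 ^ J - 1))) / Real.pi := by
  have hpi := Real.pi_pos
  have hp : 1 ≤ 2 ^ J := Nat.one_le_two_pow
  have e1 : XD J n = XX J (yy T) n + ∑ m ∈ Finset.Ioo (n - 2 ^ J) (n + 2 ^ J),
      Ph J ((m : ℝ) - n) * (del2 m - (yy T (m + 1) - yy T m)) := by
    unfold XD XX
    rw [← Finset.sum_add_distrib]
    refine Finset.sum_congr rfl fun m _ => ?_
    ring
  have e2 : |∑ m ∈ Finset.Ioo (n - 2 ^ J) (n + 2 ^ J),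
      Ph J ((m : ℝ) - n) * (del2 m - (yy T (m + 1) - yy T m))| ≤
      ∑ m ∈ Finset.Ioo (n - 2 ^ J) (n + 2 ^ J), (ord (m + 1) - ord m) / Real.pi := by
    refine (Finset.abs_sum_le_sum_abs _ _).trans (Finset.sum_le_sum fun m hm => ?_)
    obtain ⟨h1, h2⟩ := h m hm
    rw [Finset.mem_Ioo] at hm
    have h3 := gap_conv hT (by omega : 1 ≤ m) h1 h2
    rw [abs_mul, abs_of_nonneg (Ph_nonneg' J _)]
    calc Ph J ((m : ℝ) - n) * |del2 m - (yy T (m + 1) - yy T m)| ≤
        1 * |del2 m - (yy T (m + 1) - yy T m)| :=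
          mul_le_mul_of_nonneg_right (Ph_le_one' J hJ _) (abs_nonneg _)
      _ ≤ _ := by rw [one_mul]; exact h3
  have e3 : ∑ m ∈ Finset.Ioo (n - 2 ^ J) (n + 2 ^ J), (ord (m + 1) - ord m) / Real.pi =
      (ord (n + 2 ^ J) - ord (n - (2 ^ J - 1))) / Real.pi := by
    rw [← Finset.sum_div]
    have e4 : Finset.Ioo (n - 2 ^ J) (n + 2 ^ J) = Finset.Ico (n - (2 ^ J - 1)) (n + 2 ^ J) := by
      ext m; simp only [Finset.mem_Ioo, Finset.mem_Ico]; omega
    rw [e4, Finset.sum_Ico_sub _ (by omega)]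
  rw [e1]
  refine (abs_add_le _ _).trans ?_
  linarith

lemma tele_sum (f : ℕ → ℝ) (A B : ℝ) (a' b' p q : ℕ) (hp : p ≤ a') (hab : a' ≤ b')
    (hf : ∀ n, a' + 1 ≤ n + p → n ≤ b' + q → A ≤ f n ∧ f n ≤ B) :
    ∑ n ∈ Finset.Ioc a' b', (f (n + q) - f (n - p)) ≤ (p + q : ℕ) * (B - A) := by
  have e2 : ∀ n ∈ Finset.Ioc a' b', f (n + q) - f (n - p) =
      ∑ k ∈ Finset.range (p + q), (f (n - p + k + 1) - f (n - p + k)) := by
    intro n hn
    rw [Finset.mem_Ioc] at hn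
    have := Finset.sum_range_sub (fun k => f (n - p + k)) (p + q)
    simp only [add_zero] at this
    have e3 : n - p + (p + q) = n + q := by omega
    rw [e3] at this
    rw [← this]
    rfl
  rw [Finset.sum_congr rfl e2, Finset.sum_comm]
  have e4 : ∀ k ∈ Finset.range (p + q), ∑ n ∈ Finset.Ioc a' b',
      (f (n - p + k + 1) - f (n - p + k)) ≤ B - A := by
    intro k hk
    rw [Finset.mem_range] at hk
    have e5 : ∑ n ∈ Finset.Ioc a' b', (f (n - p + k + 1) - f (n - p + k)) =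
        f (b' + 1 - p + k) - f (a' + 1 - p + k) := by
      have e6 : Finset.Ioc a' b' = Finset.Ico (a' + 1) (b' + 1) := by
        ext m; simp only [Finset.mem_Ioc, Finset.mem_Ico]; omega
      rw [e6]
      have e7 : ∀ n ∈ Finset.Ico (a' + 1) (b' + 1), f (n - p + k + 1) - f (n - p + k) =
          (fun i => f (i - p + k)) (n + 1) - (fun i => f (i - p + k)) n := by
        intro n hn
        rw [Finset.mem_Ico] at hn
        show _ = f (n + 1 - p + k) - f (n - p + k)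
        have : n + 1 - p + k = n - p + k + 1 := by omega
        rw [this]
      rw [Finset.sum_congr rfl e7]
      exact Finset.sum_Ico_sub (fun i => f (i - p + k)) (by omega)
    rw [e5]
    have m1 := (hf (b' + 1 - p + k) (by omega) (by omega)).2
    have m2 := (hf (a' + 1 - p + k) (by omega) (by omega)).1
    linarith
  refine (Finset.sum_le_sum e4).trans (le_of_eq ?_)
  rw [Finset.sum_const, Finset.card_range, nsmul_eq_mul]

lemma room (J : ℕ) : ∃ T0 : ℝ, 100 ≤ T0 ∧ ∀ T : ℝ, T0 ≤ T → ∀ t : ℝ, T ≤ t → t ≤ 3 * T →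
    NZ t + 2 ^ J ≤ NZ (t + Real.sqrt T) := by
  obtain ⟨T2, hT2, hw⟩ := win_asymp (1 / 2) (by norm_num)
  obtain ⟨T3, hT3, hh⟩ := heights 1 one_pos (J + 1)
  have hpi := Real.pi_gt_three
  refine ⟨max T2 T3, hT2.trans (le_max_left _ _), fun T hT t ht1 ht2 => ?_⟩
  obtain ⟨k1, k2, k3⟩ := hh T ((le_max_right _ _).trans hT)
  have hT2' : T2 ≤ T := (le_max_left _ _).trans hT
  have hT100 : 100 ≤ T := hT2.trans hT2'
  have hs1 : Real.sqrt T ≤ T := by
    rw [Real.sqrt_le_left (by linarith)]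
    nlinarith
  have c1 := (abs_le.1 (hw T hT2' t ht1 ht2 (Real.sqrt T) le_rfl hs1)).1
  have h1 : (2 : ℝ) ^ (J + 1) * (2 * Real.pi) * 1 ≤ Real.log T * Real.sqrt T := by
    apply mul_le_mul k1 (by linarith) (by norm_num)
    exact Real.log_nonneg (by linarith)
  have h2 : (2 : ℝ) ^ J ≤ 1 / 2 * (Real.sqrt T * Real.log T / (2 * Real.pi)) := by
    rw [← mul_div_assoc, le_div_iff₀ (by positivity)]
    rw [pow_succ] at h1
    linarith
  have h3 : (NZ t : ℝ) + 2 ^ J ≤ NZ (t + Real.sqrt T) := by linarith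
  exact_mod_cast h3

theorem XD_window (hRH : RiemannHypothesis) : ∃ B : ℝ, 0 < B ∧ ∀ J : ℕ, 1 ≤ J →
    ∃ δ : ℝ, 0 < δ ∧ ∃ T0 : ℝ, 100 ≤ T0 ∧ ∀ T : ℝ, T0 ≤ T →
      volume {t : ℝ | t ∈ Icc T (2 * T) ∧
        ¬ (∑ n ∈ Finset.Ioc (NZ (t + Real.sqrt T)) (NZ (t + T / 8 - Real.sqrt T)),
            |XD J n| ≤ B / Real.sqrt J * (T / 8 * Real.log T / (2 * Real.pi)))} ≤
        ENNReal.ofReal (T ^ (1 - δ)) := by
  obtain ⟨B, hB, hwb⟩ := window_bound hRH
  have hpi := Real.pi_gt_three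
  refine ⟨B + 1, by positivity, fun J hJ => ?_⟩
  obtain ⟨δ, hδ, T1, hT1, h1⟩ := hwb J hJ
  obtain ⟨T2, hT2, h2⟩ := room J
  obtain ⟨T3, hT3⟩ := (Real.tendsto_log_atTop.eventually_ge_atTop
    ((2 : ℝ) ^ (J + 2) * Real.sqrt J)).exists_forall_of_atTop
  have hJ1 : (1 : ℝ) ≤ J := by exact_mod_cast hJ
  refine ⟨δ, hδ, max (max T1 T2) (max T3 40000), ?_, fun T hT => ?_⟩
  · exact hT1.trans ((le_max_left _ _).trans (le_max_left _ _))
  have hTT1 : T1 ≤ T := ((le_max_left _ _).trans (le_max_left _ _)).trans hT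
  have hTT2 : T2 ≤ T := ((le_max_right _ _).trans (le_max_left _ _)).trans hT
  have hTT3 : T3 ≤ T := ((le_max_left _ _).trans (le_max_right _ _)).trans hT
  have hT4 : 40000 ≤ T := ((le_max_right _ _).trans (le_max_right _ _)).trans hT
  have hL := hT3 T hTT3
  have hTpos : 0 < T := by linarith
  have hr0 : 0 < Real.sqrt J := Real.sqrt_pos.2 (by linarith)
  set r := Real.sqrt J with hr
  set s := Real.sqrt T with hs
  have hss : s * s = T := Real.mul_self_sqrt hTpos.le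
  have hs200 : 200 ≤ s := by
    rw [hs, show (200 : ℝ) = Real.sqrt (200 ^ 2) by rw [Real.sqrt_sq (by norm_num)]]
    apply Real.sqrt_le_sqrt
    linarith
  have hsT : 25 * s ≤ T / 8 := by nlinarith
  refine (measure_mono ?_).trans (h1 T hTT1)
  rintro t ⟨ht1, ht2⟩
  refine ⟨ht1, fun hcon => ht2 ?_⟩
  obtain ⟨g1, g2⟩ := ht1
  set a' := NZ (t + s) with ha'
  set b' := NZ (t + T / 8 - s) with hb'
  have r1 : NZ t + 2 ^ J ≤ a' := h2 T hTT2 t g1 (by linarith)
  have r2 : b' + 2 ^ J ≤ NZ (t + T / 8) := by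
    have := h2 T hTT2 (t + T / 8 - s) (by linarith) (by linarith)
    rw [← hs, sub_add_cancel] at this
    exact this
  have r3 : a' ≤ b' := SG.NZ_mono (by linarith)
  have hp : 1 ≤ 2 ^ J := Nat.one_le_two_pow
  have hord : ∀ m : ℕ, NZ t < m → m ≤ NZ (t + T / 8) → t ≤ ord m ∧ ord m ≤ t + T / 8 := by
    intro m hm1 hm2
    constructor
    · by_contra hcon2
      push Not at hcon2
      have := (SG.ord_le_iff (by omega : 1 ≤ m) t).mp hcon2.le
      omega
    · exact (SG.ord_le_iff (by omega : 1 ≤ m) _).mpr hm2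
  have q1 : ∀ n ∈ Finset.Ioc a' b', |XD J n| ≤ |XX J (yy T) n| +
      (ord (n + 2 ^ J) - ord (n - (2 ^ J - 1))) / Real.pi := by
    intro n hn
    rw [Finset.mem_Ioc] at hn
    apply XD_diff J hJ (by linarith) n (by omega)
    intro m hm
    rw [Finset.mem_Ioo] at hm
    obtain ⟨o1, o2⟩ := hord m (by omega) (by omega)
    constructor <;> linarith
  have q2 := tele_sum ord t (t + T / 8) a' b' (2 ^ J - 1) (2 ^ J) (by omega) r3 (by
    intro n hn1 hn2
    exact hord n (by omega) (by omega))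
  refine (Finset.sum_le_sum q1).trans ?_
  rw [Finset.sum_add_distrib, ← Finset.sum_div]
  have q3 : ((2 ^ J - 1 + 2 ^ J : ℕ) : ℝ) ≤ 2 ^ (J + 1) := by
    have : 2 ^ J - 1 + 2 ^ J ≤ 2 ^ (J + 1) := by rw [pow_succ]; omega
    exact_mod_cast this
  have q4 : (∑ n ∈ Finset.Ioc a' b', (ord (n + 2 ^ J) - ord (n - (2 ^ J - 1)))) / Real.pi ≤
      1 / r * (T / 8 * Real.log T / (2 * Real.pi)) := by
    rw [div_le_iff₀ (by positivity)]
    have q5 : ((2 ^ J - 1 + 2 ^ J : ℕ) : ℝ) * (t + T / 8 - t) ≤ 2 ^ (J + 1) * (T / 8) := by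
      rw [add_sub_cancel_left]
      exact mul_le_mul_of_nonneg_right q3 (by positivity)
    refine (q2.trans q5).trans ?_
    have q6 : (2 : ℝ) ^ (J + 1) ≤ 1 / r * Real.log T / 2 := by
      rw [le_div_iff₀ (by norm_num), one_div, ← div_eq_inv_mul, le_div_iff₀ hr0]
      have : (2 : ℝ) ^ (J + 1) * 2 = 2 ^ (J + 2) := by ring
      rw [this]
      exact hL
    calc (2 : ℝ) ^ (J + 1) * (T / 8) ≤ 1 / r * Real.log T / 2 * (T / 8) :=
          mul_le_mul_of_nonneg_right q6 (by positivity)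
      _ = 1 / r * (T / 8 * Real.log T / (2 * Real.pi)) * Real.pi := by field_simp
  have q7 : (B + 1) / r * (T / 8 * Real.log T / (2 * Real.pi)) =
      B / r * (T / 8 * Real.log T / (2 * Real.pi)) + 1 / r * (T / 8 * Real.log T / (2 * Real.pi)) := by
    ring
  rw [q7]
  exact add_le_add hcon q4

/-- **the average of the weighted sums is small** -/
theorem XD_global (hRH : RiemannHypothesis) : ∃ C : ℝ, 0 < C ∧ ∀ J : ℕ, 1 ≤ J →
    ∀ᶠ N : ℕ in atTop, ∑ n ∈ Finset.Icc 1 N, |XD J n| ≤ C / Real.sqrt J * N := by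
  obtain ⟨B, hB, hwb⟩ := XD_window hRH
  obtain ⟨C0, hC0, hg⟩ := globalize
  refine ⟨C0 * B, by positivity, fun J hJ => ?_⟩
  obtain ⟨δ, hδ, T1, hT1, h1⟩ := hwb J hJ
  have hJ0 : (0 : ℝ) < J := by exact_mod_cast hJ
  have := hg (fun n => |XD J n|) (fun n => abs_nonneg _) (B / Real.sqrt J) δ T1 (by positivity) hδ h1
  filter_upwards [this] with N hN
  refine hN.trans (le_of_eq ?_)
  ring

end Pool.Agent.Q276.LR
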