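import Pool.Agent.H177R3.LatB
import Pool.Agent.Helper76.HPlanch

/-! Dyadic averages of triangles and their transforms. -/

set_option autoImplicit false

open Filter Topology Set MeasureTheory FourierTransform

namespace Pool.Agent.Q276.LR

open H177.Lat (tri KK tri_nonneg tri_zero tri_in tri_even tri_lip tri_cont tri_integrable KK_zero
  KK_ne KK_nonneg KK_le KK_sq tri_sin)

/-- the dyadic average of triangles -/
noncomputable def Ph (J : ℕ) (u : ℝ) : ℝ := (J : ℝ)⁻¹ * ∑ j ∈ Finset.range J, tri (2 ^ (j + 1)) u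

/-- its transform -/
noncomputable def PH (J : ℕ) (x : ℝ) : ℝ := (J : ℝ)⁻¹ * ∑ j ∈ Finset.range J, KK (2 ^ (j + 1)) x

/-- its integral -/
noncomputable def mJ (J : ℕ) : ℝ := (J : ℝ)⁻¹ * ∑ j ∈ Finset.range J, (2 : ℝ) ^ (j + 1)

lemma tp (j : ℕ) : (0 : ℝ) < 2 ^ (j + 1) := by positivity

lemma Ji (J : ℕ) : (0 : ℝ) ≤ (J : ℝ)⁻¹ := by positivity

lemma mJ_nonneg (J : ℕ) : 0 ≤ mJ J := by
  unfold mJ; positivity

lemma Ph_nonneg (J : ℕ) (u : ℝ) : 0 ≤ Ph J u :=
  mul_nonneg (Ji J) (Finset.sum_nonneg fun _ _ => tri_nonneg _ _)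

lemma tri_zero' (e : ℝ) : tri e 0 = 1 := by
  unfold tri; simp

lemma tri_le_one' {e : ℝ} (he : 0 < e) (u : ℝ) : tri e u ≤ 1 := by
  unfold tri
  apply max_le zero_le_one
  have : 0 ≤ |u| / e := by positivity
  linarith

lemma Ph_zero {J : ℕ} (hJ : 1 ≤ J) : Ph J 0 = 1 := by
  have h0 : (J : ℝ) ≠ 0 := by positivity
  unfold Ph
  rw [Finset.sum_congr rfl fun j _ => tri_zero' (2 ^ (j + 1)), Finset.sum_const, Finset.card_range,
    nsmul_eq_mul, mul_one]
  exact inv_mul_cancel₀ h0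

lemma Ph_le_one {J : ℕ} (hJ : 1 ≤ J) (u : ℝ) : Ph J u ≤ 1 := by
  rw [← Ph_zero hJ]
  unfold Ph
  apply mul_le_mul_of_nonneg_left _ (Ji J)
  exact Finset.sum_le_sum fun j _ => by rw [tri_zero']; exact tri_le_one' (tp j) u

lemma Ph_even (J : ℕ) (u : ℝ) : Ph J (-u) = Ph J u := by
  unfold Ph; simp_rw [tri_even]

lemma Ph_far {J : ℕ} {u : ℝ} (h : 2 ^ J ≤ |u|) : Ph J u = 0 := by
  unfold Ph
  rw [Finset.sum_eq_zero, mul_zero]
  intro j hj
  rw [Finset.mem_range] at hj
  apply tri_zero (tp j)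
  exact (pow_le_pow_right₀ (by norm_num) (by omega)).trans h

lemma Ph_cont (J : ℕ) : Continuous (Ph J) := by
  unfold Ph
  exact continuous_const.mul (continuous_finsetSum _ fun j _ => tri_cont _)

lemma PH_zero (J : ℕ) : PH J 0 = mJ J := by
  unfold PH mJ
  congr 1
  exact Finset.sum_congr rfl fun j _ => KK_zero (tp j)

lemma PH_nonneg (J : ℕ) (x : ℝ) : 0 ≤ PH J x :=
  mul_nonneg (Ji J) (Finset.sum_nonneg fun j _ => KK_nonneg (tp j) x)

lemma PH_le (J : ℕ) (x : ℝ) : PH J x ≤ mJ J :=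
  mul_le_mul_of_nonneg_left (Finset.sum_le_sum fun j _ => KK_le (tp j) x) (Ji J)

/-- dyadic sums of `min (t, 1/t)` -/
lemma dyad (n : ℕ) : ∀ q : ℝ, 0 < q → ∑ j ∈ Finset.range n, min (2 ^ j * q) (1 / (2 ^ j * q)) ≤
    if q < 1 then 4 - 2 * q else 2 / q := by
  induction n with
  | zero =>
    intro q hq
    simp only [Finset.range_zero, Finset.sum_empty]
    split_ifs with h
    · linarith
    · positivity
  | succ n ih =>
    intro q hq
    rw [Finset.sum_range_succ']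
    have e1 : ∀ j : ℕ, (2 : ℝ) ^ (j + 1) * q = 2 ^ j * (2 * q) := fun j => by ring
    simp_rw [e1]
    have h1 := ih (2 * q) (by positivity)
    rw [pow_zero, one_mul]
    split_ifs at h1 with h2
    · rw [if_pos (by linarith)]
      have := min_le_left q (1 / q)
      linarith
    · push Not at h2
      by_cases h3 : q < 1
      · rw [if_pos h3]
        have := min_le_left q (1 / q)
        have h4 : 2 / (2 * q) = 1 / q := by field_simp
        rw [h4] at h1
        have h5 : 1 / q ≤ 4 - 3 * q := by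
          rw [div_le_iff₀ hq]
          nlinarith
        linarith
      · rw [if_neg h3]
        have := min_le_right q (1 / q)
        have h4 : 2 / (2 * q) = 1 / q := by field_simp
        rw [h4] at h1
        have h5 : 2 / q = 1 / q + 1 / q := by ring
        linarith

lemma dyad4 (n : ℕ) {q : ℝ} (hq : 0 < q) :
    ∑ j ∈ Finset.range n, min (2 ^ j * q) (1 / (2 ^ j * q)) ≤ 4 := by
  refine (dyad n q hq).trans ?_
  split_ifs with h
  · linarith
  · push Not at h
    rw [div_le_iff₀ hq]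
    linarith

lemma PH_abs {J : ℕ} (x : ℝ) : |x| * PH J x ≤ 4 / J := by
  rcases eq_or_ne x 0 with h | h
  · rw [h, abs_zero, zero_mul]; positivity
  have hx : 0 < |x| := abs_pos.2 h
  unfold PH
  have h1 : |x| * ∑ j ∈ Finset.range J, KK (2 ^ (j + 1)) x ≤ 4 := by
    rw [Finset.mul_sum]
    refine (Finset.sum_le_sum fun j _ => ?_).trans (dyad4 J (q := 2 * |x|) (by positivity))
    have e1 : (2 : ℝ) ^ j * (2 * |x|) = 2 ^ (j + 1) * |x| := by ring
    rw [e1]
    apply le_min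
    · rw [mul_comm]
      exact mul_le_mul_of_nonneg_right (KK_le (tp j) x) hx.le
    · have h2 := KK_sq (tp j) x
      rw [le_div_iff₀ (by positivity)]
      rw [le_div_iff₀ (tp j), ← sq_abs] at h2
      calc |x| * KK (2 ^ (j + 1)) x * (2 ^ (j + 1) * |x|) =
          KK (2 ^ (j + 1)) x * |x| ^ 2 * 2 ^ (j + 1) := by ring
        _ ≤ 1 := h2
  calc |x| * ((J : ℝ)⁻¹ * ∑ j ∈ Finset.range J, KK (2 ^ (j + 1)) x) =
      (J : ℝ)⁻¹ * (|x| * ∑ j ∈ Finset.range J, KK (2 ^ (j + 1)) x) := by ring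
    _ ≤ (J : ℝ)⁻¹ * 4 := mul_le_mul_of_nonneg_left h1 (Ji J)
    _ = 4 / J := by ring

lemma geom_half (n : ℕ) : ∑ j ∈ Finset.range n, (1 : ℝ) / 2 ^ (j + 1) ≤ 1 := by
  have h : ∀ n : ℕ, ∑ j ∈ Finset.range n, (1 : ℝ) / 2 ^ (j + 1) = 1 - 1 / 2 ^ n := by
    intro n
    induction n with
    | zero => simp
    | succ n ih => rw [Finset.sum_range_succ, ih]; field_simp; ring
  rw [h n]
  have : (0 : ℝ) < 1 / 2 ^ n := by positivity
  linarith

lemma PH_far {J : ℕ} (x : ℝ) : PH J x * x ^ 2 ≤ 1 / J := by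
  unfold PH
  have h1 : (∑ j ∈ Finset.range J, KK (2 ^ (j + 1)) x) * x ^ 2 ≤ 1 := by
    rw [Finset.sum_mul]
    exact (Finset.sum_le_sum fun j _ => KK_sq (tp j) x).trans (geom_half J)
  calc (J : ℝ)⁻¹ * (∑ j ∈ Finset.range J, KK (2 ^ (j + 1)) x) * x ^ 2 =
      (J : ℝ)⁻¹ * ((∑ j ∈ Finset.range J, KK (2 ^ (j + 1)) x) * x ^ 2) := by ring
    _ ≤ (J : ℝ)⁻¹ * 1 := mul_le_mul_of_nonneg_left h1 (Ji J)
    _ = 1 / J := by ring

/-- the transform of the triangle as a Fourier transform -/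
lemma four_tri {e : ℝ} (he : 0 < e) (x : ℝ) :
    𝓕 (fun u : ℝ => ((tri e u : ℝ) : ℂ)) x = ((KK e x : ℝ) : ℂ) := by
  rw [Real.fourier_real_eq_integral_exp_smul]
  have h1 : ∀ u : ℝ, Complex.exp (↑(-2 * Real.pi * u * x) * Complex.I) • ((tri e u : ℝ) : ℂ) =
      ((tri e u * Real.cos (2 * Real.pi * u * x) : ℝ) : ℂ) -
        Complex.I * ((tri e u * Real.sin (2 * Real.pi * u * x) : ℝ) : ℂ) := by
    intro u
    have e1 : (↑(-2 * Real.pi * u * x) : ℂ) * Complex.I =
        ((-(2 * Real.pi * u * x) : ℝ) : ℂ) * Complex.I := by push_cast; ring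
    rw [e1, Complex.exp_mul_I, ← Complex.ofReal_cos, ← Complex.ofReal_sin, Real.cos_neg,
      Real.sin_neg, smul_eq_mul]
    push_cast
    ring
  simp_rw [h1]
  have i1 : Integrable fun u : ℝ => ((tri e u * Real.cos (2 * Real.pi * u * x) : ℝ) : ℂ) :=
    (tri_integrable he (by fun_prop)).ofReal
  have i2 : Integrable fun u : ℝ => ((tri e u * Real.sin (2 * Real.pi * u * x) : ℝ) : ℂ) :=
    (tri_integrable he (by fun_prop)).ofReal
  rw [integral_sub i1 (i2.const_mul _), integral_const_mul, integral_complex_ofReal,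
    integral_complex_ofReal, tri_sin]
  simp [KK]

lemma KK_contDiff {e : ℝ} (he : 0 < e) : ContDiff ℝ 2 (KK e) := by
  have h1 : ContDiff ℝ (2 : ℕ∞) (𝓕 (fun u : ℝ => ((tri e u : ℝ) : ℂ))) := by
    apply Real.contDiff_fourier
    intro n _
    have hc : Continuous fun v : ℝ => ‖v‖ ^ n * ‖((tri e v : ℝ) : ℂ)‖ := by
      have := tri_cont e
      fun_prop
    apply hc.integrable_of_hasCompactSupport
    apply HasCompactSupport.intro (isCompact_Icc (a := -e) (b := e))
    intro x hx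
    have : e ≤ |x| := by
      by_contra h
      push Not at h
      obtain ⟨h3, h4⟩ := abs_lt.1 h
      exact hx ⟨h3.le, h4.le⟩
    rw [tri_zero he this]
    simp
  have h2 : KK e = fun x => Complex.reCLM (𝓕 (fun u : ℝ => ((tri e u : ℝ) : ℂ)) x) := by
    funext x
    rw [four_tri he]
    simp
  rw [h2]
  exact Complex.reCLM.contDiff.comp h1

lemma PH_contDiff (J : ℕ) : ContDiff ℝ 2 (PH J) := by
  unfold PH
  exact contDiff_const.mul (ContDiff.sum fun j _ => KK_contDiff (tp j))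

end Pool.Agent.Q276.LR
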