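import Pool.Agent.Q276.LR.A1

/-! The band-limited test function. -/

set_option autoImplicit false

open Filter Topology Set MeasureTheory FourierTransform

namespace Pool.Agent.Q276.LR

open H370.A2 (RR)
open H177.Lat (tri KK tri_nonneg tri_zero tri_in tri_even tri_lip tri_cont tri_integrable KK_zero
  KK_ne KK_nonneg KK_le KK_sq tri_sin)

/-- the smooth version of the test function -/
noncomputable def Pm (J : ℕ) (x : ℝ) : ℝ := PH J x ^ 2 * (1 - 4 * x ^ 2) ^ 2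

/-- the test function on the Fourier side -/
noncomputable def Psi (J : ℕ) (x : ℝ) : ℝ := PH J x ^ 2 * max 0 (1 - 4 * x ^ 2) ^ 2

lemma Psi_zero (J : ℕ) : Psi J 0 = mJ J ^ 2 := by
  unfold Psi; rw [PH_zero]; simp

lemma Psi_nonneg (J : ℕ) (x : ℝ) : 0 ≤ Psi J x := by unfold Psi; positivity

lemma Psi_in {J : ℕ} {x : ℝ} (h : |x| ≤ 1 / 2) : Psi J x = Pm J x := by
  unfold Psi Pm
  have h1 : x ^ 2 ≤ (1 / 2) ^ 2 := sq_le_sq' (by linarith [(abs_le.1 h).1]) (abs_le.1 h).2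
  rw [max_eq_right (by linarith)]

lemma Psi_out {J : ℕ} {x : ℝ} (h : 1 / 2 ≤ |x|) : Psi J x = 0 := by
  unfold Psi
  have h1 : (1 / 2) ^ 2 ≤ x ^ 2 := by
    rw [← sq_abs x]
    exact pow_le_pow_left₀ (by norm_num) h 2
  rw [max_eq_left (by linarith)]
  simp

lemma Pm_contDiff (J : ℕ) : ContDiff ℝ 2 (Pm J) := by
  unfold Pm
  exact ((PH_contDiff J).pow 2).mul ((contDiff_const.sub (contDiff_const.mul (contDiff_id.pow 2))).pow 2)

lemma Pm_nonneg (J : ℕ) (x : ℝ) : 0 ≤ Pm J x := by unfold Pm; positivity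

lemma Pm_end {J : ℕ} {x : ℝ} (h : x ^ 2 = 1 / 4) : Pm J x = 0 := by
  unfold Pm; rw [h]; norm_num

lemma Pm_deriv_end {J : ℕ} {x : ℝ} (h : x ^ 2 = 1 / 4) : deriv (Pm J) x = 0 := by
  apply IsLocalMin.deriv_eq_zero
  refine Eventually.of_forall fun z => ?_
  rw [Pm_end h]
  exact Pm_nonneg J z

lemma Psi_lip (J : ℕ) : ∃ K : ℝ, ∀ x y, |Psi J x - Psi J y| ≤ K * |x - y| := by
  have hc : ContDiff ℝ 1 (Pm J) := (Pm_contDiff J).of_le (by norm_num)
  have hd : Differentiable ℝ (Pm J) := hc.differentiable (by norm_num)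
  have hdc : Continuous (deriv (Pm J)) := hc.continuous_deriv (by norm_num)
  obtain ⟨K, hK⟩ := (isCompact_Icc (a := (-(1 / 2) : ℝ)) (b := 1 / 2)).exists_bound_of_continuousOn
    hdc.continuousOn
  set c : ℝ → ℝ := fun x => max (-(1 / 2)) (min (1 / 2) x) with hcdef
  have hc1 : ∀ x, c x ∈ Icc (-(1 / 2) : ℝ) (1 / 2) := fun x =>
    ⟨le_max_left _ _, max_le (by norm_num) (min_le_left _ _)⟩
  have hc2 : ∀ x, Psi J x = Pm J (c x) := by
    intro x
    rcases le_total |x| (1 / 2) with h | h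
    · rw [Psi_in h]
      obtain ⟨h1, h2⟩ := abs_le.1 h
      congr 1
      simp only [hcdef]
      rw [min_eq_right h2, max_eq_right h1]
    · rw [Psi_out h, Pm_end]
      simp only [hcdef]
      rcases le_abs.1 h with h1 | h1
      · rw [min_eq_left h1]; norm_num
      · rw [min_eq_right (by linarith), max_eq_left (by linarith)]; norm_num
  have hc3 : ∀ x y, |c x - c y| ≤ |x - y| := by
    intro x y
    simp only [hcdef]
    have h1 := abs_max_sub_max_le_abs (min (1 / 2) x) (min (1 / 2) y) (-(1 / 2) : ℝ)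
    have h2 := abs_min_sub_min_le_max (1 / 2) x (1 / 2) y
    rw [max_comm (-(1/2)) , max_comm (-(1/2))]
    refine h1.trans (h2.trans ?_)
    simp
  refine ⟨K, fun x y => ?_⟩
  rw [hc2, hc2]
  have h1 := Convex.norm_image_sub_le_of_norm_deriv_le (f := Pm J) (C := K)
    (fun z _ => hd.differentiableAt) (fun z hz => hK z hz) (convex_Icc _ _) (hc1 y) (hc1 x)
  rw [Real.norm_eq_abs, Real.norm_eq_abs] at h1
  have hK0 : 0 ≤ K := (norm_nonneg _).trans (hK 0 (by norm_num))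
  exact h1.trans (mul_le_mul_of_nonneg_left (hc3 x y) hK0)

lemma RR_Psi (J : ℕ) (x : ℝ) : RR (Psi J) (1 / 2) x =
    ∫ α in (-(1 / 2) : ℝ)..(1 / 2), Pm J α * Real.cos (2 * Real.pi * α * x) := by
  unfold RR
  apply intervalIntegral.integral_congr
  intro α hα
  rw [Set.uIcc_of_le (by norm_num)] at hα
  show Psi J α * _ = _
  rw [Psi_in (abs_le.2 hα)]

lemma RR_decay (J : ℕ) : ∃ C : ℝ, ∀ x, |RR (Psi J) (1 / 2) x| * x ^ 2 ≤ C := by
  have hc := Pm_contDiff J
  have hd : Differentiable ℝ (Pm J) := hc.differentiable (by norm_num)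
  have hc1 : ContDiff ℝ 1 (deriv (Pm J)) := by
    have : ContDiff ℝ (1 + 1) (Pm J) := by norm_num; exact hc
    exact (contDiff_succ_iff_deriv.1 this).2.2
  have hd1 : Differentiable ℝ (deriv (Pm J)) := hc1.differentiable (by norm_num)
  have hc2 : Continuous (deriv (deriv (Pm J))) := hc1.continuous_deriv (by norm_num)
  set C := ∫ α in (-(1 / 2) : ℝ)..(1 / 2), |deriv (deriv (Pm J)) α| with hC
  have hC0 : 0 ≤ C := by
    apply intervalIntegral.integral_nonneg (by norm_num)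
    intro _ _; positivity
  refine ⟨C, fun x => ?_⟩
  rw [RR_Psi]
  set z : ℝ := 2 * Real.pi * x with hz
  have hcc : Continuous fun α : ℝ => Real.cos (2 * Real.pi * α * x) := by fun_prop
  have hcs : Continuous fun α : ℝ => Real.sin (2 * Real.pi * α * x) := by fun_prop
  have hds : ∀ α : ℝ, HasDerivAt (fun α => Real.sin (2 * Real.pi * α * x))
      (Real.cos (2 * Real.pi * α * x) * z) α := fun α => by
    have h : HasDerivAt (fun α : ℝ => 2 * Real.pi * α * x) z α := by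
      have := ((hasDerivAt_id α).const_mul (2 * Real.pi)).mul_const x
      refine this.congr_deriv ?_
      rw [hz]; ring
    exact h.sin
  have hdc : ∀ α : ℝ, HasDerivAt (fun α => Real.cos (2 * Real.pi * α * x))
      (-Real.sin (2 * Real.pi * α * x) * z) α := fun α => by
    have h : HasDerivAt (fun α : ℝ => 2 * Real.pi * α * x) z α := by
      have := ((hasDerivAt_id α).const_mul (2 * Real.pi)).mul_const x
      refine this.congr_deriv ?_
      rw [hz]; ring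
    exact h.cos
  have key : z ^ 2 * (∫ α in (-(1 / 2) : ℝ)..(1 / 2), Pm J α * Real.cos (2 * Real.pi * α * x)) =
      -∫ α in (-(1 / 2) : ℝ)..(1 / 2),
        deriv (deriv (Pm J)) α * Real.cos (2 * Real.pi * α * x) := by
    have hdd : ∀ α ∈ Set.uIcc (-(1 / 2) : ℝ) (1 / 2), HasDerivAt
        (fun α => z * (Pm J α * Real.sin (2 * Real.pi * α * x)) +
          deriv (Pm J) α * Real.cos (2 * Real.pi * α * x))
        (z ^ 2 * (Pm J α * Real.cos (2 * Real.pi * α * x)) +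
          deriv (deriv (Pm J)) α * Real.cos (2 * Real.pi * α * x)) α := fun α _ => by
      have := (((hd α).hasDerivAt.mul (hds α)).const_mul z).add ((hd1 α).hasDerivAt.mul (hdc α))
      refine this.congr_deriv ?_
      ring
    have i1 : IntervalIntegrable (fun α => z ^ 2 * (Pm J α * Real.cos (2 * Real.pi * α * x)))
        volume (-(1 / 2) : ℝ) (1 / 2) :=
      (continuous_const.mul (hc.continuous.mul hcc)).intervalIntegrable _ _
    have i2 : IntervalIntegrable (fun α => deriv (deriv (Pm J)) α *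
        Real.cos (2 * Real.pi * α * x)) volume (-(1 / 2) : ℝ) (1 / 2) :=
      (hc2.mul hcc).intervalIntegrable _ _
    have h4 := intervalIntegral.integral_eq_sub_of_hasDerivAt hdd (i1.add i2)
    rw [intervalIntegral.integral_add i1 i2, intervalIntegral.integral_const_mul,
      Pm_end (by norm_num : ((1 : ℝ) / 2) ^ 2 = 1 / 4),
      Pm_end (by norm_num : (-(1 / 2) : ℝ) ^ 2 = 1 / 4),
      Pm_deriv_end (by norm_num : ((1 : ℝ) / 2) ^ 2 = 1 / 4),
      Pm_deriv_end (by norm_num : (-(1 / 2) : ℝ) ^ 2 = 1 / 4)] at h4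
    linarith
  have h5 : |∫ α in (-(1 / 2) : ℝ)..(1 / 2),
      deriv (deriv (Pm J)) α * Real.cos (2 * Real.pi * α * x)| ≤ C := by
    refine (intervalIntegral.abs_integral_le_integral_abs (by norm_num)).trans ?_
    apply intervalIntegral.integral_mono_on (by norm_num) ((hc2.mul hcc).abs.intervalIntegrable _ _)
      (hc2.abs.intervalIntegrable _ _)
    intro α _
    rw [Pi.mul_apply, abs_mul]
    exact mul_le_of_le_one_right (abs_nonneg _) (Real.abs_cos_le_one _)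
  have h6 := congrArg abs key
  rw [abs_neg, abs_mul, abs_of_nonneg (sq_nonneg z)] at h6
  have h7 : x ^ 2 ≤ z ^ 2 := by
    rw [hz, mul_pow]
    have : 1 ≤ (2 * Real.pi) ^ 2 := by nlinarith [Real.pi_gt_three]
    nlinarith [sq_nonneg x]
  calc |∫ α in (-(1 / 2) : ℝ)..(1 / 2), Pm J α * Real.cos (2 * Real.pi * α * x)| * x ^ 2 ≤
      |∫ α in (-(1 / 2) : ℝ)..(1 / 2), Pm J α * Real.cos (2 * Real.pi * α * x)| * z ^ 2 :=
        mul_le_mul_of_nonneg_left h7 (abs_nonneg _)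
    _ ≤ C := by rw [mul_comm, h6]; exact h5

/-- the majorant, I -/
lemma ineq1 {J : ℕ} (x : ℝ) : PH J x ^ 2 ≤ Psi J x + 160 / J ^ 2 * (1 / (1 + x ^ 2)) := by
  have hx2 : 0 ≤ x ^ 2 := sq_nonneg x
  rcases le_total |x| (1 / 2) with h | h
  · have h1 : x ^ 2 ≤ (1 / 2) ^ 2 := sq_le_sq' (by linarith [(abs_le.1 h).1]) (abs_le.1 h).2
    rw [Psi_in h]
    unfold Pm
    have h2 := PH_abs (J := J) x
    have h3 : 0 ≤ |x| * PH J x := mul_nonneg (abs_nonneg _) (PH_nonneg _ _)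
    have h4 : (|x| * PH J x) ^ 2 ≤ (4 / J) ^ 2 := pow_le_pow_left₀ h3 h2 2
    have h5 : (|x| * PH J x) ^ 2 = x ^ 2 * PH J x ^ 2 := by rw [mul_pow, sq_abs]
    rw [h5] at h4
    have h6 : (4 / (J : ℝ)) ^ 2 = 16 / J ^ 2 := by rw [div_pow]; norm_num
    rw [h6] at h4
    have h7 : 128 / (J : ℝ) ^ 2 ≤ 160 / J ^ 2 * (1 / (1 + x ^ 2)) := by
      rw [mul_one_div, le_div_iff₀ (by positivity)]
      have : 128 / (J : ℝ) ^ 2 * (1 + x ^ 2) ≤ 128 / (J : ℝ) ^ 2 * (5 / 4) :=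
        mul_le_mul_of_nonneg_left (by linarith) (by positivity)
      refine this.trans (le_of_eq ?_)
      ring
    have h8 : PH J x ^ 2 * (1 - (1 - 4 * x ^ 2) ^ 2) ≤ 8 * (x ^ 2 * PH J x ^ 2) := by
      have : 1 - (1 - 4 * x ^ 2) ^ 2 ≤ 8 * x ^ 2 := by nlinarith [sq_nonneg (x ^ 2)]
      nlinarith [mul_le_mul_of_nonneg_left this (sq_nonneg (PH J x))]
    have h9 : 8 * (16 / (J : ℝ) ^ 2) = 128 / J ^ 2 := by ring
    nlinarith
  · rw [Psi_out h, zero_add]
    have h1 : (1 / 2) ^ 2 ≤ x ^ 2 := by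
      rw [← sq_abs x]
      exact pow_le_pow_left₀ (by norm_num) h 2
    have h2 := PH_far (J := J) x
    have h3 : (PH J x * x ^ 2) ^ 2 ≤ (1 / J) ^ 2 :=
      pow_le_pow_left₀ (mul_nonneg (PH_nonneg _ _) hx2) h2 2
    rw [mul_one_div, le_div_iff₀ (by positivity)]
    have h4 : 1 + x ^ 2 ≤ 20 * (x ^ 2) ^ 2 := by nlinarith
    have h5 : (1 / (J : ℝ)) ^ 2 = 1 / J ^ 2 := by rw [div_pow]; norm_num
    rw [h5] at h3
    have h6 : 20 * (1 / (J : ℝ) ^ 2) ≤ 160 / J ^ 2 := by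
      rw [mul_one_div]
      gcongr
      norm_num
    calc PH J x ^ 2 * (1 + x ^ 2) ≤ PH J x ^ 2 * (20 * (x ^ 2) ^ 2) :=
          mul_le_mul_of_nonneg_left h4 (sq_nonneg _)
      _ = 20 * (PH J x * x ^ 2) ^ 2 := by ring
      _ ≤ 20 * (1 / (J : ℝ) ^ 2) := by linarith
      _ ≤ _ := h6

/-- the majorant, II -/
lemma ineq2 {J : ℕ} (x : ℝ) :
    (2 * Real.pi * x) ^ 2 * PH J x ^ 2 ≤ 1000 / J ^ 2 * (1 / (1 + x ^ 2)) := by
  have hx2 : 0 ≤ x ^ 2 := sq_nonneg x
  have hpi : (2 * Real.pi) ^ 2 ≤ 40 := by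
    have h1 := Real.pi_lt_d2
    have h2 := Real.pi_gt_three
    nlinarith
  have e0 : (2 * Real.pi * x) ^ 2 * PH J x ^ 2 = (2 * Real.pi) ^ 2 * (x ^ 2 * PH J x ^ 2) := by ring
  rw [e0]
  have hp : 0 ≤ x ^ 2 * PH J x ^ 2 := by positivity
  refine (mul_le_mul_of_nonneg_right hpi hp).trans ?_
  rw [mul_one_div, le_div_iff₀ (by positivity)]
  rcases le_total |x| (1 / 2) with h | h
  · have h1 : x ^ 2 ≤ (1 / 2) ^ 2 := sq_le_sq' (by linarith [(abs_le.1 h).1]) (abs_le.1 h).2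
    have h2 := PH_abs (J := J) x
    have h3 : 0 ≤ |x| * PH J x := mul_nonneg (abs_nonneg _) (PH_nonneg _ _)
    have h4 : (|x| * PH J x) ^ 2 ≤ (4 / J) ^ 2 := pow_le_pow_left₀ h3 h2 2
    have h5 : (|x| * PH J x) ^ 2 = x ^ 2 * PH J x ^ 2 := by rw [mul_pow, sq_abs]
    rw [h5] at h4
    have h6 : (4 / (J : ℝ)) ^ 2 = 16 / J ^ 2 := by rw [div_pow]; norm_num
    rw [h6] at h4
    have h7 : (0 : ℝ) ≤ 16 / J ^ 2 := by positivity
    calc 40 * (x ^ 2 * PH J x ^ 2) * (1 + x ^ 2) ≤ 40 * (16 / (J : ℝ) ^ 2) * (5 / 4) := by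
          gcongr
          linarith
      _ = 800 / (J : ℝ) ^ 2 := by ring
      _ ≤ 1000 / (J : ℝ) ^ 2 := by gcongr; norm_num
  · have h1 : (1 / 2) ^ 2 ≤ x ^ 2 := by
      rw [← sq_abs x]
      exact pow_le_pow_left₀ (by norm_num) h 2
    have h2 := PH_far (J := J) x
    have h3 : (PH J x * x ^ 2) ^ 2 ≤ (1 / J) ^ 2 :=
      pow_le_pow_left₀ (mul_nonneg (PH_nonneg _ _) hx2) h2 2
    have h5 : (1 / (J : ℝ)) ^ 2 = 1 / J ^ 2 := by rw [div_pow]; norm_num
    rw [h5] at h3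
    have h4 : 1 + x ^ 2 ≤ 5 * x ^ 2 := by nlinarith
    calc 40 * (x ^ 2 * PH J x ^ 2) * (1 + x ^ 2) ≤ 40 * (x ^ 2 * PH J x ^ 2) * (5 * x ^ 2) :=
          mul_le_mul_of_nonneg_left h4 (by positivity)
      _ = 200 * (PH J x * x ^ 2) ^ 2 := by ring
      _ ≤ 200 * (1 / (J : ℝ) ^ 2) := by linarith
      _ = 200 / (J : ℝ) ^ 2 := by ring
      _ ≤ 1000 / (J : ℝ) ^ 2 := by gcongr; norm_num

lemma KK_le2 {e : ℝ} (he : 0 < e) (x : ℝ) : KK e x ≤ 2 * (e * (1 + (e * x) ^ 2)⁻¹) := by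
  have h1 := KK_le he x
  have h2 := KK_sq he x
  rw [le_div_iff₀ he] at h2
  have h3 : KK e x * (1 + (e * x) ^ 2) ≤ 2 * e := by
    have : KK e x * (e * x) ^ 2 = (KK e x * x ^ 2 * e) * e := by ring
    nlinarith
  have h4 : 0 < 1 + (e * x) ^ 2 := by positivity
  rw [← mul_assoc, ← div_eq_mul_inv, le_div_iff₀ h4]
  exact h3

lemma int_KK {e : ℝ} (he : 0 < e) : ∫ x in (-(1 / 2) : ℝ)..(1 / 2), KK e x ≤ 7 := by
  have hcont : Continuous (KK e) := (KK_contDiff he).continuous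
  have hg : Continuous fun x : ℝ => 2 * (e * (1 + (e * x) ^ 2)⁻¹) := by
    refine continuous_const.mul (continuous_const.mul (Continuous.inv₀ (by fun_prop) fun x => ?_))
    positivity
  have h1 : ∫ x in (-(1 / 2) : ℝ)..(1 / 2), KK e x ≤
      ∫ x in (-(1 / 2) : ℝ)..(1 / 2), 2 * (e * (1 + (e * x) ^ 2)⁻¹) := by
    apply intervalIntegral.integral_mono_on (by norm_num) (hcont.intervalIntegrable _ _)
      (hg.intervalIntegrable _ _)
    intro x _
    exact KK_le2 he x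
  refine h1.trans ?_
  rw [intervalIntegral.integral_const_mul, intervalIntegral.integral_const_mul]
  have h2 : e * ∫ x in (-(1 / 2) : ℝ)..(1 / 2), (1 + (e * x) ^ 2)⁻¹ =
      ∫ x in (e * (-(1 / 2)))..(e * (1 / 2)), (1 + x ^ 2)⁻¹ :=
    intervalIntegral.mul_integral_comp_mul_left (f := fun x : ℝ => (1 + x ^ 2)⁻¹) e
  rw [h2, integral_inv_one_add_sq]
  have h3 := Real.arctan_lt_pi_div_two (e * (1 / 2))
  have h4 := Real.neg_pi_div_two_lt_arctan (e * (-(1 / 2)))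
  have h5 := Real.pi_lt_d2
  linarith

lemma int_PH (J : ℕ) : ∫ x in (-(1 / 2) : ℝ)..(1 / 2), PH J x ≤ 7 := by
  unfold PH
  rw [intervalIntegral.integral_const_mul, intervalIntegral.integral_finsetSum]
  swap
  · intro j _
    exact (KK_contDiff (tp j)).continuous.intervalIntegrable _ _
  have h1 : ∑ j ∈ Finset.range J, ∫ x in (-(1 / 2) : ℝ)..(1 / 2), KK (2 ^ (j + 1)) x ≤
      J * 7 := by
    calc _ ≤ ∑ j ∈ Finset.range J, (7 : ℝ) := Finset.sum_le_sum fun j _ => int_KK (tp j)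
      _ = J * 7 := by rw [Finset.sum_const, Finset.card_range, nsmul_eq_mul]
  rcases Nat.eq_zero_or_pos J with h | h
  · rw [h]; simp
  · have h2 : (0 : ℝ) < J := by exact_mod_cast h
    calc _ ≤ (J : ℝ)⁻¹ * (J * 7) := mul_le_mul_of_nonneg_left h1 (Ji J)
      _ = 7 := by field_simp

/-- the main term -/
lemma int_Psi (J : ℕ) : ∫ x in (-(1 / 2) : ℝ)..(1 / 2), |x| * Psi J x ≤ 28 / J := by
  have hPc : Continuous (PH J) := (PH_contDiff J).continuous
  have hΨ : Continuous (Psi J) := by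
    unfold Psi
    fun_prop
  have h1 : ∫ x in (-(1 / 2) : ℝ)..(1 / 2), |x| * Psi J x ≤
      ∫ x in (-(1 / 2) : ℝ)..(1 / 2), 4 / J * PH J x := by
    apply intervalIntegral.integral_mono_on (by norm_num)
      ((continuous_abs.mul hΨ).intervalIntegrable _ _)
      ((continuous_const.mul hPc).intervalIntegrable _ _)
    intro x hx
    have h2 : Psi J x ≤ PH J x ^ 2 := by
      rw [Psi_in (abs_le.2 hx)]
      unfold Pm
      have h3 : x ^ 2 ≤ (1 / 2) ^ 2 := sq_le_sq' (by linarith [hx.1]) hx.2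
      have h4 : (1 - 4 * x ^ 2) ^ 2 ≤ 1 := by nlinarith [sq_nonneg x]
      nlinarith [sq_nonneg (PH J x)]
    calc |x| * Psi J x ≤ |x| * PH J x ^ 2 := mul_le_mul_of_nonneg_left h2 (abs_nonneg _)
      _ = |x| * PH J x * PH J x := by ring
      _ ≤ 4 / J * PH J x := mul_le_mul_of_nonneg_right (PH_abs x) (PH_nonneg _ _)
  refine h1.trans ?_
  rw [intervalIntegral.integral_const_mul]
  calc 4 / (J : ℝ) * ∫ x in (-(1 / 2) : ℝ)..(1 / 2), PH J x ≤ 4 / (J : ℝ) * 7 :=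
        mul_le_mul_of_nonneg_left (int_PH J) (by positivity)
    _ = 28 / J := by ring

end Pool.Agent.Q276.LR
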