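import Pool.Agent.Q276.LR.A2
import Pool.Agent.H177R3.CosA

/-! Plancherel's formula for sums of shifts. -/

set_option autoImplicit false

open Filter Topology Set MeasureTheory FourierTransform

namespace Pool.Agent.Q276.LR

open H177.Lat (ee ee_norm ee_add ee_re ee_conj ee_cont sq_sum)

/-- the trigonometric sum -/
noncomputable def TS (I : Finset ℕ) (y : ℕ → ℝ) (α : ℝ) : ℂ := ∑ n ∈ I, ee (α * y n)

lemma TS_cont (I : Finset ℕ) (y : ℕ → ℝ) : Continuous (TS I y) := by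
  unfold TS
  exact continuous_finsetSum _ fun n _ => ee_cont (by fun_prop)

lemma TS_le (I : Finset ℕ) (y : ℕ → ℝ) (α : ℝ) : ‖TS I y α‖ ≤ I.card := by
  unfold TS
  refine (norm_sum_le _ _).trans ?_
  simp [ee_norm]

lemma TS_neg (I : Finset ℕ) (y : ℕ → ℝ) (α : ℝ) : ‖TS I y (-α)‖ = ‖TS I y α‖ := by
  have h1 : TS I y (-α) = (starRingEnd ℂ) (TS I y α) := by
    unfold TS
    rw [map_sum]
    refine Finset.sum_congr rfl fun n _ => ?_
    rw [ee_conj]
    congr 1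
    ring
  rw [h1, RCLike.norm_conj]

lemma four_shift1 {h : ℝ → ℂ} (y α : ℝ) :
    𝓕 (fun x => h (x - y)) α = ee (-α * y) * 𝓕 h α := by
  rw [Real.fourier_real_eq_integral_exp_smul, Real.fourier_real_eq_integral_exp_smul,
    ← integral_const_mul]
  have h1 := integral_sub_right_eq_self (μ := volume)
    (fun u : ℝ => Complex.exp (↑(-2 * Real.pi * (u + y) * α) * Complex.I) • h u) y
  simp only [sub_add_cancel] at h1
  rw [h1]
  refine integral_congr_ae (Eventually.of_forall fun u => ?_)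
  show Complex.exp (↑(-2 * Real.pi * (u + y) * α) * Complex.I) • h u =
    ee (-α * y) * (Complex.exp (↑(-2 * Real.pi * u * α) * Complex.I) • h u)
  rw [smul_eq_mul, smul_eq_mul, ← mul_assoc]
  congr 1
  unfold ee
  rw [← Complex.exp_add]
  congr 1
  push_cast
  ring

lemma four_int {h : ℝ → ℂ} (h1 : Integrable h) (α : ℝ) :
    Integrable fun x : ℝ => Complex.exp (↑(-2 * Real.pi * x * α) * Complex.I) • h x := by
  have h2 : Continuous fun x : ℝ => Complex.exp (↑(-2 * Real.pi * x * α) * Complex.I) := by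
    fun_prop
  exact h1.bdd_smul (𝕜 := ℂ)
    (φ := fun x : ℝ => Complex.exp (↑(-2 * Real.pi * x * α) * Complex.I)) 1
    h2.aestronglyMeasurable (Eventually.of_forall fun x => by rw [Complex.norm_exp_ofReal_mul_I])

lemma four_shift {h : ℝ → ℂ} (h1 : Integrable h) (I : Finset ℕ) (y : ℕ → ℝ) (α : ℝ) :
    𝓕 (fun x => ∑ n ∈ I, h (x - y n)) α = TS I y (-α) * 𝓕 h α := by
  have h2 : 𝓕 (fun x => ∑ n ∈ I, h (x - y n)) α = ∑ n ∈ I, 𝓕 (fun x => h (x - y n)) α := by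
    simp_rw [Real.fourier_real_eq_integral_exp_smul, Finset.smul_sum]
    rw [integral_finsetSum]
    intro n _
    exact four_int (h1.comp_sub_right (y n)) α
  rw [h2]
  unfold TS
  rw [Finset.sum_mul]
  exact Finset.sum_congr rfl fun n _ => four_shift1 (y n) α

lemma shift_int {h : ℝ → ℂ} (h1 : Integrable h) (I : Finset ℕ) (y : ℕ → ℝ) :
    Integrable fun x => ∑ n ∈ I, h (x - y n) :=
  integrable_finsetSum _ fun n _ => h1.comp_sub_right (y n)

lemma shift_mem {h : ℝ → ℂ} (h2 : MemLp h 2) (I : Finset ℕ) (y : ℕ → ℝ) :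
    MemLp (fun x => ∑ n ∈ I, h (x - y n)) 2 :=
  memLp_finsetSum _ fun n _ => h2.comp_measurePreserving (measurePreserving_sub_right volume (y n))

lemma planch {h : ℝ → ℂ} (h1 : Integrable h) (h2 : MemLp h 2) (I : Finset ℕ) (y : ℕ → ℝ) :
    ∫⁻ x, ‖∑ n ∈ I, h (x - y n)‖ₑ ^ 2 = ∫⁻ α, ENNReal.ofReal (‖𝓕 h α‖ ^ 2 * ‖TS I y α‖ ^ 2) := by
  have := Pool.Agent.Helper76.NormalHP.plancherel_lintegral _ (shift_int h1 I y) (shift_mem h2 I y)
  rw [← this]
  refine lintegral_congr fun α => ?_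
  rw [four_shift h1, enorm_mul, mul_pow, ← ofReal_norm, ← ofReal_norm, TS_neg,
    ← ENNReal.ofReal_pow (norm_nonneg _), ← ENNReal.ofReal_pow (norm_nonneg _),
    ← ENNReal.ofReal_mul (by positivity), mul_comm]

lemma four_cont {h : ℝ → ℂ} (h1 : Integrable h) : Continuous (𝓕 h) :=
  VectorFourier.fourierIntegral_continuous Real.continuous_fourierChar continuous_inner h1

lemma sq_int {f : ℝ → ℂ} (hf : MemLp f 2) :
    Integrable (fun x => ‖f x‖ ^ 2) ∧
      ENNReal.ofReal (∫ x, ‖f x‖ ^ 2) = ∫⁻ x, ‖f x‖ₑ ^ 2 := by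
  have h1 : Integrable (fun x => ‖f x‖ ^ 2) := (memLp_two_iff_integrable_sq_norm hf.1).1 hf
  refine ⟨h1, ?_⟩
  rw [ofReal_integral_eq_lintegral_ofReal h1 (Eventually.of_forall fun x => by positivity)]
  refine lintegral_congr fun x => ?_
  rw [ENNReal.ofReal_pow (norm_nonneg _), ofReal_norm]

/-- Plancherel's formula for a sum of shifts -/
theorem planch_eq {h : ℝ → ℂ} (h1 : Integrable h) (h2 : MemLp h 2) (I : Finset ℕ) (y : ℕ → ℝ) :
    Integrable (fun x => ‖∑ n ∈ I, h (x - y n)‖ ^ 2) ∧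
    Integrable (fun α => ‖𝓕 h α‖ ^ 2 * ‖TS I y α‖ ^ 2) ∧
    ∫ x, ‖∑ n ∈ I, h (x - y n)‖ ^ 2 = ∫ α, ‖𝓕 h α‖ ^ 2 * ‖TS I y α‖ ^ 2 := by
  obtain ⟨i1, e1⟩ := sq_int (shift_mem h2 I y)
  have hp := planch h1 h2 I y
  have hc : Continuous fun α => ‖𝓕 h α‖ ^ 2 * ‖TS I y α‖ ^ 2 :=
    ((four_cont h1).norm.pow 2).mul ((TS_cont I y).norm.pow 2)
  have i2 : Integrable (fun α => ‖𝓕 h α‖ ^ 2 * ‖TS I y α‖ ^ 2) := by
    refine ⟨hc.aestronglyMeasurable, ?_⟩
    rw [hasFiniteIntegral_iff_ofReal (Eventually.of_forall fun u => by positivity), ← hp, ← e1]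
    exact ENNReal.ofReal_lt_top
  refine ⟨i1, i2, ?_⟩
  rw [hp, ← ofReal_integral_eq_lintegral_ofReal i2 (Eventually.of_forall fun x => by positivity)]
    at e1
  have g1 : 0 ≤ ∫ x, ‖∑ n ∈ I, h (x - y n)‖ ^ 2 := integral_nonneg fun x => by positivity
  have g2 : 0 ≤ ∫ α, ‖𝓕 h α‖ ^ 2 * ‖TS I y α‖ ^ 2 := integral_nonneg fun x => by positivity
  rwa [ENNReal.ofReal_eq_ofReal_iff g1 g2] at e1

/-- the square of a trigonometric sum against a real weight -/
lemma TS_sq (I : Finset ℕ) (y : ℕ → ℝ) (α : ℝ) :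
    ‖TS I y α‖ ^ 2 = ∑ n ∈ I, ∑ m ∈ I, Real.cos (2 * Real.pi * α * (y n - y m)) := by
  unfold TS
  rw [sq_sum]
  refine Finset.sum_congr rfl fun n _ => Finset.sum_congr rfl fun m _ => ?_
  congr 1
  ring

end Pool.Agent.Q276.LR
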