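import Pool.Agent.Q276.LR.A3

/-! Comparison with the exponential kernel. -/

set_option autoImplicit false

open Filter Topology Set MeasureTheory FourierTransform

namespace Pool.Agent.Q276.LR

open H177.Lat (ee ee_norm ee_add ee_re ee_conj ee_cont sq_sum)

/-- one-sided exponential -/
noncomputable def hx (u : ℝ) : ℂ := (Ioi (0 : ℝ)).indicator (fun u => Complex.exp ((-(2 * Real.pi) : ℂ) * u)) u

lemma hx_int : Integrable hx := by
  unfold hx
  rw [show (fun u => (Ioi (0 : ℝ)).indicator (fun u : ℝ => Complex.exp ((-(2 * Real.pi) : ℂ) * u)) u) =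
    (Ioi (0 : ℝ)).indicator (fun u : ℝ => Complex.exp ((-(2 * Real.pi) : ℂ) * u)) from rfl,
    integrable_indicator_iff measurableSet_Ioi]
  apply integrableOn_exp_mul_complex_Ioi
  simp [Real.pi_pos]

lemma hx_norm (u : ℝ) : ‖hx u‖ = (Ioi (0 : ℝ)).indicator (fun u => Real.exp (-(2 * Real.pi) * u)) u := by
  unfold hx
  by_cases h : u ∈ Ioi (0 : ℝ)
  · rw [indicator_of_mem h, indicator_of_mem h, Complex.norm_exp]
    congr 1
    simp
  · rw [indicator_of_notMem h, indicator_of_notMem h, norm_zero]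

lemma hx_mem : MemLp hx 2 := by
  rw [memLp_two_iff_integrable_sq_norm hx_int.1]
  have h1 : (fun u => ‖hx u‖ ^ 2) = (Ioi (0 : ℝ)).indicator (fun u => Real.exp (-(4 * Real.pi) * u)) := by
    funext u
    rw [hx_norm]
    by_cases h : u ∈ Ioi (0 : ℝ)
    · rw [indicator_of_mem h, indicator_of_mem h, ← Real.exp_nat_mul]
      congr 1
      push_cast
      ring
    · rw [indicator_of_notMem h, indicator_of_notMem h]; simp
  rw [h1, integrable_indicator_iff measurableSet_Ioi]
  apply integrableOn_exp_mul_Ioi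
  have := Real.pi_pos
  linarith

lemma hx_four (α : ℝ) : ‖𝓕 hx α‖ ^ 2 = 1 / (4 * Real.pi ^ 2) * (1 / (1 + α ^ 2)) := by
  have h1 : 𝓕 hx α = -Complex.exp (((-(2 * Real.pi) : ℂ) * (1 + α * Complex.I)) * (0 : ℝ)) /
      ((-(2 * Real.pi) : ℂ) * (1 + α * Complex.I)) := by
    rw [Real.fourier_real_eq_integral_exp_smul, ← integral_exp_mul_complex_Ioi, ←
      integral_indicator measurableSet_Ioi]
    · refine integral_congr_ae (Eventually.of_forall fun u => ?_)
      show Complex.exp (↑(-2 * Real.pi * u * α) * Complex.I) • hx u = _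
      unfold hx
      by_cases h : u ∈ Ioi (0 : ℝ)
      · rw [indicator_of_mem h, indicator_of_mem h, smul_eq_mul, ← Complex.exp_add]
        congr 1
        push_cast
        ring
      · rw [indicator_of_notMem h, indicator_of_notMem h, smul_zero]
    · simp [Real.pi_pos]
  rw [h1]
  simp only [Complex.ofReal_zero, mul_zero, Complex.exp_zero, norm_div, norm_neg, norm_one,
    norm_mul, div_pow, one_pow, mul_pow]
  have h2 : ‖(2 * Real.pi : ℂ)‖ ^ 2 = 4 * Real.pi ^ 2 := by
    rw [norm_mul, Complex.norm_real, Real.norm_of_nonneg Real.pi_pos.le]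
    simp
    ring
  have h3 : ‖(1 + α * Complex.I : ℂ)‖ ^ 2 = 1 + α ^ 2 := by
    rw [← Complex.normSq_eq_norm_sq, Complex.normSq_apply]
    simp
    ring
  have h4 : ‖(2 : ℂ)‖ ^ 2 * ‖(Real.pi : ℂ)‖ ^ 2 = 4 * Real.pi ^ 2 := by
    rw [← mul_pow, ← norm_mul]; exact h2
  rw [h3]
  rw [h4]
  field_simp

/-- overlap of two exponentials -/
lemma hx_ov (a b : ℝ) :
    Integrable (fun x => ‖hx (x - a)‖ * ‖hx (x - b)‖) ∧
    ∫ x, ‖hx (x - a)‖ * ‖hx (x - b)‖ = 1 / (4 * Real.pi) * Real.exp (-(2 * Real.pi) * |a - b|) := by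
  have hpi := Real.pi_pos
  have h1 : (fun x => ‖hx (x - a)‖ * ‖hx (x - b)‖) = (Ioi (max a b)).indicator
      (fun x => Real.exp (2 * Real.pi * (a + b)) * Real.exp (-(4 * Real.pi) * x)) := by
    funext x
    rw [hx_norm, hx_norm]
    by_cases h : x ∈ Ioi (max a b)
    · have h' : max a b < x := h
      have ha : x - a ∈ Ioi (0 : ℝ) := by
        show 0 < x - a
        linarith [le_max_left a b]
      have hb : x - b ∈ Ioi (0 : ℝ) := by
        show 0 < x - b
        linarith [le_max_right a b]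
      rw [indicator_of_mem h, indicator_of_mem ha, indicator_of_mem hb, ← Real.exp_add,
        ← Real.exp_add]
      congr 1
      ring
    · rw [indicator_of_notMem h]
      have h' : x ≤ max a b := not_lt.1 h
      rcases le_max_iff.1 h' with h2 | h2
      · have : x - a ∉ Ioi (0 : ℝ) := by
          intro h3
          have : 0 < x - a := h3
          linarith
        rw [indicator_of_notMem this, zero_mul]
      · have : x - b ∉ Ioi (0 : ℝ) := by
          intro h3
          have : 0 < x - b := h3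
          linarith
        rw [indicator_of_notMem this, mul_zero]
  rw [h1]
  have h2 : IntegrableOn (fun x => Real.exp (2 * Real.pi * (a + b)) * Real.exp (-(4 * Real.pi) * x))
      (Ioi (max a b)) :=
    (integrableOn_exp_mul_Ioi (by linarith) _).const_mul _
  refine ⟨h2.integrable_indicator measurableSet_Ioi, ?_⟩
  rw [integral_indicator measurableSet_Ioi, integral_const_mul, integral_exp_mul_Ioi (by linarith)]
  have h3 : |a - b| = 2 * max a b - (a + b) := by
    rcases le_total a b with h | h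
    · rw [max_eq_right h, abs_of_nonpos (by linarith)]; ring
    · rw [max_eq_left h, abs_of_nonneg (by linarith)]; ring
  rw [h3]
  have h4 : Real.exp (-(2 * Real.pi) * (2 * max a b - (a + b))) =
      Real.exp (2 * Real.pi * (a + b)) * Real.exp (-(4 * Real.pi) * max a b) := by
    rw [← Real.exp_add]
    congr 1
    ring
  rw [h4]
  field_simp

/-- the mean square against the Cauchy weight -/
theorem cauchy_sum (I : Finset ℕ) (y : ℕ → ℝ) :
    Integrable (fun α => 1 / (1 + α ^ 2) * ‖TS I y α‖ ^ 2) ∧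
    ∫ α, 1 / (1 + α ^ 2) * ‖TS I y α‖ ^ 2 ≤
      Real.pi * ∑ n ∈ I, ∑ m ∈ I, Real.exp (-(2 * Real.pi) * |y n - y m|) := by
  have hpi := Real.pi_pos
  obtain ⟨i1, i2, e⟩ := planch_eq hx_int hx_mem I y
  simp_rw [hx_four] at i2 e
  have e1 : ∀ α : ℝ, 1 / (1 + α ^ 2) * ‖TS I y α‖ ^ 2 =
      4 * Real.pi ^ 2 * (1 / (4 * Real.pi ^ 2) * (1 / (1 + α ^ 2)) * ‖TS I y α‖ ^ 2) := by
    intro α
    field_simp
  have i3 : Integrable (fun α => 1 / (1 + α ^ 2) * ‖TS I y α‖ ^ 2) := by
    simp_rw [e1]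
    exact i2.const_mul _
  refine ⟨i3, ?_⟩
  simp_rw [e1]
  rw [integral_const_mul, ← e]
  have h1 : ∫ x, ‖∑ n ∈ I, hx (x - y n)‖ ^ 2 ≤
      ∫ x, ∑ n ∈ I, ∑ m ∈ I, ‖hx (x - y n)‖ * ‖hx (x - y m)‖ := by
    apply integral_mono i1
    · exact integrable_finsetSum _ fun n _ => integrable_finsetSum _ fun m _ => (hx_ov _ _).1
    · intro x
      show ‖∑ n ∈ I, hx (x - y n)‖ ^ 2 ≤ ∑ n ∈ I, ∑ m ∈ I, ‖hx (x - y n)‖ * ‖hx (x - y m)‖
      rw [← Finset.sum_mul_sum, ← sq]
      exact pow_le_pow_left₀ (norm_nonneg _) (norm_sum_le _ _) 2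
  have h2 : ∫ x, ∑ n ∈ I, ∑ m ∈ I, ‖hx (x - y n)‖ * ‖hx (x - y m)‖ =
      ∑ n ∈ I, ∑ m ∈ I, 1 / (4 * Real.pi) * Real.exp (-(2 * Real.pi) * |y n - y m|) := by
    rw [integral_finsetSum _ fun n _ => integrable_finsetSum _ fun m _ => (hx_ov _ _).1]
    refine Finset.sum_congr rfl fun n _ => ?_
    rw [integral_finsetSum _ fun m _ => (hx_ov _ _).1]
    exact Finset.sum_congr rfl fun m _ => (hx_ov _ _).2
  rw [h2] at h1
  calc 4 * Real.pi ^ 2 * ∫ x, ‖∑ n ∈ I, hx (x - y n)‖ ^ 2 ≤
      4 * Real.pi ^ 2 * ∑ n ∈ I, ∑ m ∈ I, 1 / (4 * Real.pi) *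
        Real.exp (-(2 * Real.pi) * |y n - y m|) := mul_le_mul_of_nonneg_left h1 (by positivity)
    _ = Real.pi * ∑ n ∈ I, ∑ m ∈ I, Real.exp (-(2 * Real.pi) * |y n - y m|) := by
        simp_rw [← Finset.mul_sum]
        field_simp

end Pool.Agent.Q276.LR
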