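import Pool.Agent.Q276.LR.A4

/-! The derivative of the dyadic average. -/

set_option autoImplicit false

open Filter Topology Set MeasureTheory FourierTransform

namespace Pool.Agent.Q276.LR

open H177.Lat (ee ee_norm ee_add ee_re ee_conj ee_cont sq_sum tri KK tri_nonneg tri_zero tri_in
  tri_even tri_lip tri_cont tri_integrable)

/-- derivative of the triangle -/
noncomputable def dtri (e u : ℝ) : ℝ := if |u| < e then (if u < 0 then 1 / e else -(1 / e)) else 0

lemma dtri_meas (e : ℝ) : Measurable (dtri e) := by
  unfold dtri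
  refine Measurable.ite (measurableSet_lt (by fun_prop) measurable_const) ?_ measurable_const
  exact Measurable.ite (measurableSet_lt measurable_id measurable_const) measurable_const
    measurable_const

lemma dtri_le {e : ℝ} (he : 0 < e) (u : ℝ) :
    |dtri e u| ≤ (Icc (-e) e).indicator (fun _ => 1 / e) u := by
  unfold dtri
  split_ifs with h1 h2
  · have hm : u ∈ Icc (-e) e := ⟨(abs_lt.1 h1).1.le, (abs_lt.1 h1).2.le⟩
    rw [indicator_of_mem hm, abs_of_pos (by positivity)]
  · have hm : u ∈ Icc (-e) e := ⟨(abs_lt.1 h1).1.le, (abs_lt.1 h1).2.le⟩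
    rw [indicator_of_mem hm, abs_neg, abs_of_pos (by positivity)]
  · rw [abs_zero]
    apply indicator_nonneg
    intro _ _; positivity

lemma dtri_out {e u : ℝ} (h : e ≤ |u|) : dtri e u = 0 := by
  unfold dtri
  rw [if_neg (not_lt.2 h)]

lemma dtri_deriv {e : ℝ} (he : 0 < e) {u : ℝ} (h0 : u ≠ 0) (h1 : u ≠ e) (h2 : u ≠ -e) :
    HasDerivAt (tri e) (dtri e u) u := by
  have habs : |u| ≠ e := by
    intro h
    rcases abs_eq he.le |>.1 h with h3 | h3
    · exact h1 h3
    · exact h2 h3
  rcases lt_or_gt_of_ne habs with h | h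
  · rcases lt_or_gt_of_ne h0 with hu | hu
    · have h3 : dtri e u = 1 / e := by unfold dtri; rw [if_pos h, if_pos hu]
      rw [h3]
      have h4 : HasDerivAt (fun v : ℝ => 1 + v / e) (1 / e) u := by
        have := ((hasDerivAt_id u).div_const e).const_add 1
        simpa using this
      refine h4.congr_of_eventuallyEq ?_
      have ho : Ioo (-e) 0 ∈ 𝓝 u := Ioo_mem_nhds (by linarith [(abs_lt.1 h).1]) hu
      filter_upwards [ho] with v hv
      rw [tri_in he (abs_le.2 ⟨hv.1.le, by linarith [hv.2]⟩), abs_of_neg hv.2]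
      ring
    · have h3 : dtri e u = -(1 / e) := by unfold dtri; rw [if_pos h, if_neg (by linarith)]
      rw [h3]
      have h4 : HasDerivAt (fun v : ℝ => 1 - v / e) (-(1 / e)) u := by
        have := ((hasDerivAt_id u).div_const e).const_sub 1
        simpa using this
      refine h4.congr_of_eventuallyEq ?_
      have ho : Ioo 0 e ∈ 𝓝 u := Ioo_mem_nhds hu (abs_lt.1 h).2
      filter_upwards [ho] with v hv
      rw [tri_in he (abs_le.2 ⟨by linarith [hv.1], hv.2.le⟩), abs_of_pos hv.1]
  · rw [dtri_out h.le]
    have h4 : HasDerivAt (fun _ : ℝ => (0 : ℝ)) 0 u := hasDerivAt_const u 0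
    refine h4.congr_of_eventuallyEq ?_
    have ho : {v : ℝ | e < |v|} ∈ 𝓝 u := (isOpen_lt continuous_const continuous_abs).mem_nhds h
    filter_upwards [ho] with v hv
    exact tri_zero he (le_of_lt hv)

lemma dtri_ii (e y a b : ℝ) (he : 0 < e) : IntervalIntegrable (fun v => dtri e (v - y)) volume a b := by
  have hm : Measurable fun v => dtri e (v - y) := (dtri_meas e).comp (measurable_id.sub_const y)
  rw [intervalIntegrable_iff]
  refine Measure.integrableOn_of_bounded (M := 1 / e) (by simp) hm.aestronglyMeasurable ?_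
  refine Eventually.of_forall fun v => ?_
  rw [Real.norm_eq_abs]
  refine (dtri_le he _).trans ?_
  by_cases h : v - y ∈ Icc (-e) e
  · rw [indicator_of_mem h]
  · rw [indicator_of_notMem h]; positivity

lemma dtri_ftc {e : ℝ} (he : 0 < e) (y a b : ℝ) :
    ∫ v in a..b, dtri e (v - y) = tri e (b - y) - tri e (a - y) := by
  apply integral_eq_of_hasDerivAt_off_countable (fun v => tri e (v - y)) (fun v => dtri e (v - y))
    (s := {y, y + e, y - e}) (by simp)
  · exact ((tri_cont e).comp (by fun_prop)).continuousOn
  · intro x hx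
    have h1 : x ∉ ({y, y + e, y - e} : Set ℝ) := hx.2
    simp only [mem_insert_iff, mem_singleton_iff, not_or] at h1
    have h2 : HasDerivAt (tri e) (dtri e (x - y)) (x - y) := dtri_deriv he
      (by intro h; exact h1.1 (by linarith)) (by intro h; exact h1.2.1 (by linarith))
      (by intro h; exact h1.2.2 (by linarith))
    exact h2.comp_sub_const x y
  · exact dtri_ii e y a b he

lemma dtri_int {e : ℝ} (he : 0 < e) : Integrable (dtri e) := by
  have h1 : Integrable ((Icc (-e) e).indicator (fun _ => 1 / e)) := by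
    rw [integrable_indicator_iff measurableSet_Icc]
    exact integrableOn_const (by simp)
  refine h1.mono' (dtri_meas e).aestronglyMeasurable (Eventually.of_forall fun u => ?_)
  rw [Real.norm_eq_abs]
  exact dtri_le he u

/-- the transform of the derivative -/
lemma four_dtri {e : ℝ} (he : 0 < e) (x : ℝ) :
    𝓕 (fun u : ℝ => ((dtri e u : ℝ) : ℂ)) x = 2 * Real.pi * Complex.I * x * ((KK e x : ℝ) : ℂ) := by
  rw [← four_tri he, Real.fourier_real_eq_integral_exp_smul, Real.fourier_real_eq_integral_exp_smul]
  set E : ℝ → ℂ := fun u => Complex.exp (↑(-2 * Real.pi * u * x) * Complex.I) with hE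
  have hEd : ∀ u : ℝ, HasDerivAt E (-(2 * Real.pi * Complex.I * x) * E u) u := by
    intro u
    have h1 : HasDerivAt (fun u : ℝ => (↑(-2 * Real.pi * u * x) : ℂ) * Complex.I)
        (-(2 * Real.pi * Complex.I * x)) u := by
      have h2 : HasDerivAt (fun u : ℝ => -2 * Real.pi * u * x) (-2 * Real.pi * x) u := by
        have := ((hasDerivAt_id u).const_mul (-2 * Real.pi)).mul_const x
        simpa using this
      have := h2.ofReal_comp.mul_const Complex.I
      refine this.congr_deriv ?_
      push_cast
      ring
    have h3 := h1.cexp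
    refine h3.congr_deriv ?_
    ring
  have hEc : Continuous E := continuous_iff_continuousAt.2 fun u => (hEd u).continuousAt
  have hfull1 : ∫ u : ℝ, E u • ((dtri e u : ℝ) : ℂ) =
      ∫ u in (-e)..e, E u * ((dtri e u : ℝ) : ℂ) := by
    symm
    apply intervalIntegral.integral_eq_integral_of_support_subset
    intro u hu
    by_contra h
    apply hu
    have : e ≤ |u| := by
      by_contra h2
      push Not at h2
      obtain ⟨h3, h4⟩ := abs_lt.1 h2
      exact h ⟨h3, h4.le⟩
    show E u * ((dtri e u : ℝ) : ℂ) = 0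
    rw [dtri_out this]; simp
  have hfull2 : ∫ u : ℝ, E u • ((tri e u : ℝ) : ℂ) =
      ∫ u in (-e)..e, E u * ((tri e u : ℝ) : ℂ) := by
    symm
    apply intervalIntegral.integral_eq_integral_of_support_subset
    intro u hu
    by_contra h
    apply hu
    have : e ≤ |u| := by
      by_contra h2
      push Not at h2
      obtain ⟨h3, h4⟩ := abs_lt.1 h2
      exact h ⟨h3, h4.le⟩
    show E u * ((tri e u : ℝ) : ℂ) = 0
    rw [tri_zero he this]; simp
  rw [hfull1, hfull2]
  have i1 : IntervalIntegrable (fun u => E u * ((dtri e u : ℝ) : ℂ)) volume (-e) e := by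
    have := dtri_ii e 0 (-e) e he
    simp only [sub_zero] at this
    have h2 : IntervalIntegrable (fun u => ((dtri e u : ℝ) : ℂ)) volume (-e) e :=
      ⟨this.1.ofReal, this.2.ofReal⟩
    exact h2.continuousOn_mul hEc.continuousOn
  have i2 : IntervalIntegrable (fun u => E u * ((tri e u : ℝ) : ℂ)) volume (-e) e := by
    have := tri_cont e
    exact (hEc.mul (Complex.continuous_ofReal.comp this)).intervalIntegrable _ _
  have hft := integral_eq_of_hasDerivAt_off_countable (fun u => E u * ((tri e u : ℝ) : ℂ))
    (fun u => E u * ((dtri e u : ℝ) : ℂ) + (-(2 * Real.pi * Complex.I * x)) * (E u * ((tri e u : ℝ) : ℂ)))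
    (a := -e) (b := e) (s := {0, e, -e}) (by simp)
    ((hEc.mul (Complex.continuous_ofReal.comp (tri_cont e))).continuousOn)
    (by
      intro u hu
      have h1 : u ∉ ({0, e, -e} : Set ℝ) := hu.2
      simp only [mem_insert_iff, mem_singleton_iff, not_or] at h1
      have h2 := dtri_deriv he h1.1 h1.2.1 h1.2.2
      have h3 := (hEd u).mul h2.ofReal_comp
      refine h3.congr_deriv ?_
      ring)
    (i1.add (i2.const_mul _))
  rw [intervalIntegral.integral_add i1 (i2.const_mul _), intervalIntegral.integral_const_mul] at hft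
  have h0 : tri e e = 0 := tri_zero he (by rw [abs_of_pos he])
  have h0' : tri e (-e) = 0 := tri_zero he (by rw [abs_neg, abs_of_pos he])
  rw [h0, h0'] at hft
  simp only [Complex.ofReal_zero, mul_zero, sub_zero] at hft
  linear_combination hft

end Pool.Agent.Q276.LR
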