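import Pool.Agent.Q276.LR.A5

/-! Mean squares of the smoothed counts and of their derivative. -/

set_option autoImplicit false

open Filter Topology Set MeasureTheory FourierTransform

namespace Pool.Agent.Q276.LR

open H370.A2 (RR)
open H177.Lat (ee ee_norm ee_add ee_re ee_conj ee_cont sq_sum tri KK tri_nonneg tri_zero tri_in
  tri_even tri_lip tri_cont tri_integrable KK_zero KK_nonneg)

/-- derivative of the dyadic average -/
noncomputable def dPh (J : ℕ) (u : ℝ) : ℝ := (J : ℝ)⁻¹ * ∑ j ∈ Finset.range J, dtri (2 ^ (j + 1)) u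

/-- the smoothed count -/
noncomputable def FF (J : ℕ) (I : Finset ℕ) (y : ℕ → ℝ) (x : ℝ) : ℝ := ∑ n ∈ I, Ph J (x - y n)

/-- its derivative -/
noncomputable def GG (J : ℕ) (I : Finset ℕ) (y : ℕ → ℝ) (x : ℝ) : ℝ := ∑ n ∈ I, dPh J (x - y n)

lemma FF_cont (J : ℕ) (I : Finset ℕ) (y : ℕ → ℝ) : Continuous (FF J I y) := by
  unfold FF
  exact continuous_finsetSum _ fun n _ => (Ph_cont J).comp (by fun_prop)

lemma FF_nonneg (J : ℕ) (I : Finset ℕ) (y : ℕ → ℝ) (x : ℝ) : 0 ≤ FF J I y x :=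
  Finset.sum_nonneg fun _ _ => Ph_nonneg _ _

lemma ii_sum {ι : Type*} (s : Finset ι) {f : ι → ℝ → ℝ} {a b : ℝ}
    (h : ∀ i ∈ s, IntervalIntegrable (f i) volume a b) :
    IntervalIntegrable (fun x => ∑ i ∈ s, f i x) volume a b := by
  have h1 := IntervalIntegrable.sum s h
  have h2 : (∑ i ∈ s, f i) = fun x => ∑ i ∈ s, f i x := by
    funext x
    rw [Finset.sum_apply]
  rwa [h2] at h1

lemma dPh_ii (J : ℕ) (y a b : ℝ) : IntervalIntegrable (fun v => dPh J (v - y)) volume a b := by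
  unfold dPh
  apply IntervalIntegrable.const_mul
  apply ii_sum
  intro j _
  exact dtri_ii _ _ _ _ (tp j)

lemma dPh_ftc (J : ℕ) (y a b : ℝ) : ∫ v in a..b, dPh J (v - y) = Ph J (b - y) - Ph J (a - y) := by
  unfold dPh Ph
  rw [intervalIntegral.integral_const_mul, intervalIntegral.integral_finsetSum fun j _ =>
    dtri_ii _ _ _ _ (tp j), ← mul_sub, ← Finset.sum_sub_distrib]
  congr 1
  exact Finset.sum_congr rfl fun j _ => dtri_ftc (tp j) _ _ _

lemma GG_ii (J : ℕ) (I : Finset ℕ) (y : ℕ → ℝ) (a b : ℝ) :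
    IntervalIntegrable (GG J I y) volume a b := by
  unfold GG
  apply ii_sum
  intro n _
  exact dPh_ii _ _ _ _

lemma GG_ftc (J : ℕ) (I : Finset ℕ) (y : ℕ → ℝ) (a b : ℝ) :
    ∫ v in a..b, GG J I y v = FF J I y b - FF J I y a := by
  unfold GG FF
  rw [intervalIntegral.integral_finsetSum fun n _ => dPh_ii _ _ _ _, ← Finset.sum_sub_distrib]
  exact Finset.sum_congr rfl fun n _ => dPh_ftc _ _ _ _

/-! ### transforms -/

lemma tri_int {e : ℝ} (he : 0 < e) : Integrable (tri e) := by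
  have := tri_integrable he (g := fun _ => 1) (by fun_prop)
  simpa using this

lemma Ph_int (J : ℕ) : Integrable (Ph J) := by
  unfold Ph
  exact (integrable_finsetSum _ fun j _ => tri_int (tp j)).const_mul _

lemma dPh_int (J : ℕ) : Integrable (dPh J) := by
  unfold dPh
  exact (integrable_finsetSum _ fun j _ => dtri_int (tp j)).const_mul _

lemma Ph_integral (J : ℕ) : ∫ u, Ph J u = mJ J := by
  unfold Ph mJ
  rw [integral_const_mul, integral_finsetSum _ fun j _ => tri_int (tp j)]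
  congr 1
  refine Finset.sum_congr rfl fun j _ => ?_
  have h1 := KK_zero (tp j)
  unfold KK at h1
  simpa using h1

lemma dPh_bdd {J : ℕ} (u : ℝ) : |dPh J u| ≤ J := by
  unfold dPh
  rw [abs_mul, abs_of_nonneg (Ji J)]
  have h1 : |∑ j ∈ Finset.range J, dtri (2 ^ (j + 1)) u| ≤ J := by
    refine (Finset.abs_sum_le_sum_abs _ _).trans ?_
    calc ∑ j ∈ Finset.range J, |dtri (2 ^ (j + 1)) u| ≤ ∑ j ∈ Finset.range J, (1 : ℝ) := by
          refine Finset.sum_le_sum fun j _ => ?_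
          refine (dtri_le (tp j) u).trans ?_
          by_cases h : u ∈ Icc (-(2 : ℝ) ^ (j + 1)) (2 ^ (j + 1))
          · rw [indicator_of_mem h, div_le_one (tp j)]
            exact one_le_pow₀ (by norm_num)
          · rw [indicator_of_notMem h]; norm_num
      _ = J := by simp
  rcases Nat.eq_zero_or_pos J with h | h
  · subst h; simp
  · have h2 : (J : ℝ)⁻¹ ≤ 1 := by
      apply inv_le_one_of_one_le₀
      exact_mod_cast h
    calc (J : ℝ)⁻¹ * |∑ j ∈ Finset.range J, dtri (2 ^ (j + 1)) u| ≤ 1 * J :=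
          mul_le_mul h2 h1 (abs_nonneg _) zero_le_one
      _ = J := one_mul _

lemma mem_of_bdd {f : ℝ → ℂ} (hf : Integrable f) {C : ℝ} (hC : ∀ x, ‖f x‖ ≤ C) : MemLp f 2 := by
  rw [memLp_two_iff_integrable_sq_norm hf.1]
  have h1 : Integrable fun x => C * ‖f x‖ := hf.norm.const_mul C
  refine h1.mono' (hf.1.norm.pow 2) (Eventually.of_forall fun x => ?_)
  rw [Real.norm_of_nonneg (by positivity), sq]
  exact mul_le_mul_of_nonneg_right (hC x) (norm_nonneg _)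

lemma Ph_four (J : ℕ) (x : ℝ) : 𝓕 (fun u : ℝ => ((Ph J u : ℝ) : ℂ)) x = ((PH J x : ℝ) : ℂ) := by
  have h1 : 𝓕 (fun u : ℝ => ((Ph J u : ℝ) : ℂ)) x =
      (J : ℂ)⁻¹ * ∑ j ∈ Finset.range J, 𝓕 (fun u : ℝ => ((tri (2 ^ (j + 1)) u : ℝ) : ℂ)) x := by
    simp_rw [Real.fourier_real_eq_integral_exp_smul]
    have h2 : ∀ v : ℝ, Complex.exp (↑(-2 * Real.pi * v * x) * Complex.I) • ((Ph J v : ℝ) : ℂ) =
        (J : ℂ)⁻¹ * ∑ j ∈ Finset.range J, Complex.exp (↑(-2 * Real.pi * v * x) * Complex.I) •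
          ((tri (2 ^ (j + 1)) v : ℝ) : ℂ) := by
      intro v
      unfold Ph
      push_cast
      simp only [smul_eq_mul]
      rw [← Finset.mul_sum]
      ring
    simp_rw [h2]
    rw [integral_const_mul, integral_finsetSum]
    intro j _
    exact four_int (tri_int (tp j)).ofReal x
  rw [h1]
  unfold PH
  push_cast
  congr 1
  refine Finset.sum_congr rfl fun j _ => ?_
  exact four_tri (tp j) x

lemma dPh_four (J : ℕ) (x : ℝ) : 𝓕 (fun u : ℝ => ((dPh J u : ℝ) : ℂ)) x =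
    2 * Real.pi * Complex.I * x * ((PH J x : ℝ) : ℂ) := by
  have h1 : 𝓕 (fun u : ℝ => ((dPh J u : ℝ) : ℂ)) x =
      (J : ℂ)⁻¹ * ∑ j ∈ Finset.range J, 𝓕 (fun u : ℝ => ((dtri (2 ^ (j + 1)) u : ℝ) : ℂ)) x := by
    simp_rw [Real.fourier_real_eq_integral_exp_smul]
    have h2 : ∀ v : ℝ, Complex.exp (↑(-2 * Real.pi * v * x) * Complex.I) • ((dPh J v : ℝ) : ℂ) =
        (J : ℂ)⁻¹ * ∑ j ∈ Finset.range J, Complex.exp (↑(-2 * Real.pi * v * x) * Complex.I) •
          ((dtri (2 ^ (j + 1)) v : ℝ) : ℂ) := by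
      intro v
      unfold dPh
      push_cast
      simp only [smul_eq_mul]
      rw [← Finset.mul_sum]
      ring
    simp_rw [h2]
    rw [integral_const_mul, integral_finsetSum]
    intro j _
    exact four_int (dtri_int (tp j)).ofReal x
  rw [h1]
  unfold PH
  rw [Finset.sum_congr rfl fun j _ => four_dtri (tp j) x, ← Finset.mul_sum]
  push_cast
  ring

/-! ### mean squares -/

/-- the integral of the test function against the trigonometric sum -/
lemma Psi_TS (J : ℕ) (I : Finset ℕ) (y : ℕ → ℝ) :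
    Integrable (fun α => Psi J α * ‖TS I y α‖ ^ 2) ∧
    ∫ α, Psi J α * ‖TS I y α‖ ^ 2 =
      ∑ n ∈ I, ∑ m ∈ I, RR (Psi J) (1 / 2) (y n - y m) := by
  have hΨ : Continuous (Psi J) := by
    have := (PH_contDiff J).continuous
    unfold Psi
    fun_prop
  have hc : Continuous fun α => Psi J α * ‖TS I y α‖ ^ 2 := hΨ.mul ((TS_cont I y).norm.pow 2)
  have hz : ∀ α, α ∉ Icc (-(1 / 2) : ℝ) (1 / 2) → Psi J α * ‖TS I y α‖ ^ 2 = 0 := by
    intro α h
    rw [Psi_out, zero_mul]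
    by_contra h2
    push Not at h2
    obtain ⟨h3, h4⟩ := abs_lt.1 h2
    exact h ⟨h3.le, h4.le⟩
  refine ⟨hc.integrable_of_hasCompactSupport (HasCompactSupport.intro isCompact_Icc hz), ?_⟩
  have h1 : ∫ α, Psi J α * ‖TS I y α‖ ^ 2 =
      ∫ α in (-(1 / 2) : ℝ)..(1 / 2), Psi J α * ‖TS I y α‖ ^ 2 := by
    symm
    apply intervalIntegral.integral_eq_integral_of_support_subset
    intro α hα
    by_contra h
    apply hα
    show Psi J α * ‖TS I y α‖ ^ 2 = 0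
    rw [Psi_out, zero_mul]
    by_contra h2
    push Not at h2
    obtain ⟨h3, h4⟩ := abs_lt.1 h2
    exact h ⟨h3, h4.le⟩
  rw [h1]
  simp_rw [TS_sq, Finset.mul_sum]
  have hcc : ∀ n m : ℕ, Continuous fun α : ℝ =>
      Psi J α * Real.cos (2 * Real.pi * α * (y n - y m)) := fun n m => by fun_prop
  rw [intervalIntegral.integral_finsetSum]
  swap
  · intro n _
    exact (continuous_finsetSum _ fun m _ => hcc n m).intervalIntegrable _ _
  refine Finset.sum_congr rfl fun n _ => ?_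
  rw [intervalIntegral.integral_finsetSum]
  swap
  · intro m _
    exact (hcc n m).intervalIntegrable _ _
  rfl

theorem FF_sq (J : ℕ) (I : Finset ℕ) (y : ℕ → ℝ) :
    Integrable (fun x => FF J I y x ^ 2) ∧
    ∫ x, FF J I y x ^ 2 ≤ ∑ n ∈ I, ∑ m ∈ I, RR (Psi J) (1 / 2) (y n - y m) +
      160 / J ^ 2 * (Real.pi * ∑ n ∈ I, ∑ m ∈ I, Real.exp (-(2 * Real.pi) * |y n - y m|)) := by
  have h1 : Integrable fun u : ℝ => ((Ph J u : ℝ) : ℂ) := (Ph_int J).ofReal
  have h2 : MemLp (fun u : ℝ => ((Ph J u : ℝ) : ℂ)) 2 := by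
    apply mem_of_bdd h1 (C := 1)
    intro x
    rw [Complex.norm_real, Real.norm_of_nonneg (Ph_nonneg _ _)]
    rcases Nat.eq_zero_or_pos J with h | h
    · subst h; simp [Ph]
    · exact Ph_le_one h x
  obtain ⟨i1, i2, e⟩ := planch_eq h1 h2 I y
  have e1 : ∀ x, ‖∑ n ∈ I, ((Ph J (x - y n) : ℝ) : ℂ)‖ ^ 2 = FF J I y x ^ 2 := by
    intro x
    rw [← Complex.ofReal_sum, Complex.norm_real, Real.norm_eq_abs, sq_abs]
    rfl
  simp_rw [e1] at i1 e
  simp_rw [Ph_four, Complex.norm_real, Real.norm_eq_abs, sq_abs] at i2 e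
  refine ⟨i1, ?_⟩
  obtain ⟨j1, e2⟩ := Psi_TS J I y
  obtain ⟨j2, e3⟩ := cauchy_sum I y
  rw [e, ← e2]
  calc ∫ α, PH J α ^ 2 * ‖TS I y α‖ ^ 2 ≤
      ∫ α, (Psi J α * ‖TS I y α‖ ^ 2 + 160 / J ^ 2 * (1 / (1 + α ^ 2) * ‖TS I y α‖ ^ 2)) := by
        apply integral_mono i2 (j1.add (j2.const_mul _))
        intro α
        have := mul_le_mul_of_nonneg_right (ineq1 (J := J) α) (sq_nonneg ‖TS I y α‖)
        refine this.trans (le_of_eq ?_)
        show _ = Psi J α * ‖TS I y α‖ ^ 2 + 160 / J ^ 2 * (1 / (1 + α ^ 2) * ‖TS I y α‖ ^ 2)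
        ring
    _ = (∫ α, Psi J α * ‖TS I y α‖ ^ 2) + 160 / J ^ 2 * (∫ α, 1 / (1 + α ^ 2) * ‖TS I y α‖ ^ 2) := by
        rw [integral_add j1 (j2.const_mul _), integral_const_mul]
    _ ≤ _ := by
        have h4 : (0 : ℝ) ≤ 160 / J ^ 2 := by positivity
        have h5 := mul_le_mul_of_nonneg_left e3 h4
        linarith

theorem GG_sq (J : ℕ) (I : Finset ℕ) (y : ℕ → ℝ) :
    Integrable (fun x => GG J I y x ^ 2) ∧
    ∫ x, GG J I y x ^ 2 ≤
      1000 / J ^ 2 * (Real.pi * ∑ n ∈ I, ∑ m ∈ I, Real.exp (-(2 * Real.pi) * |y n - y m|)) := by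
  have h1 : Integrable fun u : ℝ => ((dPh J u : ℝ) : ℂ) := (dPh_int J).ofReal
  have h2 : MemLp (fun u : ℝ => ((dPh J u : ℝ) : ℂ)) 2 := by
    apply mem_of_bdd h1 (C := J)
    intro x
    rw [Complex.norm_real, Real.norm_eq_abs]
    exact dPh_bdd x
  obtain ⟨i1, i2, e⟩ := planch_eq h1 h2 I y
  have e1 : ∀ x, ‖∑ n ∈ I, ((dPh J (x - y n) : ℝ) : ℂ)‖ ^ 2 = GG J I y x ^ 2 := by
    intro x
    rw [← Complex.ofReal_sum, Complex.norm_real, Real.norm_eq_abs, sq_abs]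
    rfl
  simp_rw [e1] at i1 e
  have e4 : ∀ x : ℝ, ‖𝓕 (fun u : ℝ => ((dPh J u : ℝ) : ℂ)) x‖ ^ 2 =
      (2 * Real.pi * x) ^ 2 * PH J x ^ 2 := by
    intro x
    rw [dPh_four]
    simp only [norm_mul, Complex.norm_real, Complex.norm_I, mul_one, mul_pow, Real.norm_eq_abs,
      sq_abs]
    norm_num
  simp_rw [e4] at i2 e
  refine ⟨i1, ?_⟩
  obtain ⟨j2, e3⟩ := cauchy_sum I y
  rw [e]
  have h3 : (∫ α : ℝ, (2 * Real.pi * α) ^ 2 * PH J α ^ 2 * ‖TS I y α‖ ^ 2) ≤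
      ∫ α : ℝ, 1000 / (J : ℝ) ^ 2 * (1 / (1 + α ^ 2) * ‖TS I y α‖ ^ 2) := by
    apply integral_mono i2 (j2.const_mul _)
    intro α
    have := mul_le_mul_of_nonneg_right (ineq2 (J := J) α) (sq_nonneg ‖TS I y α‖)
    refine this.trans (le_of_eq ?_)
    show _ = 1000 / (J : ℝ) ^ 2 * (1 / (1 + α ^ 2) * ‖TS I y α‖ ^ 2)
    ring
  rw [integral_const_mul] at h3
  have h4 : (0 : ℝ) ≤ 1000 / J ^ 2 := by positivity
  have h5 := mul_le_mul_of_nonneg_left e3 h4
  linarith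

end Pool.Agent.Q276.LR
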