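import Pool.Agent.Q276.LR.A6
import Pool.Agent.H177R3.LatC

/-! The sampled smoothed counts. -/

set_option autoImplicit false

open Filter Topology Set MeasureTheory FourierTransform

namespace Pool.Agent.Q276.LR

open H370.A2 (RR)
open H177.Lat (kI far_pairs)

/-- exponential sums over pairs against local counts -/
lemma exp_pairs (I : Finset ℕ) (y : ℕ → ℝ) :
    ∑ n ∈ I, ∑ m ∈ I, Real.exp (-(2 * Real.pi) * |y n - y m|) ≤
      ∑ n ∈ I, (kI I y 2 n : ℝ) + 8 * ∑ n ∈ I, (kI I y 1 n : ℝ) := by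
  have hpi := Real.pi_gt_three
  have h1 := far_pairs I y 2 le_rfl
  have h2 : ∑ n ∈ I, ∑ m ∈ I, Real.exp (-(2 * Real.pi) * |y n - y m|) ≤
      ∑ n ∈ I, (kI I y 2 n : ℝ) +
        ∑ n ∈ I, ∑ m ∈ I.filter (fun n' => ((2 : ℕ) : ℝ) < |y n - y n'|), 1 / (y n - y m) ^ 2 := by
    rw [← Finset.sum_add_distrib]
    refine Finset.sum_le_sum fun n _ => ?_
    rw [← Finset.sum_filter_add_sum_filter_not I (fun n' => |y n - y n'| ≤ 2)]
    have e1 : I.filter (fun n' => ¬ |y n - y n'| ≤ 2) =
        I.filter (fun n' => ((2 : ℕ) : ℝ) < |y n - y n'|) := by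
      apply Finset.filter_congr
      intro m _
      push_cast
      exact not_le
    rw [e1]
    apply add_le_add
    · unfold kI
      rw [Finset.card_eq_sum_ones]
      push_cast
      refine Finset.sum_le_sum fun m _ => ?_
      rw [Real.exp_le_one_iff]
      have := abs_nonneg (y n - y m)
      nlinarith
    · refine Finset.sum_le_sum fun m hm => ?_
      rw [Finset.mem_filter] at hm
      have h3 : (2 : ℝ) < |y n - y m| := by
        have := hm.2
        push_cast at this
        exact this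
      set d := |y n - y m| with hd
      have e2 : (y n - y m) ^ 2 = d ^ 2 := by rw [hd, sq_abs]
      rw [e2, show -(2 * Real.pi) * d = -(2 * Real.pi * d) by ring, Real.exp_neg, ← one_div]
      apply one_div_le_one_div_of_le (by positivity)
      have h4 : d ^ 2 ≤ Real.exp d ^ 2 := by
        apply pow_le_pow_left₀ (by linarith)
        linarith [Real.add_one_le_exp d]
      refine h4.trans ?_
      rw [← Real.exp_nat_mul]
      apply Real.exp_le_exp.2
      push_cast
      nlinarith
  refine h2.trans ?_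
  push_cast at h1
  have h3 : (16 : ℝ) / 2 = 8 := by norm_num
  rw [h3] at h1
  push_cast
  linarith

/-- overlap of two windows -/
lemma win_ov (a b : ℝ) :
    ∫ x, (Icc (a - 1) (a + 1)).indicator (fun _ => (1 : ℝ)) x *
      (Icc (b - 1) (b + 1)).indicator (fun _ => (1 : ℝ)) x ≤
    2 * (if |a - b| ≤ 2 then 1 else 0) := by
  have h1 : (fun x => (Icc (a - 1) (a + 1)).indicator (fun _ => (1 : ℝ)) x *
      (Icc (b - 1) (b + 1)).indicator (fun _ => (1 : ℝ)) x) =
      (Icc (a - 1) (a + 1) ∩ Icc (b - 1) (b + 1)).indicator (fun _ => (1 : ℝ)) := by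
    funext x
    by_cases ha : x ∈ Icc (a - 1) (a + 1) <;> by_cases hb : x ∈ Icc (b - 1) (b + 1)
    · have hm : x ∈ Icc (a - 1) (a + 1) ∩ Icc (b - 1) (b + 1) := ⟨ha, hb⟩
      rw [indicator_of_mem ha, indicator_of_mem hb, indicator_of_mem hm, mul_one]
    · have hm : x ∉ Icc (a - 1) (a + 1) ∩ Icc (b - 1) (b + 1) := fun h => hb h.2
      rw [indicator_of_mem ha, indicator_of_notMem hb, indicator_of_notMem hm, mul_zero]
    · have hm : x ∉ Icc (a - 1) (a + 1) ∩ Icc (b - 1) (b + 1) := fun h => ha h.1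
      rw [indicator_of_notMem ha, indicator_of_notMem hm, zero_mul]
    · have hm : x ∉ Icc (a - 1) (a + 1) ∩ Icc (b - 1) (b + 1) := fun h => ha h.1
      rw [indicator_of_notMem ha, indicator_of_notMem hm, zero_mul]
  rw [h1, integral_indicator (measurableSet_Icc.inter measurableSet_Icc), setIntegral_const,
    smul_eq_mul, mul_one]
  split_ifs with h
  · rw [mul_one]
    have h2 : volume (Icc (a - 1) (a + 1) ∩ Icc (b - 1) (b + 1)) ≤ ENNReal.ofReal 2 := by
      refine (measure_mono inter_subset_left).trans ?_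
      rw [Real.volume_Icc]
      apply ENNReal.ofReal_le_ofReal
      linarith
    exact ENNReal.toReal_le_of_le_ofReal (by norm_num) h2
  · rw [mul_zero]
    have h2 : Icc (a - 1) (a + 1) ∩ Icc (b - 1) (b + 1) = ∅ := by
      ext x
      simp only [mem_inter_iff, mem_Icc, mem_empty_iff_false, iff_false, not_and, and_imp]
      intro h3 h4 h5 h6
      apply h
      rw [abs_le]
      constructor <;> linarith
    rw [h2]
    simp

/-- the number of windows covering a point -/
noncomputable def NW (I : Finset ℕ) (y : ℕ → ℝ) (x : ℝ) : ℝ :=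
  ∑ n ∈ I, (Icc (y n - 1) (y n + 1)).indicator (fun _ => (1 : ℝ)) x

lemma win_int (a : ℝ) : Integrable ((Icc (a - 1) (a + 1)).indicator (fun _ => (1 : ℝ))) := by
  rw [integrable_indicator_iff measurableSet_Icc]
  exact integrableOn_const (by simp)

lemma win_int2 (a b : ℝ) : Integrable (fun x => (Icc (a - 1) (a + 1)).indicator (fun _ => (1 : ℝ)) x *
      (Icc (b - 1) (b + 1)).indicator (fun _ => (1 : ℝ)) x) := by
  refine (win_int a).mono' ((win_int a).1.mul (win_int b).1) (Eventually.of_forall fun x => ?_)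
  rw [Real.norm_eq_abs]
  by_cases ha : x ∈ Icc (a - 1) (a + 1) <;> by_cases hb : x ∈ Icc (b - 1) (b + 1)
  · rw [indicator_of_mem ha, indicator_of_mem hb]; norm_num
  · rw [indicator_of_mem ha, indicator_of_notMem hb]; norm_num
  · rw [indicator_of_notMem ha]; norm_num
  · rw [indicator_of_notMem ha]; norm_num

lemma NW_sq (I I' : Finset ℕ) (hI : I' ⊆ I) (y : ℕ → ℝ) :
    Integrable (fun x => NW I' y x ^ 2) ∧
    ∫ x, NW I' y x ^ 2 ≤ 2 * ∑ n ∈ I, (kI I y 2 n : ℝ) := by
  have e1 : ∀ x, NW I' y x ^ 2 = ∑ n ∈ I', ∑ m ∈ I',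
      (Icc (y n - 1) (y n + 1)).indicator (fun _ => (1 : ℝ)) x *
      (Icc (y m - 1) (y m + 1)).indicator (fun _ => (1 : ℝ)) x := by
    intro x
    unfold NW
    rw [sq, Finset.sum_mul_sum]
  simp_rw [e1]
  have i1 : ∀ n ∈ I', Integrable fun x => ∑ m ∈ I',
      (Icc (y n - 1) (y n + 1)).indicator (fun _ => (1 : ℝ)) x *
      (Icc (y m - 1) (y m + 1)).indicator (fun _ => (1 : ℝ)) x :=
    fun n _ => integrable_finsetSum _ fun m _ => win_int2 _ _
  refine ⟨integrable_finsetSum _ i1, ?_⟩
  rw [integral_finsetSum _ i1, Finset.mul_sum]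
  have h1 : ∀ n, 0 ≤ 2 * (kI I y 2 n : ℝ) := fun n => by positivity
  refine (Finset.sum_le_sum fun n _ => ?_).trans
    (Finset.sum_le_sum_of_subset_of_nonneg hI fun n _ _ => h1 n)
  rw [integral_finsetSum _ fun m _ => win_int2 _ _]
  refine (Finset.sum_le_sum fun m _ => win_ov (y n) (y m)).trans ?_
  rw [← Finset.mul_sum]
  apply mul_le_mul_of_nonneg_left _ (by norm_num)
  unfold kI
  rw [Finset.card_filter]
  push_cast
  exact Finset.sum_le_sum_of_subset_of_nonneg hI fun m _ _ => by split_ifs <;> norm_num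

end Pool.Agent.Q276.LR
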