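import Pool.Agent.Q276.LR.B1

/-! Sampling the smoothed counts at the points. -/

set_option autoImplicit false

open Filter Topology Set MeasureTheory FourierTransform

namespace Pool.Agent.Q276.LR

open H370.A2 (RR)
open H177.Lat (kI)

/-- Cauchy–Schwarz for sums over windows -/
lemma nw_amgm (I' : Finset ℕ) (y : ℕ → ℝ) (hNW : Integrable (fun x => NW I' y x ^ 2))
    {f : ℝ → ℝ} (hfm : AEStronglyMeasurable f) (hf2 : Integrable (fun x => f x ^ 2))
    {s : ℝ} (hs : 0 < s) :
    ∑ n ∈ I', ∫ x in (y n - 1)..(y n + 1), |f x| ≤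
      s / 2 * (∫ x, f x ^ 2) + 1 / (2 * s) * ∫ x, NW I' y x ^ 2 := by
  have e1 : ∀ n, ∫ x in (y n - 1)..(y n + 1), |f x| =
      ∫ x, (Icc (y n - 1) (y n + 1)).indicator (fun _ => (1 : ℝ)) x * |f x| := by
    intro n
    rw [intervalIntegral.integral_of_le (by linarith), ← integral_Icc_eq_integral_Ioc,
      ← integral_indicator measurableSet_Icc]
    refine integral_congr_ae (Eventually.of_forall fun x => ?_)
    show (Icc (y n - 1) (y n + 1)).indicator (fun x => |f x|) x =
      (Icc (y n - 1) (y n + 1)).indicator (fun _ => (1 : ℝ)) x * |f x|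
    by_cases h : x ∈ Icc (y n - 1) (y n + 1)
    · rw [indicator_of_mem h, indicator_of_mem h, one_mul]
    · rw [indicator_of_notMem h, indicator_of_notMem h, zero_mul]
  have i1 : ∀ n, Integrable fun x =>
      (Icc (y n - 1) (y n + 1)).indicator (fun _ => (1 : ℝ)) x * |f x| := by
    intro n
    refine ((win_int (y n)).add hf2).mono' ((win_int (y n)).1.mul hfm.norm)
      (Eventually.of_forall fun x => ?_)
    rw [Real.norm_eq_abs]
    show abs ((Icc (y n - 1) (y n + 1)).indicator (fun _ => (1 : ℝ)) x * |f x|) ≤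
      (Icc (y n - 1) (y n + 1)).indicator (fun _ => (1 : ℝ)) x + f x ^ 2
    have h0 : 0 ≤ |f x| := abs_nonneg _
    by_cases h : x ∈ Icc (y n - 1) (y n + 1)
    · rw [indicator_of_mem h, one_mul, abs_abs, ← sq_abs (f x)]
      nlinarith [sq_nonneg (|f x| - 1)]
    · rw [indicator_of_notMem h, zero_mul, abs_zero]
      positivity
  simp_rw [e1]
  rw [← integral_finsetSum _ fun n _ => i1 n, ← integral_const_mul, ← integral_const_mul,
    ← integral_add (hf2.const_mul _) (hNW.const_mul _)]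
  apply integral_mono (integrable_finsetSum _ fun n _ => i1 n)
    ((hf2.const_mul _).add (hNW.const_mul _))
  intro x
  show ∑ n ∈ I', (Icc (y n - 1) (y n + 1)).indicator (fun _ => (1 : ℝ)) x * |f x| ≤
    s / 2 * f x ^ 2 + 1 / (2 * s) * NW I' y x ^ 2
  rw [← Finset.sum_mul]
  show NW I' y x * |f x| ≤ _
  rw [← sq_abs (f x)]
  have h2 : s / 2 * |f x| ^ 2 + 1 / (2 * s) * NW I' y x ^ 2 - NW I' y x * |f x| =
      1 / (2 * s) * (s * |f x| - NW I' y x) ^ 2 := by
    field_simp
    ring
  have h3 : 0 ≤ 1 / (2 * s) * (s * |f x| - NW I' y x) ^ 2 := by positivity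
  linarith

/-- the smoothed count has the right mean -/
lemma FF_mean (J : ℕ) (I : Finset ℕ) (y : ℕ → ℝ) (Y0 M : ℝ) (hM : 0 ≤ M) :
    mJ J * ((I.filter (fun n => Y0 + 2 ^ J ≤ y n ∧ y n ≤ Y0 + M - 2 ^ J)).card : ℝ) ≤
      ∫ x in Y0..(Y0 + M), FF J I y x := by
  unfold FF
  have hc : ∀ n, Continuous fun x => Ph J (x - y n) := fun n => (Ph_cont J).comp (by fun_prop)
  rw [intervalIntegral.integral_finsetSum fun n _ => (hc n).intervalIntegrable _ _]
  have h1 : ∀ n, 0 ≤ ∫ x in Y0..(Y0 + M), Ph J (x - y n) := fun n =>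
    intervalIntegral.integral_nonneg (by linarith) fun x _ => Ph_nonneg _ _
  refine le_trans ?_ (Finset.sum_le_sum_of_subset_of_nonneg (Finset.filter_subset
    (fun n => Y0 + 2 ^ J ≤ y n ∧ y n ≤ Y0 + M - 2 ^ J) I) fun n _ _ => h1 n)
  have h2 : ∀ n ∈ I.filter (fun n => Y0 + 2 ^ J ≤ y n ∧ y n ≤ Y0 + M - 2 ^ J),
      ∫ x in Y0..(Y0 + M), Ph J (x - y n) = mJ J := by
    intro n hn
    rw [Finset.mem_filter] at hn
    obtain ⟨_, h3, h4⟩ := hn
    rw [← Ph_integral J, ← integral_sub_right_eq_self (Ph J) (y n)]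
    apply intervalIntegral.integral_eq_integral_of_support_subset
    intro x hx
    by_contra h
    apply hx
    apply Ph_far
    rw [mem_Ioc, not_and_or, not_lt, not_le] at h
    rcases h with h | h
    · rw [abs_of_nonpos (by linarith [pow_pos (two_pos : (0 : ℝ) < 2) J])]
      linarith
    · rw [abs_of_nonneg (by linarith [pow_pos (two_pos : (0 : ℝ) < 2) J])]
      linarith
  rw [Finset.sum_congr rfl h2, Finset.sum_const, nsmul_eq_mul, mul_comm]

lemma GG_meas (J : ℕ) (I : Finset ℕ) (y : ℕ → ℝ) : AEStronglyMeasurable (GG J I y) := by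
  have : Integrable (GG J I y) := by
    unfold GG
    exact integrable_finsetSum _ fun n _ => (dPh_int J).comp_sub_right (y n)
  exact this.1

/-- the values at the points against local means -/
lemma sample (J : ℕ) (I : Finset ℕ) (y : ℕ → ℝ) (m a : ℝ) :
    2 * |FF J I y a - m| ≤ (∫ x in (a - 1)..(a + 1), |FF J I y x - m|) +
      2 * ∫ x in (a - 1)..(a + 1), |GG J I y x| := by
  set D := ∫ x in (a - 1)..(a + 1), |GG J I y x| with hD
  have hFc := FF_cont J I y
  have h1 : ∀ x ∈ Icc (a - 1) (a + 1), |FF J I y a - m| ≤ |FF J I y x - m| + D := by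
    intro x hx
    have h2 : |FF J I y a - FF J I y x| ≤ D := by
      rw [← GG_ftc J I y x a]
      rcases le_total x a with h | h
      · refine (intervalIntegral.abs_integral_le_integral_abs h).trans ?_
        rw [hD]
        apply intervalIntegral.integral_mono_interval hx.1 h (by linarith)
          (Eventually.of_forall fun x => abs_nonneg _) (GG_ii J I y _ _).abs
      · rw [intervalIntegral.integral_symm, abs_neg]
        refine (intervalIntegral.abs_integral_le_integral_abs h).trans ?_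
        rw [hD]
        apply intervalIntegral.integral_mono_interval (by linarith) h hx.2
          (Eventually.of_forall fun x => abs_nonneg _) (GG_ii J I y _ _).abs
    calc |FF J I y a - m| = |(FF J I y a - FF J I y x) + (FF J I y x - m)| := by congr 1; ring
      _ ≤ |FF J I y a - FF J I y x| + |FF J I y x - m| := abs_add_le _ _
      _ ≤ _ := by linarith
  have h3 : ∫ x in (a - 1)..(a + 1), |FF J I y a - m| ≤
      ∫ x in (a - 1)..(a + 1), (|FF J I y x - m| + D) := by
    apply intervalIntegral.integral_mono_on (by linarith) (by simp)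
      ((hFc.sub continuous_const).abs.add continuous_const |>.intervalIntegrable _ _)
    exact h1
  have i4 : IntervalIntegrable (fun x => |FF J I y x - m|) volume (a - 1) (a + 1) :=
    (by fun_prop : Continuous fun x => |FF J I y x - m|).intervalIntegrable _ _
  rw [intervalIntegral.integral_const, intervalIntegral.integral_add i4 (by simp),
    intervalIntegral.integral_const, smul_eq_mul, smul_eq_mul] at h3
  have e : a + 1 - (a - 1) = 2 := by ring
  rw [e] at h3
  exact h3

theorem local_main (J : ℕ) (hJ : 1 ≤ J) (I I' : Finset ℕ) (hI' : I' ⊆ I) (y : ℕ → ℝ)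
    (Y0 M ε C2 : ℝ) (hM : 0 < M) (hε : 0 ≤ ε) (hC2 : 0 ≤ C2)
    (hin : ∀ n ∈ I', Y0 + 1 ≤ y n ∧ y n ≤ Y0 + M - 1)
    (h1 : ∑ n ∈ I, ∑ m ∈ I, RR (Psi J) (1 / 2) (y n - y m) ≤ M * (mJ J ^ 2 + 28 / J + ε))
    (h2 : ∑ n ∈ I, (kI I y 2 n : ℝ) ≤ C2 * M) (h3 : ∑ n ∈ I, (kI I y 1 n : ℝ) ≤ C2 * M)
    (hN : (1 - ε) * M ≤
      ((I.filter (fun n => Y0 + 2 ^ J ≤ y n ∧ y n ≤ Y0 + M - 2 ^ J)).card : ℝ)) :
    ∑ n ∈ I', |FF J I y (y n) - mJ J| ≤
      M * ((7 + 20000 * C2) / Real.sqrt J + Real.sqrt J * (ε * (1 + mJ J ^ 2))) := by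
  have hpi := Real.pi_pos
  have hpi2 := Real.pi_lt_d2
  have hJ0 : (1 : ℝ) ≤ J := by exact_mod_cast hJ
  have hJpos : (0 : ℝ) < J := by linarith
  set m := mJ J with hm
  have hm0 : 0 ≤ m := mJ_nonneg J
  set E := ∑ n ∈ I, ∑ m ∈ I, Real.exp (-(2 * Real.pi) * |y n - y m|) with hE
  have hE1 : E ≤ 9 * C2 * M := by
    have := exp_pairs I y
    rw [← hE] at this
    linarith
  obtain ⟨iF, hF⟩ := FF_sq J I y
  obtain ⟨iG, hG⟩ := GG_sq J I y
  obtain ⟨iN, hNW⟩ := NW_sq I I' hI' y
  rw [← hE] at hF hG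
  set F := FF J I y with hFdef
  have hFc : Continuous F := FF_cont J I y
  have hmean := FF_mean J I y Y0 M hM.le
  -- the mean square of `F - m`
  have hZ : ∫ x in Y0..(Y0 + M), (F x - m) ^ 2 ≤
      M * (28 / J + ε + 2 * ε * m ^ 2) + 160 / J ^ 2 * (Real.pi * E) := by
    have e1 : ∫ x in Y0..(Y0 + M), (F x - m) ^ 2 =
        (∫ x in Y0..(Y0 + M), F x ^ 2) - 2 * m * (∫ x in Y0..(Y0 + M), F x) + m ^ 2 * M := by
      have e2 : ∀ x, (F x - m) ^ 2 = F x ^ 2 - 2 * m * F x + m ^ 2 := fun x => by ring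
      simp_rw [e2]
      have j1 : IntervalIntegrable (fun x => F x ^ 2) volume Y0 (Y0 + M) :=
        (by fun_prop : Continuous fun x => F x ^ 2).intervalIntegrable _ _
      have j2 : IntervalIntegrable (fun x => 2 * m * F x) volume Y0 (Y0 + M) :=
        (by fun_prop : Continuous fun x => 2 * m * F x).intervalIntegrable _ _
      rw [intervalIntegral.integral_add (j1.sub j2) (by simp),
        intervalIntegral.integral_sub j1 j2, intervalIntegral.integral_const_mul,
        intervalIntegral.integral_const, smul_eq_mul]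
      ring
    have e3 : ∫ x in Y0..(Y0 + M), F x ^ 2 ≤ ∫ x, F x ^ 2 := by
      rw [intervalIntegral.integral_of_le (by linarith)]
      exact setIntegral_le_integral iF (Eventually.of_forall fun x => by positivity)
    have e4 : m * ((1 - ε) * M) ≤ ∫ x in Y0..(Y0 + M), F x :=
      (mul_le_mul_of_nonneg_left hN hm0).trans hmean
    have e5 : 2 * m * (m * ((1 - ε) * M)) ≤ 2 * m * (∫ x in Y0..(Y0 + M), F x) :=
      mul_le_mul_of_nonneg_left e4 (by positivity)
    rw [e1]
    nlinarith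
  -- the sums over the windows
  set s := Real.sqrt J with hs
  have hs0 : 0 < s := Real.sqrt_pos.2 hJpos
  have hs1 : 1 ≤ s := by rw [hs]; exact Real.one_le_sqrt.2 hJ0
  have hs2 : s * s = J := Real.mul_self_sqrt hJpos.le
  have hA : ∑ n ∈ I', ∫ x in (y n - 1)..(y n + 1), |F x - m| ≤
      s / 2 * (∫ x in Y0..(Y0 + M), (F x - m) ^ 2) + 1 / (2 * s) * ∫ x, NW I' y x ^ 2 := by
    set f : ℝ → ℝ := (Icc Y0 (Y0 + M)).indicator (fun x => F x - m) with hf
    have hf2 : (fun x => f x ^ 2) = (Icc Y0 (Y0 + M)).indicator (fun x => (F x - m) ^ 2) := by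
      funext x
      rw [hf]
      by_cases h : x ∈ Icc Y0 (Y0 + M)
      · rw [indicator_of_mem h, indicator_of_mem h]
      · rw [indicator_of_notMem h, indicator_of_notMem h]; norm_num
    have hfi : Integrable (fun x => f x ^ 2) := by
      rw [hf2, integrable_indicator_iff measurableSet_Icc]
      exact ((hFc.sub continuous_const).pow 2).continuousOn.integrableOn_Icc
    have hfm : AEStronglyMeasurable f :=
      ((hFc.sub continuous_const).measurable.indicator measurableSet_Icc).aestronglyMeasurable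
    have h4 := nw_amgm I' y iN hfm hfi hs0
    have h5 : ∫ x, f x ^ 2 = ∫ x in Y0..(Y0 + M), (F x - m) ^ 2 := by
      rw [hf2, integral_indicator measurableSet_Icc, integral_Icc_eq_integral_Ioc,
        intervalIntegral.integral_of_le (by linarith)]
    rw [h5] at h4
    refine le_trans (le_of_eq ?_) h4
    refine Finset.sum_congr rfl fun n hn => ?_
    apply intervalIntegral.integral_congr
    intro x hx
    rw [uIcc_of_le (by linarith)] at hx
    obtain ⟨g1, g2⟩ := hin n hn
    have h6 : x ∈ Icc Y0 (Y0 + M) := ⟨by linarith [hx.1], by linarith [hx.2]⟩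
    show |F x - m| = |f x|
    rw [hf, indicator_of_mem h6]
  have hB := nw_amgm I' y iN (GG_meas J I y) iG hs0
  have hsum : 2 * ∑ n ∈ I', |F (y n) - m| ≤
      (∑ n ∈ I', ∫ x in (y n - 1)..(y n + 1), |F x - m|) +
        2 * ∑ n ∈ I', ∫ x in (y n - 1)..(y n + 1), |GG J I y x| := by
    rw [Finset.mul_sum, Finset.mul_sum, ← Finset.sum_add_distrib]
    exact Finset.sum_le_sum fun n _ => sample J I y m (y n)
  have hNW' : ∫ x, NW I' y x ^ 2 ≤ 2 * (C2 * M) := by linarith
  have hc0 : 0 ≤ C2 * M := by positivity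
  -- numerical bounds
  have q1 : 160 / (J : ℝ) ^ 2 * (Real.pi * E) ≤ 4600 * (C2 * M) / J := by
    have : Real.pi * E ≤ 3.15 * (9 * (C2 * M)) := by
      have hE0 : 0 ≤ E := by rw [hE]; positivity
      have : E ≤ 9 * (C2 * M) := by linarith
      nlinarith
    calc 160 / (J : ℝ) ^ 2 * (Real.pi * E) ≤ 160 / (J : ℝ) ^ 2 * (3.15 * (9 * (C2 * M))) :=
          mul_le_mul_of_nonneg_left this (by positivity)
      _ = 4536 * (C2 * M) / J * (1 / J) := by field_simp; ring
      _ ≤ 4536 * (C2 * M) / J * 1 := by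
          apply mul_le_mul_of_nonneg_left _ (by positivity)
          rw [div_le_one hJpos]; exact hJ0
      _ ≤ 4600 * (C2 * M) / J := by rw [mul_one]; gcongr; norm_num
  have q2 : 1000 / (J : ℝ) ^ 2 * (Real.pi * E) ≤ 28400 * (C2 * M) / J := by
    have : Real.pi * E ≤ 3.15 * (9 * (C2 * M)) := by
      have hE0 : 0 ≤ E := by rw [hE]; positivity
      have : E ≤ 9 * (C2 * M) := by linarith
      nlinarith
    calc 1000 / (J : ℝ) ^ 2 * (Real.pi * E) ≤ 1000 / (J : ℝ) ^ 2 * (3.15 * (9 * (C2 * M))) :=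
          mul_le_mul_of_nonneg_left this (by positivity)
      _ = 28350 * (C2 * M) / J * (1 / J) := by field_simp; ring
      _ ≤ 28350 * (C2 * M) / J * 1 := by
          apply mul_le_mul_of_nonneg_left _ (by positivity)
          rw [div_le_one hJpos]; exact hJ0
      _ ≤ 28400 * (C2 * M) / J := by rw [mul_one]; gcongr; norm_num
  have q3 : s / J = 1 / s := by
    rw [← hs2]
    field_simp
  have r1 : s / 2 * (∫ x in Y0..(Y0 + M), (F x - m) ^ 2) ≤
      M * (14 / s + s * (ε * (1 + m ^ 2))) + 2300 * (C2 * M) / s := by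
    calc s / 2 * (∫ x in Y0..(Y0 + M), (F x - m) ^ 2) ≤
        s / 2 * (M * (28 / J + ε + 2 * ε * m ^ 2) + 4600 * (C2 * M) / J) :=
          mul_le_mul_of_nonneg_left (hZ.trans (by linarith)) (by positivity)
      _ = M * (14 * (s / J) + s / 2 * (ε + 2 * ε * m ^ 2)) + 2300 * (C2 * M) * (s / J) := by ring
      _ ≤ M * (14 * (s / J) + s * (ε * (1 + m ^ 2))) + 2300 * (C2 * M) * (s / J) := by
          have : s / 2 * (ε + 2 * ε * m ^ 2) ≤ s * (ε * (1 + m ^ 2)) := by
            have : 0 ≤ s * ε := by positivity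
            nlinarith
          have h8 := mul_le_mul_of_nonneg_left this hM.le
          linarith
      _ = _ := by rw [q3]; ring
  have r2 : 1 / (2 * s) * (∫ x, NW I' y x ^ 2) ≤ (C2 * M) / s := by
    calc 1 / (2 * s) * (∫ x, NW I' y x ^ 2) ≤ 1 / (2 * s) * (2 * (C2 * M)) :=
          mul_le_mul_of_nonneg_left hNW' (by positivity)
      _ = _ := by field_simp
  have r3 : s / 2 * (∫ x, GG J I y x ^ 2) ≤ 14200 * (C2 * M) / s := by
    calc s / 2 * (∫ x, GG J I y x ^ 2) ≤ s / 2 * (28400 * (C2 * M) / J) :=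
          mul_le_mul_of_nonneg_left (hG.trans q2) (by positivity)
      _ = 14200 * (C2 * M) * (s / J) := by ring
      _ = _ := by rw [q3]; ring
  have r4 : 2 * ∑ n ∈ I', |F (y n) - m| ≤
      M * (14 / s + s * (ε * (1 + m ^ 2))) + 2300 * (C2 * M) / s + (C2 * M) / s +
        2 * (14200 * (C2 * M) / s + (C2 * M) / s) := by linarith
  have r5 : M * (14 / s + s * (ε * (1 + m ^ 2))) + 2300 * (C2 * M) / s + (C2 * M) / s +
        2 * (14200 * (C2 * M) / s + (C2 * M) / s) ≤
      2 * (M * ((7 + 20000 * C2) / s + s * (ε * (1 + m ^ 2)))) := by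
    have t1 : 0 ≤ C2 * M / s := by positivity
    have t2 : 0 ≤ M * (s * (ε * (1 + m ^ 2))) := by positivity
    have t3 : 2 * (M * ((7 + 20000 * C2) / s + s * (ε * (1 + m ^ 2)))) =
        M * (14 / s) + 40000 * (C2 * M / s) + 2 * (M * (s * (ε * (1 + m ^ 2)))) := by
      field_simp
      ring
    rw [t3]
    have t4 : M * (14 / s + s * (ε * (1 + m ^ 2))) + 2300 * (C2 * M) / s + (C2 * M) / s +
        2 * (14200 * (C2 * M) / s + (C2 * M) / s) = M * (14 / s) + 30703 * (C2 * M / s) +
        M * (s * (ε * (1 + m ^ 2))) := by ring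
    rw [t4]
    nlinarith
  linarith

end Pool.Agent.Q276.LR
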