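import Pool.Agent.Q276.LR.B2

/-! Weighted sums of gaps and smoothed counts. -/

set_option autoImplicit false

open Filter Topology Set MeasureTheory

namespace Pool.Agent.Q276.LR

open H177.Lat (tri tri_nonneg tri_zero tri_in)

/-- the weighted sum of the deviations of the gaps near the `n`-th gap -/
noncomputable def XX (J : ℕ) (y : ℕ → ℝ) (n : ℕ) : ℝ :=
  ∑ m ∈ Finset.Ioo (n - 2 ^ J) (n + 2 ^ J), Ph J ((m : ℝ) - n) * (y (m + 1) - y m - 1)

/-- triangular weights as a sum over blocks -/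
lemma tent_sum (g : ℕ → ℝ) (n : ℕ) : ∀ r : ℕ, r ≤ n →
    ∑ m ∈ Finset.Ioo (n - r) (n + r), ((r : ℝ) - |(m : ℝ) - n|) * g m =
      ∑ s ∈ Finset.range r, ∑ m ∈ Finset.Icc (n - s) (n + s), g m := by
  intro r
  induction r with
  | zero => intro _; simp
  | succ r ih =>
    intro hr
    rw [Finset.sum_range_succ, ← ih (by omega)]
    have e1 : Finset.Ioo (n - (r + 1)) (n + (r + 1)) = Finset.Icc (n - r) (n + r) := by
      ext m; simp only [Finset.mem_Ioo, Finset.mem_Icc]; omega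
    rw [e1]
    have e2 : ∑ m ∈ Finset.Icc (n - r) (n + r), (((r + 1 : ℕ) : ℝ) - |(m : ℝ) - n|) * g m =
        ∑ m ∈ Finset.Icc (n - r) (n + r), ((r : ℝ) - |(m : ℝ) - n|) * g m +
          ∑ m ∈ Finset.Icc (n - r) (n + r), g m := by
      rw [← Finset.sum_add_distrib]
      refine Finset.sum_congr rfl fun m _ => ?_
      push_cast
      ring
    rw [e2]
    congr 1
    symm
    apply Finset.sum_subset
    · intro m
      simp only [Finset.mem_Ioo, Finset.mem_Icc]
      omega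
    · intro m hm hm'
      simp only [Finset.mem_Ioo, Finset.mem_Icc, not_and, not_lt] at hm hm'
      have h1 : m = n - r ∨ m = n + r := by omega
      have h2 : |(m : ℝ) - n| = r := by
        rcases h1 with h1 | h1
        · rw [h1, Nat.cast_sub (by omega)]
          rw [abs_of_nonpos] <;> [ring; (have : (0 : ℝ) ≤ r := Nat.cast_nonneg r; linarith)]
        · rw [h1]
          push_cast
          rw [add_sub_cancel_left, abs_of_nonneg (Nat.cast_nonneg r)]
      rw [h2, sub_self, zero_mul]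

lemma tele (y : ℕ → ℝ) (n s : ℕ) (hs : s ≤ n) :
    ∑ m ∈ Finset.Icc (n - s) (n + s), (y (m + 1) - y m - 1) =
      y (n + s + 1) - y (n - s) - (2 * s + 1) := by
  have e1 : Finset.Icc (n - s) (n + s) = Finset.Ico (n - s) (n + s + 1) := by
    ext m; simp only [Finset.mem_Ico, Finset.mem_Icc]; omega
  rw [e1, Finset.sum_sub_distrib, Finset.sum_Ico_sub _ (by omega), Finset.sum_const, Nat.card_Ico,
    nsmul_eq_mul, mul_one, Nat.cast_sub (by omega), Nat.cast_sub hs]
  push_cast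
  ring

/-- pairing the indices around `n` -/
lemma pairing (h : ℕ → ℝ) (n : ℕ) : ∀ r : ℕ, r ≤ n →
    ∑ s ∈ Finset.range r, (h (n + s + 1) + h (n - s)) = ∑ m ∈ Finset.Ioc (n - r) (n + r), h m := by
  intro r
  induction r with
  | zero => intro _; simp
  | succ r ih =>
    intro hr
    rw [Finset.sum_range_succ, ih (by omega)]
    have e1 : Finset.Ioc (n - (r + 1)) (n + (r + 1)) =
        insert (n - r) (insert (n + r + 1) (Finset.Ioc (n - r) (n + r))) := by
      ext m; simp only [Finset.mem_Ioc, Finset.mem_insert]; omega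
    rw [e1, Finset.sum_insert, Finset.sum_insert]
    · ring
    · simp only [Finset.mem_Ioc]; omega
    · simp only [Finset.mem_Ioc, Finset.mem_insert]; omega

lemma odd_sum (r : ℕ) : ∑ s ∈ Finset.range r, (2 * (s : ℝ) + 1) = (r : ℝ) ^ 2 := by
  induction r with
  | zero => simp
  | succ r ih => rw [Finset.sum_range_succ, ih]; push_cast; ring

/-- one scale -/
noncomputable def X1 (r : ℕ) (y : ℕ → ℝ) (n : ℕ) : ℝ :=
  (r : ℝ)⁻¹ * ∑ s ∈ Finset.range r, (y (n + s + 1) - y (n - s) - (2 * s + 1))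

lemma XX_eq (J : ℕ) (y : ℕ → ℝ) (n : ℕ) (hn : 2 ^ J ≤ n) :
    XX J y n = (J : ℝ)⁻¹ * ∑ j ∈ Finset.range J, X1 (2 ^ (j + 1)) y n := by
  unfold XX Ph
  have e1 : ∀ m : ℕ, (J : ℝ)⁻¹ * (∑ j ∈ Finset.range J, tri (2 ^ (j + 1)) ((m : ℝ) - n)) *
      (y (m + 1) - y m - 1) = (J : ℝ)⁻¹ * ∑ j ∈ Finset.range J, tri (2 ^ (j + 1)) ((m : ℝ) - n) *
      (y (m + 1) - y m - 1) := by
    intro m
    rw [mul_assoc, Finset.sum_mul]
  simp_rw [e1]
  rw [← Finset.mul_sum, Finset.sum_comm]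
  congr 1
  refine Finset.sum_congr rfl fun j hj => ?_
  rw [Finset.mem_range] at hj
  have hr : 2 ^ (j + 1) ≤ 2 ^ J := Nat.pow_le_pow_right (by norm_num) (by omega)
  set r : ℕ := 2 ^ (j + 1) with hrdef
  have hr0 : (0 : ℝ) < r := by rw [hrdef]; positivity
  have hcast : (2 : ℝ) ^ (j + 1) = (r : ℝ) := by rw [hrdef]; push_cast; rfl
  rw [hcast]
  have e2 : ∑ m ∈ Finset.Ioo (n - 2 ^ J) (n + 2 ^ J), tri (r : ℝ) ((m : ℝ) - n) *
      (y (m + 1) - y m - 1) = ∑ m ∈ Finset.Ioo (n - r) (n + r), tri (r : ℝ) ((m : ℝ) - n) *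
      (y (m + 1) - y m - 1) := by
    symm
    apply Finset.sum_subset
    · intro m
      simp only [Finset.mem_Ioo]
      omega
    · intro m hm hm'
      simp only [Finset.mem_Ioo, not_and, not_lt] at hm hm'
      rw [tri_zero hr0, zero_mul]
      rcases le_or_gt m (n - r) with h | h
      · have h1 : (m : ℝ) + r ≤ n := by exact_mod_cast (by omega : m + r ≤ n)
        rw [abs_of_nonpos (by linarith)]
        linarith
      · have h1 : (n : ℝ) + r ≤ m := by exact_mod_cast hm' h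
        rw [abs_of_nonneg (by linarith)]
        linarith
  rw [e2]
  have e3 : ∀ m ∈ Finset.Ioo (n - r) (n + r), tri (r : ℝ) ((m : ℝ) - n) * (y (m + 1) - y m - 1) =
      (r : ℝ)⁻¹ * (((r : ℝ) - |(m : ℝ) - n|) * (y (m + 1) - y m - 1)) := by
    intro m hm
    rw [Finset.mem_Ioo] at hm
    rw [tri_in hr0]
    · field_simp
    · rw [abs_le]
      have h1 : (n : ℝ) ≤ m + r := by exact_mod_cast (by omega : n ≤ m + r)
      have h2 : (m : ℝ) ≤ n + r := by exact_mod_cast hm.2.le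
      constructor <;> linarith
  rw [Finset.sum_congr rfl e3, ← Finset.mul_sum, tent_sum _ n r (by omega)]
  unfold X1
  congr 1
  refine Finset.sum_congr rfl fun s hs => ?_
  rw [Finset.mem_range] at hs
  exact tele y n s (by omega)

/-- convexity: the smoothed count controls the weighted sum from below -/
lemma X1_ge (r : ℕ) (hr : 1 ≤ r) (a b n : ℕ) (y : ℕ → ℝ)
    (hy : ∀ n ∈ Finset.Ioc a b, ∀ m ∈ Finset.Ioc a b, n ≤ m → y n ≤ y m)
    (h1 : a + r ≤ n) (h2 : n + r ≤ b) :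
    -(∑ m ∈ Finset.Ioc a b, tri (r : ℝ) (y n - y m) - r) ≤ X1 r y n := by
  have hr0 : (0 : ℝ) < r := by exact_mod_cast hr
  have hmem : ∀ m, a < m → m ≤ b → m ∈ Finset.Ioc a b := fun m h3 h4 => Finset.mem_Ioc.2 ⟨h3, h4⟩
  have g1 : ∑ s ∈ Finset.range r, (tri (r : ℝ) (y n - y (n + s + 1)) + tri (r : ℝ) (y n - y (n - s))) ≤
      ∑ m ∈ Finset.Ioc a b, tri (r : ℝ) (y n - y m) := by
    rw [pairing (fun m => tri (r : ℝ) (y n - y m)) n r (by omega)]
    apply Finset.sum_le_sum_of_subset_of_nonneg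
    · intro m
      simp only [Finset.mem_Ioc]
      omega
    · intro m _ _
      exact tri_nonneg _ _
  have g2 : ∑ s ∈ Finset.range r, (2 - (y (n + s + 1) - y (n - s)) / r) ≤
      ∑ s ∈ Finset.range r, (tri (r : ℝ) (y n - y (n + s + 1)) + tri (r : ℝ) (y n - y (n - s))) := by
    refine Finset.sum_le_sum fun s hs => ?_
    rw [Finset.mem_range] at hs
    have m1 := hy n (hmem n (by omega) (by omega)) (n + s + 1) (hmem _ (by omega) (by omega))
      (by omega)
    have m2 := hy (n - s) (hmem _ (by omega) (by omega)) n (hmem n (by omega) (by omega))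
      (by omega)
    have t1 : 1 - (y (n + s + 1) - y n) / r ≤ tri (r : ℝ) (y n - y (n + s + 1)) := by
      unfold tri
      rw [abs_of_nonpos (by linarith), neg_sub]
      exact le_max_right _ _
    have t2 : 1 - (y n - y (n - s)) / r ≤ tri (r : ℝ) (y n - y (n - s)) := by
      unfold tri
      rw [abs_of_nonneg (by linarith)]
      exact le_max_right _ _
    have t3 : 2 - (y (n + s + 1) - y (n - s)) / r =
        (1 - (y (n + s + 1) - y n) / r) + (1 - (y n - y (n - s)) / r) := by ring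
    linarith
  have g3 : ∑ s ∈ Finset.range r, (2 - (y (n + s + 1) - y (n - s)) / r) = r - X1 r y n := by
    unfold X1
    have e1 : ∀ s ∈ Finset.range r, (2 - (y (n + s + 1) - y (n - s)) / r) =
        2 - (r : ℝ)⁻¹ * (y (n + s + 1) - y (n - s) - (2 * s + 1)) - (r : ℝ)⁻¹ * (2 * s + 1) := by
      intro s _
      rw [div_eq_inv_mul]
      ring
    rw [Finset.sum_congr rfl e1, Finset.sum_sub_distrib, Finset.sum_sub_distrib, ← Finset.mul_sum,
      ← Finset.mul_sum, odd_sum, Finset.sum_const, Finset.card_range, nsmul_eq_mul]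
    field_simp
    ring
  linarith

lemma XX_ge (J : ℕ) (a b n : ℕ) (y : ℕ → ℝ)
    (hy : ∀ n ∈ Finset.Ioc a b, ∀ m ∈ Finset.Ioc a b, n ≤ m → y n ≤ y m)
    (h1 : a + 2 ^ J ≤ n) (h2 : n + 2 ^ J ≤ b) :
    -(FF J (Finset.Ioc a b) y (y n) - mJ J) ≤ XX J y n := by
  rw [XX_eq J y n (by omega)]
  have e1 : -(FF J (Finset.Ioc a b) y (y n) - mJ J) = (J : ℝ)⁻¹ * ∑ j ∈ Finset.range J,
      -(∑ m ∈ Finset.Ioc a b, tri (2 ^ (j + 1)) (y n - y m) - 2 ^ (j + 1)) := by
    unfold FF Ph mJ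
    rw [← Finset.mul_sum, Finset.sum_comm, ← mul_sub, ← mul_neg, Finset.sum_neg_distrib,
      Finset.sum_sub_distrib]
  rw [e1]
  apply mul_le_mul_of_nonneg_left _ (Ji J)
  refine Finset.sum_le_sum fun j hj => ?_
  rw [Finset.mem_range] at hj
  have hr : 2 ^ (j + 1) ≤ 2 ^ J := Nat.pow_le_pow_right (by norm_num) (by omega)
  have := X1_ge (2 ^ (j + 1)) Nat.one_le_two_pow a b n y hy (by omega) (by omega)
  push_cast at this
  exact this

/-- the sum over an interval of indices -/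
lemma X1_sum (r : ℕ) (hr : 1 ≤ r) (a b a' b' : ℕ) (y : ℕ → ℝ) (Y0 M : ℝ)
    (hin : ∀ n ∈ Finset.Ioc a b, Y0 ≤ y n ∧ y n ≤ Y0 + M)
    (h1 : a + r ≤ a') (h2 : b' + r ≤ b) (h3 : a' ≤ b') :
    ∑ n ∈ Finset.Ioc a' b', X1 r y n ≤ r * (M - ((b' : ℝ) - a')) := by
  have hr0 : (0 : ℝ) < r := by exact_mod_cast hr
  unfold X1
  rw [← Finset.mul_sum, Finset.sum_comm]
  have g1 : ∀ s ∈ Finset.range r, ∑ n ∈ Finset.Ioc a' b', (y (n + s + 1) - y (n - s) - (2 * (s : ℝ) + 1)) ≤
      (2 * (s : ℝ) + 1) * (M - ((b' : ℝ) - a')) := by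
    intro s hs
    rw [Finset.mem_range] at hs
    have e1 : ∑ n ∈ Finset.Ioc a' b', (y (n + s + 1) - y (n - s)) ≤ (2 * (s : ℝ) + 1) * M := by
      have e2 : ∀ n ∈ Finset.Ioc a' b', y (n + s + 1) - y (n - s) =
          ∑ k ∈ Finset.range (2 * s + 1), (y (n - s + k + 1) - y (n - s + k)) := by
        intro n hn
        rw [Finset.mem_Ioc] at hn
        have := Finset.sum_range_sub (fun k => y (n - s + k)) (2 * s + 1)
        simp only [add_zero] at this
        have e3 : n - s + (2 * s + 1) = n + s + 1 := by omega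
        rw [e3] at this
        rw [← this]
        rfl
      rw [Finset.sum_congr rfl e2, Finset.sum_comm]
      have e4 : ∀ k ∈ Finset.range (2 * s + 1), ∑ n ∈ Finset.Ioc a' b',
          (y (n - s + k + 1) - y (n - s + k)) ≤ M := by
        intro k hk
        rw [Finset.mem_range] at hk
        have e5 : ∑ n ∈ Finset.Ioc a' b', (y (n - s + k + 1) - y (n - s + k)) =
            y (b' + 1 - s + k) - y (a' + 1 - s + k) := by
          have e6 : Finset.Ioc a' b' = Finset.Ico (a' + 1) (b' + 1) := by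
            ext m; simp only [Finset.mem_Ioc, Finset.mem_Ico]; omega
          rw [e6]
          have e7 : ∀ n ∈ Finset.Ico (a' + 1) (b' + 1), y (n - s + k + 1) - y (n - s + k) =
              (fun i => y (i - s + k)) (n + 1) - (fun i => y (i - s + k)) n := by
            intro n hn
            rw [Finset.mem_Ico] at hn
            show _ = y (n + 1 - s + k) - y (n - s + k)
            have : n + 1 - s + k = n - s + k + 1 := by omega
            rw [this]
          rw [Finset.sum_congr rfl e7]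
          exact Finset.sum_Ico_sub (fun i => y (i - s + k)) (by omega)
        rw [e5]
        have m1 := (hin (b' + 1 - s + k) (Finset.mem_Ioc.2 ⟨by omega, by omega⟩)).2
        have m2 := (hin (a' + 1 - s + k) (Finset.mem_Ioc.2 ⟨by omega, by omega⟩)).1
        linarith
      refine (Finset.sum_le_sum e4).trans (le_of_eq ?_)
      rw [Finset.sum_const, Finset.card_range, nsmul_eq_mul]
      push_cast
      ring
    rw [Finset.sum_sub_distrib, Finset.sum_const, Nat.card_Ioc, nsmul_eq_mul,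
      Nat.cast_sub h3]
    linarith
  have g2 := Finset.sum_le_sum g1
  rw [← Finset.sum_mul, odd_sum] at g2
  calc (r : ℝ)⁻¹ * ∑ s ∈ Finset.range r, ∑ n ∈ Finset.Ioc a' b',
      (y (n + s + 1) - y (n - s) - (2 * (s : ℝ) + 1)) ≤
      (r : ℝ)⁻¹ * ((r : ℝ) ^ 2 * (M - ((b' : ℝ) - a'))) :=
        mul_le_mul_of_nonneg_left g2 (by positivity)
    _ = r * (M - ((b' : ℝ) - a')) := by field_simp

lemma XX_sum (J : ℕ) (a b a' b' : ℕ) (y : ℕ → ℝ) (Y0 M : ℝ)
    (hin : ∀ n ∈ Finset.Ioc a b, Y0 ≤ y n ∧ y n ≤ Y0 + M)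
    (h1 : a + 2 ^ J ≤ a') (h2 : b' + 2 ^ J ≤ b) (h3 : a' ≤ b') :
    ∑ n ∈ Finset.Ioc a' b', XX J y n ≤ mJ J * (M - ((b' : ℝ) - a')) := by
  have e1 : ∀ n ∈ Finset.Ioc a' b', XX J y n =
      (J : ℝ)⁻¹ * ∑ j ∈ Finset.range J, X1 (2 ^ (j + 1)) y n := by
    intro n hn
    rw [Finset.mem_Ioc] at hn
    exact XX_eq J y n (by omega)
  rw [Finset.sum_congr rfl e1, ← Finset.mul_sum, Finset.sum_comm]
  unfold mJ
  rw [mul_assoc, Finset.sum_mul]
  apply mul_le_mul_of_nonneg_left _ (Ji J)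
  refine Finset.sum_le_sum fun j hj => ?_
  rw [Finset.mem_range] at hj
  have hr : 2 ^ (j + 1) ≤ 2 ^ J := Nat.pow_le_pow_right (by norm_num) (by omega)
  have := X1_sum (2 ^ (j + 1)) Nat.one_le_two_pow a b a' b' y Y0 M hin (by omega) (by omega) h3
  push_cast at this
  exact this

/-- **the abstract bound** -/
theorem XX_abs (J : ℕ) (a b a' b' : ℕ) (y : ℕ → ℝ) (Y0 M : ℝ)
    (hy : ∀ n ∈ Finset.Ioc a b, ∀ m ∈ Finset.Ioc a b, n ≤ m → y n ≤ y m)
    (hin : ∀ n ∈ Finset.Ioc a b, Y0 ≤ y n ∧ y n ≤ Y0 + M)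
    (h1 : a + 2 ^ J ≤ a') (h2 : b' + 2 ^ J ≤ b) (h3 : a' ≤ b') :
    ∑ n ∈ Finset.Ioc a' b', |XX J y n| ≤ mJ J * (M - ((b' : ℝ) - a')) +
      2 * ∑ n ∈ Finset.Ioc a' b', |FF J (Finset.Ioc a b) y (y n) - mJ J| := by
  have g1 : ∀ n ∈ Finset.Ioc a' b', |XX J y n| ≤ XX J y n +
      2 * |FF J (Finset.Ioc a b) y (y n) - mJ J| := by
    intro n hn
    rw [Finset.mem_Ioc] at hn
    have h4 := XX_ge J a b n y hy (by omega) (by omega)
    have h5 := neg_abs_le (FF J (Finset.Ioc a b) y (y n) - mJ J)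
    have h6 := le_abs_self (FF J (Finset.Ioc a b) y (y n) - mJ J)
    have h7 := abs_nonneg (FF J (Finset.Ioc a b) y (y n) - mJ J)
    rw [abs_le]
    constructor <;> linarith
  refine (Finset.sum_le_sum g1).trans ?_
  rw [Finset.sum_add_distrib, ← Finset.mul_sum]
  have := XX_sum J a b a' b' y Y0 M hin h1 h2 h3
  linarith

end Pool.Agent.Q276.LR
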