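import Pool.Agent.Q276.LR.B3
import Pool.Agent.H177R3.LatD

/-! Counting ordinates in windows. -/

set_option autoImplicit false

open Filter Topology Set MeasureTheory

namespace Pool.Agent.Q276.LR

open SG (ord NZ zmult ZS)
open H177.Lat (kI yy third PP_conv)

lemma NZ_diff {a b : ℝ} (ha : 1 ≤ a) (hab : a ≤ b) :
    (NZ b : ℝ) - NZ a = H370.NN riemannZeta a b := by
  have h1 := SG.NZ_le_add a b ha
  have hfin := H370.zset_finite H370.good_zeta a b ha
  have h2 := SG.NZ_add_le a b hab hfin.toFinset (by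
    intro s hs
    rw [Set.Finite.mem_toFinset] at hs
    obtain ⟨s1, s2, s3, s4, s5⟩ := hs
    exact ⟨⟨s5, s1, s2, by linarith, s4⟩, s3⟩)
  have h5 : H370.NN riemannZeta a b = ∑ s ∈ hfin.toFinset, zmult s := by
    unfold H370.NN
    rw [finsum_mem_eq_finite_toFinset_sum _ hfin]
    rfl
  rw [← h5] at h2
  have h3 : NZ b = NZ a + H370.NN riemannZeta a b := le_antisymm h1 h2
  rw [h3]
  push_cast
  ring

/-- the number of ordinates in a window -/
lemma win_count : ∃ C : ℝ, 0 < C ∧ ∀ T : ℝ, 10 ≤ T → ∀ t : ℝ, T ≤ t → t ≤ 3 * T → ∀ h : ℝ,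
    3 ≤ h → h ≤ T → |(NZ (t + h) : ℝ) - NZ t - h * Real.log T / (2 * Real.pi)| ≤
      C * (h + (Real.log T) ^ 2) := by
  obtain ⟨C, hC, hs⟩ := H370.SI.nn_short H370.good_zeta
  have hpi := Real.pi_gt_three
  refine ⟨9 * C + 1, by positivity, fun T hT t ht1 ht2 h hh1 hh2 => ?_⟩
  have h1 := hs t (by linarith) t (t + h) le_rfl (by linarith) (by linarith)
  rw [← NZ_diff (by linarith) (by linarith), add_sub_cancel_left] at h1
  have hlT : 1 ≤ Real.log T := by
    rw [Real.le_log_iff_exp_le (by linarith)]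
    have := Real.exp_one_lt_d9
    linarith
  have hl3 : Real.log 3 ≤ 2 := by
    have := Real.log_le_sub_one_of_pos (show (0 : ℝ) < 3 by norm_num)
    linarith
  have hlt1 : Real.log T ≤ Real.log t := Real.log_le_log (by linarith) ht1
  have hlt2 : Real.log t ≤ Real.log T + 2 := by
    have : Real.log t ≤ Real.log (3 * T) := Real.log_le_log (by linarith) ht2
    rw [Real.log_mul (by norm_num) (by linarith)] at this
    linarith
  have hlt3 : (Real.log t) ^ 2 ≤ 9 * (Real.log T) ^ 2 := by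
    have : Real.log t ≤ 3 * Real.log T := by linarith
    nlinarith
  have h2 : |h * Real.log t / (2 * Real.pi) - h * Real.log T / (2 * Real.pi)| ≤ h := by
    rw [← sub_div, ← mul_sub, abs_div, abs_mul, abs_of_pos (by positivity : 0 < 2 * Real.pi),
      abs_of_nonneg (by linarith : 0 ≤ h), abs_of_nonneg (by linarith), div_le_iff₀ (by positivity)]
    nlinarith
  have h3 := abs_sub_le ((NZ (t + h) : ℝ) - NZ t) (h * Real.log t / (2 * Real.pi))
    (h * Real.log T / (2 * Real.pi))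
  have h4 : C * (h + (Real.log t) ^ 2) ≤ C * (h + 9 * (Real.log T) ^ 2) := by
    apply mul_le_mul_of_nonneg_left _ hC.le
    linarith
  have h5 : 0 ≤ C * h := by positivity
  have h6 : 0 ≤ (Real.log T) ^ 2 := sq_nonneg _
  nlinarith

lemma logsq_small (ε : ℝ) (hε : 0 < ε) : ∃ T0 : ℝ, 100 ≤ T0 ∧ ∀ T : ℝ, T0 ≤ T →
    (Real.log T) ^ 2 ≤ ε * Real.sqrt T := by
  have h1 : (fun x : ℝ => Real.log x) =o[atTop] fun x => x ^ (1 / 4 : ℝ) :=
    isLittleO_log_rpow_atTop (by norm_num)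
  have h2 := (h1.bound (show 0 < Real.sqrt ε by positivity)).and (eventually_ge_atTop 100)
  obtain ⟨T0, hT0⟩ := h2.exists_forall_of_atTop
  refine ⟨max T0 100, le_max_right _ _, fun T hT => ?_⟩
  obtain ⟨h3, h4⟩ := hT0 T ((le_max_left _ _).trans hT)
  have hT0 : (0 : ℝ) ≤ T := by linarith
  have hl : 0 ≤ Real.log T := Real.log_nonneg (by linarith)
  rw [Real.norm_of_nonneg hl, Real.norm_of_nonneg (by positivity)] at h3
  calc (Real.log T) ^ 2 ≤ (Real.sqrt ε * T ^ (1 / 4 : ℝ)) ^ 2 := pow_le_pow_left₀ hl h3 2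
    _ = ε * Real.sqrt T := by
        rw [mul_pow, Real.sq_sqrt hε.le, ← Real.rpow_natCast, ← Real.rpow_mul hT0,
          Real.sqrt_eq_rpow]
        norm_num

/-- asymptotic form -/
lemma win_asymp (ε : ℝ) (hε : 0 < ε) : ∃ T0 : ℝ, 100 ≤ T0 ∧ ∀ T : ℝ, T0 ≤ T → ∀ t : ℝ, T ≤ t →
    t ≤ 3 * T → ∀ h : ℝ, Real.sqrt T ≤ h → h ≤ T →
    |(NZ (t + h) : ℝ) - NZ t - h * Real.log T / (2 * Real.pi)| ≤
      ε * (h * Real.log T / (2 * Real.pi)) := by
  obtain ⟨C, hC, hw⟩ := win_count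
  obtain ⟨T1, hT1, h1⟩ := logsq_small 1 one_pos
  have hpi := Real.pi_gt_three
  obtain ⟨T2, hT2⟩ := (Real.tendsto_log_atTop.eventually_ge_atTop
    (4 * Real.pi * C / ε)).exists_forall_of_atTop
  refine ⟨max T1 T2, hT1.trans (le_max_left _ _), fun T hT t ht1 ht2 h hh1 hh2 => ?_⟩
  have hTT1 : T1 ≤ T := (le_max_left _ _).trans hT
  have g1 := h1 T hTT1
  have g2 := hT2 T ((le_max_right _ _).trans hT)
  have hT100 : 100 ≤ T := hT1.trans hTT1
  have hs : 10 ≤ Real.sqrt T := by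
    rw [show (10 : ℝ) = Real.sqrt (10 ^ 2) by rw [Real.sqrt_sq (by norm_num)]]
    apply Real.sqrt_le_sqrt
    linarith
  refine (hw T (by linarith) t ht1 ht2 h (by linarith) hh2).trans ?_
  have g3 : C * (h + (Real.log T) ^ 2) ≤ 2 * C * h := by nlinarith
  refine g3.trans ?_
  rw [← mul_div_assoc, le_div_iff₀ (by positivity)]
  rw [div_le_iff₀ hε] at g2
  have h0 : 0 ≤ h := by linarith
  nlinarith [mul_le_mul_of_nonneg_left g2 h0]

end Pool.Agent.Q276.LR
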