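import Pool.Agent.Q276.LR.C1

/-! The bound in almost all windows. -/

set_option autoImplicit false

open Filter Topology Set MeasureTheory

namespace Pool.Agent.Q276.LR

open SG (ord NZ zmult ZS)
open H177.Lat (kI yy third PP_conv)
open H370.A2 (RR almost_smooth)

/-- conditions on the height -/
lemma heights (ε : ℝ) (_hε : 0 < ε) (J : ℕ) : ∃ T0 : ℝ, 100 ≤ T0 ∧ ∀ T : ℝ, T0 ≤ T →
    2 ^ J * (2 * Real.pi) ≤ Real.log T ∧ 200 / ε ≤ Real.sqrt T ∧ 100 ≤ Real.sqrt T := by
  have h1 := Real.tendsto_log_atTop.eventually_ge_atTop (2 ^ J * (2 * Real.pi))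
  have h2 : Tendsto Real.sqrt atTop atTop := Real.tendsto_sqrt_atTop
  have h3 := h1.and ((h2.eventually_ge_atTop (200 / ε)).and
    ((h2.eventually_ge_atTop 100).and (eventually_ge_atTop 100)))
  obtain ⟨T0, hT0⟩ := h3.exists_forall_of_atTop
  refine ⟨max T0 100, le_max_right _ _, fun T hT => ?_⟩
  obtain ⟨a1, a2, a3, a4⟩ := hT0 T ((le_max_left _ _).trans hT)
  exact ⟨a1, a2, a3⟩

lemma one_le_pow2 (J : ℕ) : (1 : ℝ) ≤ 2 ^ J := one_le_pow₀ (by norm_num)

theorem window_bound (hRH : RiemannHypothesis) : ∃ B : ℝ, 0 < B ∧ ∀ J : ℕ, 1 ≤ J →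
    ∃ δ : ℝ, 0 < δ ∧ ∃ T0 : ℝ, 100 ≤ T0 ∧ ∀ T : ℝ, T0 ≤ T →
      volume {t : ℝ | t ∈ Icc T (2 * T) ∧
        ¬ (∑ n ∈ Finset.Ioc (NZ (t + Real.sqrt T)) (NZ (t + T / 8 - Real.sqrt T)),
            |XX J (yy T) n| ≤ B / Real.sqrt J * (T / 8 * Real.log T / (2 * Real.pi)))} ≤
        ENNReal.ofReal (T ^ (1 - δ)) := by
  have hpi := Real.pi_gt_three
  have hpi4 := Real.pi_lt_four
  obtain ⟨Ca, Ta, hCa, hTa, ha⟩ := third hRH (1 / 2) 2 (by norm_num) (by norm_num) (by norm_num)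
  obtain ⟨Cb, Tb, hCb, hTb, hb⟩ := third hRH (1 / 2) 1 (by norm_num) (by norm_num) (by norm_num)
  set C2 : ℝ := max Ca Cb with hC2
  have hC20 : 0 < C2 := lt_of_lt_of_le hCa (le_max_left _ _)
  refine ⟨2 * (7 + 20000 * C2) + 3, by positivity, fun J hJ => ?_⟩
  set m := mJ J with hm
  have hm0 : 0 ≤ m := mJ_nonneg J
  have hJ1 : (1 : ℝ) ≤ J := by exact_mod_cast hJ
  have hJpos : (0 : ℝ) < J := by linarith
  set ε : ℝ := 1 / (2 * J * (1 + m) ^ 2) with hεd
  have hm1 : 1 ≤ (1 + m) ^ 2 := by nlinarith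
  have hε : 0 < ε := by positivity
  have hε1 : ε ≤ 1 / 2 := by
    rw [hεd]
    apply one_div_le_one_div_of_le (by norm_num)
    nlinarith
  have hεm : ε * (1 + m) ^ 2 = 1 / (2 * J) := by
    rw [hεd]
    field_simp
  obtain ⟨K, hK⟩ := Psi_lip J
  obtain ⟨D, hD⟩ := RR_decay J
  obtain ⟨δ, hδ, T1, hT1, hP⟩ := almost_smooth hRH (1 / 2) (1 / 2) ε (by norm_num) (by norm_num)
    (by norm_num) (by norm_num) hε (Psi J) K hK (fun x hx => Psi_out hx) D hD
  obtain ⟨T2, hT2, hw⟩ := win_asymp (ε / 2) (by positivity)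
  obtain ⟨T3, hT3, hh⟩ := heights ε hε J
  refine ⟨δ, hδ, max T1 (max (max Ta Tb) (max T2 T3)), ?_, fun T hT => ?_⟩
  · exact hT3.trans ((le_max_right _ _).trans ((le_max_right _ _).trans (le_max_right _ _)))
  have hTT1 : T1 ≤ T := (le_max_left _ _).trans hT
  have hTr : max (max Ta Tb) (max T2 T3) ≤ T := (le_max_right _ _).trans hT
  have hTTa : Ta ≤ T := ((le_max_left _ _).trans (le_max_left _ _)).trans hTr
  have hTTb : Tb ≤ T := ((le_max_right _ _).trans (le_max_left _ _)).trans hTr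
  have hTT2 : T2 ≤ T := ((le_max_left _ _).trans (le_max_right _ _)).trans hTr
  have hTT3 : T3 ≤ T := ((le_max_right _ _).trans (le_max_right _ _)).trans hTr
  obtain ⟨k1, k2, k3⟩ := hh T hTT3
  have hT100 : 100 ≤ T := hT3.trans hTT3
  have hTpos : 0 < T := by linarith
  set s := Real.sqrt T with hs
  have hss : s * s = T := Real.mul_self_sqrt hTpos.le
  have hL1 : 1 ≤ Real.log T := by
    have := one_le_pow2 J
    nlinarith
  set L := Real.log T with hL
  set H : ℝ := T / 8 with hH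
  have hH1 : T ^ (1 / 2 : ℝ) ≤ H := by
    rw [← Real.sqrt_eq_rpow, ← hs, hH]
    nlinarith
  have hεs : 200 ≤ ε * s := by
    rw [div_le_iff₀ hε] at k2
    linarith
  have hεH : 4 * s ≤ ε * H := by
    rw [hH, ← hss]
    have : 25 * s ≤ ε * (s * s / 8) := by nlinarith
    linarith
  refine (measure_mono ?_).trans (hP T hTT1 H hH1 le_rfl)
  rintro t ⟨ht1, ht2⟩
  refine ⟨ht1, fun hcon => ht2 ?_⟩
  obtain ⟨g1, g2⟩ := ht1
  have hA1 : 1 ≤ t := by linarith
  rw [PP_conv hRH hA1, Psi_zero, ← hm] at hcon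
  set a := NZ t with haa
  set b := NZ (t + H) with hbb
  set a' := NZ (t + s) with haa'
  set b' := NZ (t + H - s) with hbb'
  set y := yy T with hy
  set M : ℝ := H * L / (2 * Real.pi) with hM
  set Y0 : ℝ := t * L / (2 * Real.pi) with hY0
  have hH0 : 0 < H := by positivity
  have hM0 : 0 < M := by positivity
  have hs0 : 0 < s := by linarith
  have hyv : ∀ n, y n = ord n * (L / (2 * Real.pi)) := fun n => by
    rw [hy]; unfold yy; rw [hL]; ring
  have hc0 : 0 < L / (2 * Real.pi) := by positivity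
  -- the points
  have hmono : ∀ n ∈ Finset.Ioc a b, ∀ m ∈ Finset.Ioc a b, n ≤ m → y n ≤ y m := by
    intro n hn m _ hnm
    rw [Finset.mem_Ioc] at hn
    have h2 := SG.ord_mono (by omega : 1 ≤ n) hnm
    rw [hyv, hyv]
    gcongr
  have hgt : ∀ (x : ℝ) (n : ℕ), NZ x < n → x < ord n := by
    intro x n hn
    by_contra hcon2
    push Not at hcon2
    have := (SG.ord_le_iff (by omega : 1 ≤ n) x).mp hcon2
    omega
  have hle : ∀ (x : ℝ) (n : ℕ), 1 ≤ n → n ≤ NZ x → ord n ≤ x := fun x n h1 h2 =>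
    (SG.ord_le_iff h1 x).mpr h2
  have hin : ∀ n ∈ Finset.Ioc a b, Y0 ≤ y n ∧ y n ≤ Y0 + M := by
    intro n hn
    rw [Finset.mem_Ioc] at hn
    have h1 := hgt t n hn.1
    have h2 := hle (t + H) n (by omega) hn.2
    rw [hyv, hY0, hM]
    constructor
    · calc t * L / (2 * Real.pi) = t * (L / (2 * Real.pi)) := by ring
        _ ≤ ord n * (L / (2 * Real.pi)) := mul_le_mul_of_nonneg_right h1.le hc0.le
    · calc ord n * (L / (2 * Real.pi)) ≤ (t + H) * (L / (2 * Real.pi)) :=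
            mul_le_mul_of_nonneg_right h2 hc0.le
        _ = _ := by ring
  -- counts
  have hH8 : 8 * s ≤ H := by nlinarith
  have hsH : s ≤ H := by linarith
  have c1 := hw T hTT2 t g1 (by linarith) s le_rfl (by linarith)
  have c2 := hw T hTT2 (t + H - s) (by linarith) (by linarith) s le_rfl (by linarith)
  rw [sub_add_cancel] at c2
  have c3 := hw T hTT2 (t + s) (by linarith) (by linarith) (H - 2 * s) (by linarith) (by linarith)
  rw [show t + s + (H - 2 * s) = t + H - s by ring] at c3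
  have c4 := hw T hTT2 (t + 1) (by linarith) (by linarith) (H - 2) (by linarith) (by linarith)
  rw [show t + 1 + (H - 2) = t + H - 1 by ring] at c4
  rw [← haa', ← haa, ← hL] at c1
  rw [← hbb, ← hbb', ← hL] at c2
  rw [← hbb', ← haa', ← hL] at c3
  rw [← hL] at c4
  have hsL : (2 : ℝ) ^ J ≤ (1 - ε / 2) * (s * L / (2 * Real.pi)) := by
    have h1 : (2 : ℝ) ^ J * (2 * Real.pi) * s ≤ L * s := mul_le_mul_of_nonneg_right k1 hs0.le
    have h2 : (2 : ℝ) ^ J * s ≤ s * L / (2 * Real.pi) := by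
      rw [le_div_iff₀ (by positivity)]
      linarith
    have h3 : (0 : ℝ) < 2 ^ J := by positivity
    have h4 : (2 : ℝ) ^ J ≤ 3 / 4 * ((2 : ℝ) ^ J * s) := by
      have e1 : (2 : ℝ) ^ J * 1 ≤ 2 ^ J * (3 / 4 * s) :=
        mul_le_mul_of_nonneg_left (by linarith) h3.le
      linarith
    have h5 : 0 ≤ s * L / (2 * Real.pi) := by positivity
    have h6 : 3 / 4 * (s * L / (2 * Real.pi)) ≤ (1 - ε / 2) * (s * L / (2 * Real.pi)) :=
      mul_le_mul_of_nonneg_right (by linarith) h5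
    linarith
  have d1 : a + 2 ^ J ≤ a' := by
    have h1 := (abs_le.1 c1).1
    have h2 : (a : ℝ) + 2 ^ J ≤ a' := by
      have : (1 - ε / 2) * (s * L / (2 * Real.pi)) = s * L / (2 * Real.pi) -
        ε / 2 * (s * L / (2 * Real.pi)) := by ring
      linarith
    exact_mod_cast h2
  have d2 : b' + 2 ^ J ≤ b := by
    have h1 := (abs_le.1 c2).1
    have h2 : (b' : ℝ) + 2 ^ J ≤ b := by
      have : (1 - ε / 2) * (s * L / (2 * Real.pi)) = s * L / (2 * Real.pi) -
        ε / 2 * (s * L / (2 * Real.pi)) := by ring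
      linarith
    exact_mod_cast h2
  have d3 : (1 - ε) * M ≤ (b' : ℝ) - a' := by
    have h1 := (abs_le.1 c3).1
    have h2 : (1 - ε) * M ≤ (1 - ε / 2) * ((H - 2 * s) * L / (2 * Real.pi)) := by
      have h3 : (1 - ε) * H ≤ (1 - ε / 2) * (H - 2 * s) := by nlinarith
      have h4 := mul_le_mul_of_nonneg_right h3 hc0.le
      calc (1 - ε) * M = (1 - ε) * H * (L / (2 * Real.pi)) := by rw [hM]; ring
        _ ≤ (1 - ε / 2) * (H - 2 * s) * (L / (2 * Real.pi)) := h4
        _ = _ := by ring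
    have h5 : (1 - ε / 2) * ((H - 2 * s) * L / (2 * Real.pi)) = (H - 2 * s) * L / (2 * Real.pi) -
        ε / 2 * ((H - 2 * s) * L / (2 * Real.pi)) := by ring
    linarith
  have d3' : a' ≤ b' := by
    have : (0 : ℝ) ≤ (b' : ℝ) - a' := by
      refine le_trans ?_ d3
      have : 0 ≤ 1 - ε := by linarith
      positivity
    have h : (a' : ℝ) ≤ b' := by linarith
    exact_mod_cast h
  have d4 : (1 - ε) * M ≤ (NZ (t + H - 1) : ℝ) - NZ (t + 1) := by
    have h1 := (abs_le.1 c4).1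
    have h2 : (1 - ε) * M ≤ (1 - ε / 2) * ((H - 2) * L / (2 * Real.pi)) := by
      have h3 : (1 - ε) * H ≤ (1 - ε / 2) * (H - 2) := by nlinarith
      have h4 := mul_le_mul_of_nonneg_right h3 hc0.le
      calc (1 - ε) * M = (1 - ε) * H * (L / (2 * Real.pi)) := by rw [hM]; ring
        _ ≤ (1 - ε / 2) * (H - 2) * (L / (2 * Real.pi)) := h4
        _ = _ := by ring
    have h5 : (1 - ε / 2) * ((H - 2) * L / (2 * Real.pi)) = (H - 2) * L / (2 * Real.pi) -
        ε / 2 * ((H - 2) * L / (2 * Real.pi)) := by ring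
    linarith
  -- the hypotheses of the local theorem
  have hsub : Finset.Ioc a' b' ⊆ Finset.Ioc a b := by
    apply Finset.Ioc_subset_Ioc
    · exact (Nat.le_add_right a _).trans d1
    · exact (Nat.le_add_right b' _).trans d2
  have hin' : ∀ n ∈ Finset.Ioc a' b', Y0 + 1 ≤ y n ∧ y n ≤ Y0 + M - 1 := by
    intro n hn
    rw [Finset.mem_Ioc] at hn
    have h1 := hgt (t + s) n hn.1
    have h2 := hle (t + H - s) n (by omega) hn.2
    have h3 : 1 ≤ s * (L / (2 * Real.pi)) := by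
      have e1 : s * (L / (2 * Real.pi)) = s * L / (2 * Real.pi) := by ring
      rw [e1, le_div_iff₀ (by positivity)]
      nlinarith
    rw [hyv, hY0, hM]
    constructor
    · calc t * L / (2 * Real.pi) + 1 ≤ (t + s) * (L / (2 * Real.pi)) := by
            have : (t + s) * (L / (2 * Real.pi)) = t * L / (2 * Real.pi) + s * (L / (2 * Real.pi)) := by
              ring
            linarith
        _ ≤ ord n * (L / (2 * Real.pi)) := mul_le_mul_of_nonneg_right h1.le hc0.le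
    · calc ord n * (L / (2 * Real.pi)) ≤ (t + H - s) * (L / (2 * Real.pi)) :=
            mul_le_mul_of_nonneg_right h2 hc0.le
        _ = t * L / (2 * Real.pi) + H * L / (2 * Real.pi) - s * (L / (2 * Real.pi)) := by ring
        _ ≤ _ := by linarith
  have hkI : ∀ ρ : ℝ, ∀ C : ℝ, C ≤ C2 →
      ∑ n ∈ Finset.Ioc a b, (kI (Finset.Ioc a b) y ρ n : ℝ) ^ 2 ≤ C * (H * L / (2 * Real.pi)) →
      ∑ n ∈ Finset.Ioc a b, (kI (Finset.Ioc a b) y ρ n : ℝ) ≤ C2 * M := by
    intro ρ C hC h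
    have h1 : ∑ n ∈ Finset.Ioc a b, (kI (Finset.Ioc a b) y ρ n : ℝ) ≤
        ∑ n ∈ Finset.Ioc a b, (kI (Finset.Ioc a b) y ρ n : ℝ) ^ 2 := by
      refine Finset.sum_le_sum fun n _ => ?_
      have : (kI (Finset.Ioc a b) y ρ n) ≤ (kI (Finset.Ioc a b) y ρ n) ^ 2 := by
        rw [sq]; exact Nat.le_mul_self _
      exact_mod_cast this
    refine (h1.trans h).trans ?_
    exact mul_le_mul_of_nonneg_right hC hM0.le
  have hk2 := hkI 2 Ca (le_max_left _ _) (ha T hTTa H hH1 le_rfl t g1 g2)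
  have hk1 := hkI 1 Cb (le_max_right _ _) (hb T hTTb H hH1 le_rfl t g1 g2)
  have hcount : (1 - ε) * M ≤ (((Finset.Ioc a b).filter
      (fun n => Y0 + 2 ^ J ≤ y n ∧ y n ≤ Y0 + M - 2 ^ J)).card : ℝ) := by
    refine d4.trans ?_
    have h1 : Finset.Ioc (NZ (t + 1)) (NZ (t + H - 1)) ⊆ (Finset.Ioc a b).filter
        (fun n => Y0 + 2 ^ J ≤ y n ∧ y n ≤ Y0 + M - 2 ^ J) := by
      intro n hn
      rw [Finset.mem_Ioc] at hn
      have h2 := hgt (t + 1) n hn.1
      have h3 := hle (t + H - 1) n (by omega) hn.2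
      have m1 : a ≤ NZ (t + 1) := SG.NZ_mono (by linarith)
      have m2 : NZ (t + H - 1) ≤ b := SG.NZ_mono (by linarith)
      have h4 : (2 : ℝ) ^ J ≤ L / (2 * Real.pi) := by
        rw [le_div_iff₀ (by positivity)]
        exact k1
      rw [Finset.mem_filter, Finset.mem_Ioc]
      refine ⟨⟨by omega, by omega⟩, ?_, ?_⟩
      · rw [hyv, hY0]
        calc t * L / (2 * Real.pi) + 2 ^ J ≤ (t + 1) * (L / (2 * Real.pi)) := by
              have : (t + 1) * (L / (2 * Real.pi)) = t * L / (2 * Real.pi) + L / (2 * Real.pi) := by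
                ring
              linarith
          _ ≤ ord n * (L / (2 * Real.pi)) := mul_le_mul_of_nonneg_right h2.le hc0.le
      · rw [hyv, hY0, hM]
        calc ord n * (L / (2 * Real.pi)) ≤ (t + H - 1) * (L / (2 * Real.pi)) :=
              mul_le_mul_of_nonneg_right h3 hc0.le
          _ = t * L / (2 * Real.pi) + H * L / (2 * Real.pi) - L / (2 * Real.pi) := by ring
          _ ≤ _ := by linarith
    have h5 := Finset.card_le_card h1
    rw [Nat.card_Ioc] at h5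
    have h6 : ((NZ (t + H - 1) - NZ (t + 1) : ℕ) : ℝ) ≤ (((Finset.Ioc a b).filter
        (fun n => Y0 + 2 ^ J ≤ y n ∧ y n ≤ Y0 + M - 2 ^ J)).card : ℝ) := by exact_mod_cast h5
    refine le_trans ?_ h6
    rw [Nat.cast_sub (SG.NZ_mono (by linarith))]
  have hpair : ∑ n ∈ Finset.Ioc a b, ∑ m ∈ Finset.Ioc a b, RR (Psi J) (1 / 2) (y n - y m) ≤
      M * (m ^ 2 + 28 / J + ε) := by
    have h1 := (abs_le.1 hcon).2
    have h2 := int_Psi J
    have h3 : M * (m ^ 2 + ∫ α in (-(1 / 2) : ℝ)..(1 / 2), |α| * Psi J α) ≤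
        M * (m ^ 2 + 28 / J) := mul_le_mul_of_nonneg_left (by linarith) hM0.le
    have h4 : ∑ n ∈ Finset.Ioc a b, ∑ m ∈ Finset.Ioc a b, RR (Psi J) (1 / 2) (y n - y m) =
        ∑ n ∈ Finset.Ioc a b, ∑ n' ∈ Finset.Ioc a b,
          RR (Psi J) (1 / 2) (ord n * Real.log T / (2 * Real.pi) -
            ord n' * Real.log T / (2 * Real.pi)) := rfl
    rw [h4]
    have h5 : ε * M = M * ε := mul_comm _ _
    linarith
  have hloc := local_main J hJ (Finset.Ioc a b) (Finset.Ioc a' b') hsub y Y0 M ε C2 hM0 hε.le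
    hC20.le hin' hpair hk2 hk1 hcount
  have hfin := XX_abs J a b a' b' y Y0 M hmono hin d1 d2 d3'
  rw [← hm] at hloc hfin
  -- numerics
  set r := Real.sqrt J with hr
  have hr1 : 1 ≤ r := by rw [hr]; exact Real.one_le_sqrt.2 hJ1
  have hr0 : 0 < r := by linarith
  have hrr : r * r = J := Real.mul_self_sqrt hJpos.le
  have q1 : m * (M - ((b' : ℝ) - a')) ≤ 1 / r * M := by
    have h1 : m * (M - ((b' : ℝ) - a')) ≤ m * (ε * M) :=
      mul_le_mul_of_nonneg_left (by linarith) hm0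
    have h2 : m * ε ≤ 1 / r := by
      have h3 : m * ε ≤ ε * (1 + m) ^ 2 := by nlinarith
      rw [hεm] at h3
      refine h3.trans ?_
      rw [← hrr]
      apply one_div_le_one_div_of_le hr0
      nlinarith
    calc m * (M - ((b' : ℝ) - a')) ≤ m * ε * M := by linarith
      _ ≤ 1 / r * M := mul_le_mul_of_nonneg_right h2 hM0.le
  have q2 : r * (ε * (1 + m ^ 2)) ≤ 1 / r := by
    have h3 : ε * (1 + m ^ 2) ≤ 1 / J := by
      have h4 : ε * (1 + m ^ 2) ≤ ε * (1 + m) ^ 2 := by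
        apply mul_le_mul_of_nonneg_left _ hε.le
        nlinarith
      rw [hεm] at h4
      refine h4.trans ?_
      apply one_div_le_one_div_of_le hJpos
      linarith
    calc r * (ε * (1 + m ^ 2)) ≤ r * (1 / J) := mul_le_mul_of_nonneg_left h3 hr0.le
      _ = 1 / r := by rw [← hrr]; field_simp
  refine hfin.trans ?_
  have q3 : 2 * ∑ n ∈ Finset.Ioc a' b', |FF J (Finset.Ioc a b) y (y n) - m| ≤
      2 * (M * ((7 + 20000 * C2) / r + 1 / r)) := by
    apply mul_le_mul_of_nonneg_left _ (by norm_num)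
    refine hloc.trans ?_
    apply mul_le_mul_of_nonneg_left _ hM0.le
    linarith
  have q4 : (2 * (7 + 20000 * C2) + 3) / r * M = 1 / r * M + 2 * (M * ((7 + 20000 * C2) / r + 1 / r)) := by
    field_simp
    ring
  have q5 : (2 * (7 + 20000 * C2) + 3) / r * (H * L / (2 * Real.pi)) =
      (2 * (7 + 20000 * C2) + 3) / r * M := rfl
  linarith

end Pool.Agent.Q276.LR
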