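import Pool.Agent.Q276.LR.C2
import Pool.Agent.H382L.GapUnif

/-! From almost all windows to all indices. -/

set_option autoImplicit false

open Filter Topology Set MeasureTheory

namespace Pool.Agent.Q276.LR

open SG (ord NZ zmult ZS)
open LG.GapAux (NZ_low)

/-- the exceptional set is small -/
lemma exc_small (δ : ℝ) (hδ : 0 < δ) : ∃ T0 : ℝ, 100 ≤ T0 ∧ ∀ T : ℝ, T0 ≤ T →
    Real.sqrt T + T ^ (1 - δ) < T / 32 := by
  have h1 : Tendsto (fun T : ℝ => T ^ (-δ)) atTop (𝓝 0) := tendsto_rpow_neg_atTop hδ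
  have h2 := h1.eventually (gt_mem_nhds (show (0 : ℝ) < 1 / 100 by norm_num))
  have h3 := h2.and (eventually_ge_atTop 10000)
  obtain ⟨T0, hT0⟩ := h3.exists_forall_of_atTop
  refine ⟨max T0 100, le_max_right _ _, fun T hT => ?_⟩
  obtain ⟨a1, a2⟩ := hT0 T ((le_max_left _ _).trans hT)
  have hT0 : 0 < T := by linarith
  have e1 : T ^ (1 - δ) = T * T ^ (-δ) := by
    rw [sub_eq_add_neg, Real.rpow_add hT0, Real.rpow_one]
  have e2 : Real.sqrt T ≤ T / 100 := by
    rw [Real.sqrt_le_left (by positivity)]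
    nlinarith
  rw [e1]
  nlinarith

/-- a good point in an interval -/
lemma good_point (P : ℝ → Prop) (T δ a b : ℝ)
    (hab : a + T ^ (1 - δ) < b) (hT : 0 < T)
    (h : volume {t : ℝ | t ∈ Icc T (2 * T) ∧ ¬ P t} ≤ ENNReal.ofReal (T ^ (1 - δ)))
    (ha : T ≤ a) (hb : b ≤ 2 * T) : ∃ t : ℝ, a ≤ t ∧ t ≤ b ∧ P t := by
  by_contra hcon
  push Not at hcon
  have h1 : Icc a b ⊆ {t : ℝ | t ∈ Icc T (2 * T) ∧ ¬ P t} := by
    rintro t ⟨h1, h2⟩
    exact ⟨⟨ha.trans h1, h2.trans hb⟩, hcon t h1 h2⟩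
  have h2 := (measure_mono h1).trans h
  rw [Real.volume_Icc, ENNReal.ofReal_le_ofReal_iff (by positivity)] at h2
  linarith

lemma Ioc_cover (F : ℕ → ℝ) (hF : ∀ n, 0 ≤ F n) (T : ℝ) (D : ℝ)
    (h : ∀ i ∈ Finset.range 16, ∑ n ∈ Finset.Ioc (NZ (T + (i + 1) * (T / 16))) (NZ (T + (i + 2) * (T / 16))),
      F n ≤ D) (hT : 0 ≤ T) :
    ∑ n ∈ Finset.Ioc (NZ (17 / 16 * T)) (NZ (2 * T)), F n ≤ 16 * D := by
  have key : ∀ k : ℕ, k ≤ 16 → ∑ n ∈ Finset.Ioc (NZ (17 / 16 * T)) (NZ (T + (k + 1) * (T / 16))), F n ≤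
      k * D := by
    intro k
    induction k with
    | zero =>
      intro _
      have e : T + (((0 : ℕ) : ℝ) + 1) * (T / 16) = 17 / 16 * T := by push_cast; ring
      rw [e, Finset.Ioc_self, Finset.sum_empty]
      simp
    | succ k ih =>
      intro hk
      have h1 := ih (by omega)
      have h2 := h k (Finset.mem_range.2 (by omega))
      have m1 : NZ (17 / 16 * T) ≤ NZ (T + ((k : ℝ) + 1) * (T / 16)) := by
        apply SG.NZ_mono
        have : (0 : ℝ) ≤ k := Nat.cast_nonneg k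
        nlinarith
      have m2 : NZ (T + ((k : ℝ) + 1) * (T / 16)) ≤ NZ (T + ((k : ℝ) + 2) * (T / 16)) := by
        apply SG.NZ_mono
        nlinarith
      have e2 : ((k + 1 : ℕ) : ℝ) + 1 = (k : ℝ) + 2 := by push_cast; ring
      rw [e2, ← Finset.Ioc_union_Ioc_eq_Ioc m1 m2, Finset.sum_union]
      · push_cast
        linarith
      · rw [Finset.disjoint_left]
        intro n hn hn'
        rw [Finset.mem_Ioc] at hn hn'
        omega
  have h1 := key 16 le_rfl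
  refine le_trans ?_ (h1.trans (le_of_eq (by push_cast; ring)))
  apply Finset.sum_le_sum_of_subset_of_nonneg
  · apply Finset.Ioc_subset_Ioc le_rfl
    apply SG.NZ_mono
    push_cast
    linarith
  · intro n _ _
    exact hF n

theorem dyadic_step (F : ℕ → ℝ) (hF : ∀ n, 0 ≤ F n) (D δ T0 : ℝ) (hD : 0 ≤ D) (hδ : 0 < δ)
    (h : ∀ T : ℝ, T0 ≤ T → volume {t : ℝ | t ∈ Icc T (2 * T) ∧
        ¬ (∑ n ∈ Finset.Ioc (NZ (t + Real.sqrt T)) (NZ (t + T / 8 - Real.sqrt T)), F n ≤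
          D * (T / 8 * Real.log T / (2 * Real.pi)))} ≤ ENNReal.ofReal (T ^ (1 - δ))) :
    ∃ T1 : ℝ, 100 ≤ T1 ∧ ∀ V : ℝ, T1 ≤ V →
      ∑ n ∈ Finset.Ioc (NZ (17 / 32 * V)) (NZ V), F n ≤ D * (V * Real.log V) := by
  obtain ⟨T1, hT1, h1⟩ := exc_small δ hδ
  refine ⟨2 * max T0 T1, ?_, fun V hV => ?_⟩
  · have := le_max_right T0 T1
    linarith
  set T : ℝ := V / 2 with hT
  have hTm : max T0 T1 ≤ T := by rw [hT]; linarith
  have hTT0 : T0 ≤ T := (le_max_left _ _).trans hTm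
  have hTT1 : T1 ≤ T := (le_max_right _ _).trans hTm
  have hTpos : 0 < T := by linarith
  have h2 := h1 T hTT1
  have hs0 : 0 ≤ Real.sqrt T := Real.sqrt_nonneg T
  have hp0 : 0 ≤ T ^ (1 - δ) := by positivity
  have hpi := Real.pi_gt_three
  have hlT : 0 ≤ Real.log T := Real.log_nonneg (by linarith)
  have h3 : ∀ i ∈ Finset.range 16, ∑ n ∈ Finset.Ioc (NZ (T + (i + 1) * (T / 16)))
      (NZ (T + (i + 2) * (T / 16))), F n ≤ D * (T / 8 * Real.log T / (2 * Real.pi)) := by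
    intro i hi
    rw [Finset.mem_range] at hi
    have hi' : (i : ℝ) ≤ 15 := by exact_mod_cast (by omega : i ≤ 15)
    have hi0 : (0 : ℝ) ≤ i := Nat.cast_nonneg i
    obtain ⟨t, g1, g2, g3⟩ := good_point _ T δ (T + i * (T / 16) + Real.sqrt T)
      (T + i * (T / 16) + T / 32) (by linarith) hTpos (h T hTT0) (by nlinarith) (by nlinarith)
    refine le_trans ?_ g3
    apply Finset.sum_le_sum_of_subset_of_nonneg
    · apply Finset.Ioc_subset_Ioc
      · apply SG.NZ_mono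
        linarith
      · apply SG.NZ_mono
        linarith
    · intro n _ _
      exact hF n
  have h4 := Ioc_cover F hF T _ h3 hTpos.le
  have e1 : 17 / 16 * T = 17 / 32 * V := by rw [hT]; ring
  have e2 : 2 * T = V := by rw [hT]; ring
  rw [e1, e2] at h4
  refine h4.trans ?_
  have h5 : Real.log T ≤ Real.log V := Real.log_le_log hTpos (by rw [hT]; linarith)
  have h6 : T * Real.log T / Real.pi ≤ V * Real.log V := by
    rw [div_le_iff₀ (by positivity)]
    have h7 : T * Real.log T ≤ V * Real.log V := by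
      apply mul_le_mul _ h5 hlT (by linarith)
      rw [hT]; linarith
    have h8 : 0 ≤ T * Real.log T := by positivity
    nlinarith
  calc 16 * (D * (T / 8 * Real.log T / (2 * Real.pi))) = D * (T * Real.log T / Real.pi) := by
        field_simp
        ring
    _ ≤ D * (V * Real.log V) := mul_le_mul_of_nonneg_left h6 hD

/-- the sum up to height `V` -/
theorem upto (F : ℕ → ℝ) (hF : ∀ n, 0 ≤ F n) (D T1 : ℝ) (hD : 0 ≤ D) (hT1 : 100 ≤ T1)
    (h : ∀ V : ℝ, T1 ≤ V →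
      ∑ n ∈ Finset.Ioc (NZ (17 / 32 * V)) (NZ V), F n ≤ D * (V * Real.log V)) :
    ∀ V : ℝ, 1 ≤ V → ∑ n ∈ Finset.Ioc 0 (NZ V), F n ≤
      3 * D * (V * Real.log V) + ∑ n ∈ Finset.Ioc 0 (NZ T1), F n := by
  have hT10 : 0 < T1 := by linarith
  have hsm : ∀ V : ℝ, 1 ≤ V → V ≤ T1 → ∑ n ∈ Finset.Ioc 0 (NZ V), F n ≤
      3 * D * (V * Real.log V) + ∑ n ∈ Finset.Ioc 0 (NZ T1), F n := by
    intro V hV1 hV
    have h1 : ∑ n ∈ Finset.Ioc 0 (NZ V), F n ≤ ∑ n ∈ Finset.Ioc 0 (NZ T1), F n := by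
      apply Finset.sum_le_sum_of_subset_of_nonneg
      · exact Finset.Ioc_subset_Ioc le_rfl (SG.NZ_mono hV)
      · intro n _ _
        exact hF n
    have h2 := Real.log_nonneg hV1
    have h3 : 0 ≤ 3 * D * (V * Real.log V) := by positivity
    linarith
  have key : ∀ k : ℕ, ∀ V : ℝ, 1 ≤ V → V ≤ (32 / 17 : ℝ) ^ k * T1 →
      ∑ n ∈ Finset.Ioc 0 (NZ V), F n ≤
      3 * D * (V * Real.log V) + ∑ n ∈ Finset.Ioc 0 (NZ T1), F n := by
    intro k
    induction k with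
    | zero =>
      intro V hV1 hV
      rw [pow_zero, one_mul] at hV
      exact hsm V hV1 hV
    | succ k ih =>
      intro V hV1 hV
      by_cases hVT : V ≤ T1
      · exact hsm V hV1 hVT
      push Not at hVT
      have h1 := h V hVT.le
      have h2 := ih (17 / 32 * V) (by linarith) (by
        rw [pow_succ] at hV
        nlinarith)
      have m1 : NZ (17 / 32 * V) ≤ NZ V := SG.NZ_mono (by linarith)
      have h3 : ∑ n ∈ Finset.Ioc 0 (NZ V), F n = ∑ n ∈ Finset.Ioc 0 (NZ (17 / 32 * V)), F n +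
          ∑ n ∈ Finset.Ioc (NZ (17 / 32 * V)) (NZ V), F n := by
        rw [← Finset.Ioc_union_Ioc_eq_Ioc (Nat.zero_le _) m1, Finset.sum_union]
        rw [Finset.disjoint_left]
        intro n hn hn'
        rw [Finset.mem_Ioc] at hn hn'
        omega
      rw [h3]
      have hl : 0 ≤ Real.log V := Real.log_nonneg hV1
      have h4 : 17 / 32 * V * Real.log (17 / 32 * V) ≤ 17 / 32 * (V * Real.log V) := by
        have h5 : Real.log (17 / 32 * V) ≤ Real.log V :=
          Real.log_le_log (by linarith) (by linarith)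
        nlinarith
      have h6 := mul_le_mul_of_nonneg_left h4 (show 0 ≤ 3 * D by positivity)
      have h7 : 0 ≤ D * (V * Real.log V) := by positivity
      nlinarith
  intro V hV
  have hlim : Tendsto (fun m : ℕ => (32 / 17 : ℝ) ^ m) atTop atTop :=
    tendsto_pow_atTop_atTop_of_one_lt (by norm_num)
  obtain ⟨m, hm⟩ := (tendsto_atTop.mp hlim (V / T1)).exists
  rw [div_le_iff₀ hT10] at hm
  exact key m V hV hm

/-- **globalization** -/
theorem globalize : ∃ C0 : ℝ, 0 < C0 ∧ ∀ F : ℕ → ℝ, (∀ n, 0 ≤ F n) → ∀ D δ T0 : ℝ, 0 < D → 0 < δ →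
    (∀ T : ℝ, T0 ≤ T → volume {t : ℝ | t ∈ Icc T (2 * T) ∧
        ¬ (∑ n ∈ Finset.Ioc (NZ (t + Real.sqrt T)) (NZ (t + T / 8 - Real.sqrt T)), F n ≤
          D * (T / 8 * Real.log T / (2 * Real.pi)))} ≤ ENNReal.ofReal (T ^ (1 - δ))) →
    ∀ᶠ N : ℕ in atTop, ∑ n ∈ Finset.Icc 1 N, F n ≤ C0 * D * N := by
  obtain ⟨c, T2, hc, hT2, hlow⟩ := NZ_low
  refine ⟨24 / c, by positivity, fun F hF D δ T0 hD hδ h => ?_⟩
  obtain ⟨T1, hT1, h1⟩ := dyadic_step F hF D δ T0 hD.le hδ h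
  have h2 := upto F hF D T1 hD.le hT1 h1
  set S0 := ∑ n ∈ Finset.Ioc 0 (NZ T1), F n with hS0
  have hN : Tendsto (fun N : ℕ => (N : ℝ)) atTop atTop := tendsto_natCast_atTop_atTop
  filter_upwards [SG.ord_tendsto.eventually_ge_atTop (3 * T2 + 3), eventually_ge_atTop 1,
    hN.eventually_ge_atTop (S0 / (6 / c * D))] with N hN1 hN2 hN3
  set Y := ord N with hY
  have hYpos : 0 < Y := by linarith
  have h3 := h2 Y (by linarith)
  have h4 : ∑ n ∈ Finset.Icc 1 N, F n ≤ ∑ n ∈ Finset.Ioc 0 (NZ Y), F n := by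
    apply Finset.sum_le_sum_of_subset_of_nonneg
    · intro n hn
      rw [Finset.mem_Icc] at hn
      rw [Finset.mem_Ioc]
      have := SG.le_NZ_ord hN2
      exact ⟨by omega, hn.2.trans this⟩
    · intro n _ _
      exact hF n
  have h5 := hlow (Y / 3) (by linarith)
  have h6 : NZ (2 * (Y / 3)) < N := by
    by_contra hcon
    push Not at hcon
    have h7 : ord N ≤ 2 * (Y / 3) := (SG.ord_le_iff hN2 _).mpr hcon
    rw [← hY] at h7
    linarith
  have h7 : (NZ (2 * (Y / 3)) : ℝ) ≤ N := by exact_mod_cast h6.le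
  have h8 : Real.log Y ≤ 2 * Real.log (Y / 3) := by
    have h9 : Y ≤ (Y / 3) ^ 2 := by nlinarith
    have h10 := Real.log_le_log hYpos h9
    rw [Real.log_pow] at h10
    push_cast at h10
    exact h10
  have h9 : Y * Real.log Y ≤ 6 / c * N := by
    have h10 : c * (Y / 3 * Real.log (Y / 3)) ≤ N := h5.trans h7
    have h11 : Y * Real.log Y ≤ Y * (2 * Real.log (Y / 3)) := mul_le_mul_of_nonneg_left h8 hYpos.le
    have h12 : Y * (2 * Real.log (Y / 3)) = 6 / c * (c * (Y / 3 * Real.log (Y / 3))) := by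
      field_simp
      ring
    rw [h12] at h11
    exact h11.trans (mul_le_mul_of_nonneg_left h10 (by positivity))
  rw [div_le_iff₀ (by positivity)] at hN3
  have h10 := mul_le_mul_of_nonneg_left h9 (show 0 ≤ 3 * D by positivity)
  calc ∑ n ∈ Finset.Icc 1 N, F n ≤ 3 * D * (Y * Real.log Y) + S0 := h4.trans h3
    _ ≤ 3 * D * (6 / c * N) + N * (6 / c * D) := add_le_add h10 hN3
    _ = 24 / c * D * N := by ring

end Pool.Agent.Q276.LR
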