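import Pool.Agent.Q276.LR.D2
import Pool.Agent.H345R2.CT.A

/-! Mean values of the gaps, blocks of gaps. -/

set_option autoImplicit false

open Filter Topology Set MeasureTheory

namespace Pool.Agent.Q276.LR

open SG (ord NZ zmult ZS)
open H177.Lat (kI yy third PP_conv del2)
open LG.GapAux (NZ_low)

/-- the first moment of the gaps -/
theorem mean_dev : ∃ C1 : ℝ, 0 < C1 ∧ ∀ᶠ N : ℕ in atTop,
    ∑ n ∈ Finset.Icc 1 N, |del2 n - 1| ≤ C1 * N := by
  obtain ⟨c, T2, hc, hT2, hlow⟩ := NZ_low
  obtain ⟨T3, hT3, hsucc⟩ := LG.CU.ord_succ_le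
  have hpi := Real.pi_gt_three
  set n0 := NZ (2 * Real.pi) with hn0
  set S1 := ∑ n ∈ Finset.Icc 1 n0, |del2 n| with hS1
  refine ⟨6 / c + 2, by positivity, ?_⟩
  have hN : Tendsto (fun N : ℕ => (N : ℝ)) atTop atTop := tendsto_natCast_atTop_atTop
  filter_upwards [SG.ord_tendsto.eventually_ge_atTop (3 * T2 + 3),
    SG.ord_tendsto.eventually_ge_atTop T3, eventually_ge_atTop 1,
    hN.eventually_ge_atTop S1] with N hN1 hN1' hN2 hN3
  set Y := ord N with hY
  have hYpos : 0 < Y := by linarith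
  have hlY : 0 ≤ Real.log Y := Real.log_nonneg (by linarith)
  -- the sum of the absolute values
  have h1 : ∀ n ∈ Finset.Icc 1 N, |del2 n| ≤ (if n ∈ Finset.Icc 1 n0 then |del2 n| else 0) +
      (ord (n + 1) - ord n) * (Real.log Y / (2 * Real.pi)) := by
    intro n hn
    rw [Finset.mem_Icc] at hn
    have hm := SG.ord_mono hn.1 (Nat.le_succ n)
    have h0 : 0 ≤ (ord (n + 1) - ord n) * (Real.log Y / (2 * Real.pi)) :=
      mul_nonneg (by linarith) (by positivity)
    split_ifs with h
    · linarith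
    · rw [zero_add]
      rw [Finset.mem_Icc] at h
      have h2 : 2 * Real.pi < ord n := by
        by_contra hcon
        push Not at hcon
        have := (SG.ord_le_iff hn.1 (2 * Real.pi)).mp hcon
        omega
      have h3 : 0 ≤ Real.log (ord n / (2 * Real.pi)) := by
        apply Real.log_nonneg
        rw [le_div_iff₀ (by positivity)]
        linarith
      have h4 : Real.log (ord n / (2 * Real.pi)) ≤ Real.log Y := by
        apply Real.log_le_log
        · apply div_pos (by linarith) (by positivity)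
        · rw [div_le_iff₀ (by positivity)]
          have h5 := SG.ord_mono hn.1 hn.2
          have : 0 < ord n := by linarith
          nlinarith
      unfold del2
      rw [abs_mul, abs_of_nonneg h3, abs_of_nonneg (by apply div_nonneg; linarith; positivity)]
      calc (ord (n + 1) - ord n) / (2 * Real.pi) * Real.log (ord n / (2 * Real.pi)) ≤
          (ord (n + 1) - ord n) / (2 * Real.pi) * Real.log Y := by
            apply mul_le_mul_of_nonneg_left h4
            apply div_nonneg (by linarith) (by positivity)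
        _ = _ := by ring
  have h2 : ∑ n ∈ Finset.Icc 1 N, (if n ∈ Finset.Icc 1 n0 then |del2 n| else 0) ≤ S1 := by
    rw [← Finset.sum_filter]
    apply Finset.sum_le_sum_of_subset_of_nonneg
    · intro n hn
      rw [Finset.mem_filter] at hn
      exact hn.2
    · intro n _ _
      exact abs_nonneg _
  have h3 : ∑ n ∈ Finset.Icc 1 N, (ord (n + 1) - ord n) * (Real.log Y / (2 * Real.pi)) ≤
      Y * Real.log Y := by
    rw [← Finset.sum_mul]
    have e1 : Finset.Icc 1 N = Finset.Ico 1 (N + 1) := by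
      ext m; simp only [Finset.mem_Icc, Finset.mem_Ico]; omega
    rw [e1, Finset.sum_Ico_sub _ (by omega)]
    have h4 := hsucc N hN2 hN1'
    have h5 := SG.ord_pos (le_refl 1)
    calc (ord (N + 1) - ord 1) * (Real.log Y / (2 * Real.pi)) ≤
        (2 * Y) * (Real.log Y / (2 * Real.pi)) := by
          apply mul_le_mul_of_nonneg_right _ (by positivity)
          linarith
      _ = Y * Real.log Y / Real.pi := by field_simp
      _ ≤ Y * Real.log Y := by
          apply div_le_self (by positivity)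
          linarith
  have h5 := hlow (Y / 3) (by linarith)
  have h6 : NZ (2 * (Y / 3)) < N := by
    by_contra hcon
    push Not at hcon
    have h7 : ord N ≤ 2 * (Y / 3) := (SG.ord_le_iff hN2 _).mpr hcon
    rw [← hY] at h7
    linarith
  have h7 : (NZ (2 * (Y / 3)) : ℝ) ≤ N := by exact_mod_cast h6.le
  have h8 : Real.log Y ≤ 2 * Real.log (Y / 3) := by
    have h9 : Y ≤ (Y / 3) ^ 2 := by nlinarith
    have h10 := Real.log_le_log hYpos h9
    rw [Real.log_pow] at h10
    push_cast at h10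
    exact h10
  have h9 : Y * Real.log Y ≤ 6 / c * N := by
    have h10 : c * (Y / 3 * Real.log (Y / 3)) ≤ N := h5.trans h7
    have h11 : Y * Real.log Y ≤ Y * (2 * Real.log (Y / 3)) := mul_le_mul_of_nonneg_left h8 hYpos.le
    have h12 : Y * (2 * Real.log (Y / 3)) = 6 / c * (c * (Y / 3 * Real.log (Y / 3))) := by
      field_simp
      ring
    rw [h12] at h11
    exact h11.trans (mul_le_mul_of_nonneg_left h10 (by positivity))
  have h10 : ∑ n ∈ Finset.Icc 1 N, |del2 n| ≤ S1 + 6 / c * N := by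
    refine (Finset.sum_le_sum h1).trans ?_
    rw [Finset.sum_add_distrib]
    linarith
  calc ∑ n ∈ Finset.Icc 1 N, |del2 n - 1| ≤ ∑ n ∈ Finset.Icc 1 N, (|del2 n| + 1) := by
        refine Finset.sum_le_sum fun n _ => ?_
        have := abs_sub (del2 n) 1
        rw [abs_one] at this
        exact this
    _ = ∑ n ∈ Finset.Icc 1 N, |del2 n| + N := by
        rw [Finset.sum_add_distrib, Finset.sum_const, Nat.card_Icc, nsmul_eq_mul, mul_one]
        simp
    _ ≤ (6 / c + 2) * N := by linarith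

/-- the explicit weights -/
noncomputable def wt (J k : ℕ) : ℝ := (J : ℝ)⁻¹ * ∑ j ∈ Finset.Icc 1 J, max 0 (1 - (k : ℝ) / 2 ^ j)

lemma Ph_wt (J : ℕ) (x : ℝ) (k : ℕ) (h : |x| = k) : Ph J x = wt J k := by
  unfold Ph wt H177.Lat.tri
  rw [h]
  congr 1
  have e : Finset.Icc 1 J = Finset.Ico 1 (J + 1) := by
    ext m; simp only [Finset.mem_Icc, Finset.mem_Ico]; omega
  rw [e, Finset.sum_Ico_eq_sum_range]
  simp only [Nat.add_sub_cancel]
  refine Finset.sum_congr rfl fun j _ => ?_
  rw [add_comm 1 j]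

lemma wt_nonneg (J k : ℕ) : 0 ≤ wt J k := by
  rw [← Ph_wt J (k : ℝ) k (abs_of_nonneg (Nat.cast_nonneg k))]
  exact Ph_nonneg J _

lemma wt_le_one {J : ℕ} (hJ : 1 ≤ J) (k : ℕ) : wt J k ≤ 1 := by
  rw [← Ph_wt J (k : ℝ) k (abs_of_nonneg (Nat.cast_nonneg k))]
  exact Ph_le_one hJ _

lemma wt_zero {J : ℕ} (hJ : 1 ≤ J) : wt J 0 = 1 := by
  rw [← Ph_wt J 0 0 (by simp)]
  exact Ph_zero hJ

lemma wt_far {J k : ℕ} (h : 2 ^ J ≤ k) : wt J k = 0 := by
  rw [← Ph_wt J (k : ℝ) k (abs_of_nonneg (Nat.cast_nonneg k))]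
  apply Ph_far
  rw [abs_of_nonneg (Nat.cast_nonneg k)]
  exact_mod_cast h

/-- the weights are close to one near zero -/
lemma wt_near {J : ℕ} (hJ : 1 ≤ J) (k : ℕ) : 1 - wt J k ≤ ((Nat.log 2 k : ℝ) + 2) / J := by
  have hJ0 : (0 : ℝ) < J := by exact_mod_cast hJ
  have e1 : (1 : ℝ) - wt J k = (J : ℝ)⁻¹ * ∑ j ∈ Finset.Icc 1 J, min 1 ((k : ℝ) / 2 ^ j) := by
    have e2 : (1 : ℝ) = (J : ℝ)⁻¹ * ∑ j ∈ Finset.Icc 1 J, (1 : ℝ) := by
      rw [Finset.sum_const, Nat.card_Icc, nsmul_eq_mul, mul_one, Nat.add_sub_cancel]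
      field_simp
    unfold wt
    nth_rewrite 1 [e2]
    rw [← mul_sub, ← Finset.sum_sub_distrib]
    congr 1
    refine Finset.sum_congr rfl fun j _ => ?_
    rcases le_total 1 ((k : ℝ) / 2 ^ j) with h | h
    · rw [min_eq_left h, max_eq_left (by linarith), sub_zero]
    · rw [min_eq_right h, max_eq_right (by linarith)]
      ring
  rw [e1, ← div_eq_inv_mul]
  apply div_le_div_of_nonneg_right _ hJ0.le
  set l := Nat.log 2 k with hl
  have hk : (k : ℝ) ≤ 2 ^ (l + 1) := by
    have := Nat.lt_pow_succ_log_self (by norm_num : 1 < 2) k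
    exact_mod_cast this.le
  have h1 : ∀ j ∈ Finset.Icc 1 J, min 1 ((k : ℝ) / 2 ^ j) ≤
      (if j ∈ Finset.Icc 1 l then (1 : ℝ) else 0) + (if l < j then (1 / 2 : ℝ) ^ (j - (l + 1)) else 0) := by
    intro j hj
    rw [Finset.mem_Icc] at hj
    by_cases hjl : j ≤ l
    · rw [if_pos (Finset.mem_Icc.2 ⟨hj.1, hjl⟩), if_neg (by omega), add_zero]
      exact min_le_left _ _
    · rw [if_neg (by rw [Finset.mem_Icc]; omega), if_pos (by omega), zero_add]
      refine (min_le_right _ _).trans ?_
      rw [div_le_iff₀ (by positivity)]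
      refine hk.trans (le_of_eq ?_)
      obtain ⟨d, rfl⟩ : ∃ d, j = l + 1 + d := ⟨j - (l + 1), by omega⟩
      have : l + 1 + d - (l + 1) = d := by omega
      rw [this, pow_add 2 (l + 1) d, one_div, inv_pow]
      field_simp
  refine (Finset.sum_le_sum h1).trans ?_
  rw [Finset.sum_add_distrib]
  have h2 : ∑ j ∈ Finset.Icc 1 J, (if j ∈ Finset.Icc 1 l then (1 : ℝ) else 0) ≤ l := by
    rw [← Finset.sum_filter, Finset.sum_const, nsmul_eq_mul, mul_one]
    have : (Finset.filter (fun j => j ∈ Finset.Icc 1 l) (Finset.Icc 1 J)).card ≤ (Finset.Icc 1 l).card := by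
      apply Finset.card_le_card
      intro j hj
      rw [Finset.mem_filter] at hj
      exact hj.2
    rw [Nat.card_Icc, Nat.add_sub_cancel] at this
    exact_mod_cast this
  have h3 : ∑ j ∈ Finset.Icc 1 J, (if l < j then (1 / 2 : ℝ) ^ (j - (l + 1)) else 0) ≤ 2 := by
    rw [← Finset.sum_filter]
    have e3 : ∑ j ∈ Finset.filter (fun j => l < j) (Finset.Icc 1 J), (1 / 2 : ℝ) ^ (j - (l + 1)) ≤
        ∑ i ∈ Finset.range J, (1 / 2 : ℝ) ^ i := by
      have e4 : ∑ j ∈ Finset.filter (fun j => l < j) (Finset.Icc 1 J), (1 / 2 : ℝ) ^ (j - (l + 1)) =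
          ∑ i ∈ (Finset.filter (fun j => l < j) (Finset.Icc 1 J)).image (fun j => j - (l + 1)),
            (1 / 2 : ℝ) ^ i := by
        rw [Finset.sum_image]
        intro a ha b hb hab
        rw [Finset.mem_coe, Finset.mem_filter] at ha hb
        simp only at hab
        omega
      rw [e4]
      apply Finset.sum_le_sum_of_subset_of_nonneg
      · intro i hi
        rw [Finset.mem_image] at hi
        obtain ⟨j, hj, rfl⟩ := hi
        rw [Finset.mem_filter, Finset.mem_Icc] at hj
        rw [Finset.mem_range]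
        omega
      · intro i _ _
        positivity
    refine e3.trans ?_
    have := geom_sum_eq (by norm_num : (1 / 2 : ℝ) ≠ 1) J
    rw [this]
    have h5 : (0 : ℝ) ≤ (1 / 2) ^ J := by positivity
    have : ((1 / 2 : ℝ) ^ J - 1) / (1 / 2 - 1) = 2 * (1 - (1 / 2) ^ J) := by ring
    rw [this]
    linarith
  linarith

end Pool.Agent.Q276.LR
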