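import Pool.Agent.Q276.LR.E2

/-! Negative correlations. -/

set_option autoImplicit false

open Filter Topology Set MeasureTheory

namespace Pool.Agent.Q276.LR

open SG (ord NZ zmult ZS)
open H177.Lat (kI yy third PP_conv del2 WW)

lemma ut_one (J k : ℕ) : ut J 1 k = wt J k := by
  unfold ut
  simp

/-- the gaps are not concentrated at their mean -/
theorem spread (hRH : RiemannHypothesis) : ∃ c : ℝ, 0 < c ∧ ∀ᶠ N : ℕ in atTop,
    c * N ≤ ∑ n ∈ Finset.Icc 1 N, |xx n| := by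
  obtain ⟨ε, hε, h⟩ := H177.Lat.coset_all hRH 1 one_pos le_rfl
  refine ⟨ε * ε, by positivity, ?_⟩
  filter_upwards [h] with N hN
  have h1 := hN 1
  have hsub : WW 1 ε 1 N ⊆ ((Finset.Icc 1 N).filter (fun n => ε ≤ |xx n|) : Finset ℕ) := by
    rintro n ⟨a1, a2, a3⟩
    rw [Finset.mem_coe, Finset.mem_filter, Finset.mem_Icc]
    refine ⟨⟨a1, a2⟩, ?_⟩
    have := a3 0
    simpa [xx] using this
  have h2 := Set.ncard_le_ncard hsub (Finset.finite_toSet _)
  rw [Set.ncard_coe_finset] at h2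
  have h3 : ((WW 1 ε 1 N).ncard : ℝ) ≤ (((Finset.Icc 1 N).filter (fun n => ε ≤ |xx n|)).card : ℝ) := by
    exact_mod_cast h2
  have h4 : ((((Finset.Icc 1 N).filter (fun n => ε ≤ |xx n|)).card : ℝ)) * ε ≤
      ∑ n ∈ Finset.Icc 1 N, |xx n| := by
    calc ((((Finset.Icc 1 N).filter (fun n => ε ≤ |xx n|)).card : ℝ)) * ε =
        ∑ n ∈ (Finset.Icc 1 N).filter (fun n => ε ≤ |xx n|), ε := by
          rw [Finset.sum_const, nsmul_eq_mul]
      _ ≤ ∑ n ∈ (Finset.Icc 1 N).filter (fun n => ε ≤ |xx n|), |xx n| := by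
          refine Finset.sum_le_sum fun n hn => ?_
          rw [Finset.mem_filter] at hn
          exact hn.2
      _ ≤ _ := by
          apply Finset.sum_le_sum_of_subset_of_nonneg (Finset.filter_subset _ _)
          intro n _ _
          exact abs_nonneg _
  nlinarith

/-- **some gaps at bounded distance are negatively correlated** -/
theorem neg_corr (hRH : RiemannHypothesis) : ∃ R : ℕ, ∃ c : ℝ, 0 < c ∧ ∀ᶠ N : ℕ in atTop,
    ∃ k ∈ Finset.Icc 1 R, ∑ n ∈ Finset.Ioc R N, Real.sign (xx n) * (xx (n - k) + xx (n + k)) ≤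
      -c * N := by
  obtain ⟨C, hC, h1⟩ := blocks_rigid hRH
  obtain ⟨c1, hc1, h2⟩ := spread hRH
  -- choice of J
  obtain ⟨J, hJ, hJ2⟩ : ∃ J : ℕ, 1 ≤ J ∧ 2 * C / Real.sqrt J ≤ c1 / 4 := by
    refine ⟨⌈(8 * C / c1) ^ 2⌉₊ + 1, by omega, ?_⟩
    have h3 : (8 * C / c1) ^ 2 ≤ ((⌈(8 * C / c1) ^ 2⌉₊ + 1 : ℕ) : ℝ) := by
      push_cast
      have := Nat.le_ceil ((8 * C / c1) ^ 2)
      linarith
    have h4 : 8 * C / c1 ≤ Real.sqrt ((⌈(8 * C / c1) ^ 2⌉₊ + 1 : ℕ) : ℝ) := by
      rw [Real.le_sqrt (by positivity) (by positivity)]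
      exact h3
    have h5 : 0 < 8 * C / c1 := by positivity
    rw [div_le_iff₀ (by linarith)]
    rw [div_le_iff₀ hc1] at h4
    linarith
  have hJ0 : (0 : ℝ) < J := by exact_mod_cast hJ
  have hJ1 : (1 : ℝ) ≤ J := by exact_mod_cast hJ
  set R := 2 ^ J with hR
  have hR0 : (0 : ℝ) < R := by rw [hR]; positivity
  set S0 := ∑ n ∈ Finset.Icc 1 R, |xx n| with hS0
  refine ⟨R, c1 / (4 * R), by positivity, ?_⟩
  have hN : Tendsto (fun N : ℕ => (N : ℝ)) atTop atTop := tendsto_natCast_atTop_atTop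
  filter_upwards [h1 J 1 hJ le_rfl, h2, eventually_gt_atTop R,
    hN.eventually_gt_atTop (4 * S0 / c1)] with N g1 g2 g3 g4
  have hN0 : (0 : ℝ) < N := by
    have : 0 < N := lt_of_le_of_lt (Nat.zero_le R) g3
    exact_mod_cast this
  by_contra hcon
  push Not at hcon
  -- the sum with signs
  have e1 : ∑ n ∈ Finset.Ioc R N, Real.sign (xx n) * BB J 1 n = ∑ n ∈ Finset.Ioc R N, |xx n| +
      ∑ k ∈ Finset.Icc 1 R, wt J k * ∑ n ∈ Finset.Ioc R N, Real.sign (xx n) * (xx (n - k) + xx (n + k)) := by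
    have e2 : ∀ n ∈ Finset.Ioc R N, Real.sign (xx n) * BB J 1 n = |xx n| +
        ∑ k ∈ Finset.Icc 1 R, wt J k * (Real.sign (xx n) * (xx (n - k) + xx (n + k))) := by
      intro n _
      have e3 : BB J 1 n = xx n + ∑ k ∈ Finset.Icc 1 R, wt J k * (xx (n - k) + xx (n + k)) := by
        unfold BB
        rw [Finset.sum_range_one, add_zero]
        congr 1
        refine Finset.sum_congr rfl fun k _ => ?_
        rw [ut_one]
        rfl
      have e4 : Real.sign (xx n) * xx n = |xx n| := by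
        rcases lt_trichotomy (xx n) 0 with h | h | h
        · rw [Real.sign_of_neg h, abs_of_neg h]; ring
        · rw [h]; simp
        · rw [Real.sign_of_pos h, abs_of_pos h]; ring
      rw [e3, mul_add, e4, Finset.mul_sum]
      congr 1
      refine Finset.sum_congr rfl fun k _ => ?_
      ring
    rw [Finset.sum_congr rfl e2, Finset.sum_add_distrib, Finset.sum_comm]
    congr 1
    refine Finset.sum_congr rfl fun k _ => ?_
    rw [Finset.mul_sum]
  have e2 : ∑ n ∈ Finset.Ioc R N, Real.sign (xx n) * BB J 1 n ≤ ∑ n ∈ Finset.Ioc R N, |BB J 1 n| := by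
    refine Finset.sum_le_sum fun n _ => ?_
    refine (le_abs_self _).trans ?_
    rw [abs_mul]
    have : |Real.sign (xx n)| ≤ 1 := by
      rcases lt_trichotomy (xx n) 0 with h | h | h
      · rw [Real.sign_of_neg h]; norm_num
      · rw [h]; simp
      · rw [Real.sign_of_pos h]; norm_num
    calc |Real.sign (xx n)| * |BB J 1 n| ≤ 1 * |BB J 1 n| :=
          mul_le_mul_of_nonneg_right this (abs_nonneg _)
      _ = _ := one_mul _
  have e3 : ∑ n ∈ Finset.Ioc R N, |BB J 1 n| ≤ c1 / 4 * N := by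
    refine g1.trans (mul_le_mul_of_nonneg_right ?_ hN0.le)
    refine le_trans ?_ hJ2
    have h5 : Real.sqrt J ≤ J := by
      rw [Real.sqrt_le_left (by linarith)]
      nlinarith
    have h6 : (1 : ℝ) / J ≤ 1 / Real.sqrt J :=
      one_div_le_one_div_of_le (Real.sqrt_pos.2 hJ0) h5
    have h7 : ((1 : ℕ) : ℝ) * (1 + Real.log ((1 : ℕ) : ℝ)) / J = 1 / J := by simp
    rw [h7]
    calc C * (1 / Real.sqrt J + 1 / J) ≤ C * (1 / Real.sqrt J + 1 / Real.sqrt J) :=
          mul_le_mul_of_nonneg_left (by linarith) hC.le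
      _ = 2 * C / Real.sqrt J := by ring
  have e4 : c1 * N - S0 ≤ ∑ n ∈ Finset.Ioc R N, |xx n| := by
    have h5 : ∑ n ∈ Finset.Icc 1 N, |xx n| = S0 + ∑ n ∈ Finset.Ioc R N, |xx n| := by
      have h6 : Finset.Icc 1 N = Finset.Icc 1 R ∪ Finset.Ioc R N := by
        ext m
        simp only [Finset.mem_Icc, Finset.mem_union, Finset.mem_Ioc]
        have : 1 ≤ R := Nat.one_le_two_pow
        omega
      rw [h6, Finset.sum_union]
      rw [Finset.disjoint_left]
      intro m hm hm'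
      rw [Finset.mem_Icc] at hm
      rw [Finset.mem_Ioc] at hm'
      omega
    linarith
  have e5 : -(c1 / 4 * N) ≤ ∑ k ∈ Finset.Icc 1 R, wt J k * ∑ n ∈ Finset.Ioc R N,
      Real.sign (xx n) * (xx (n - k) + xx (n + k)) := by
    have h5 : ∀ k ∈ Finset.Icc 1 R, -(c1 / (4 * R)) * N ≤ wt J k * ∑ n ∈ Finset.Ioc R N,
        Real.sign (xx n) * (xx (n - k) + xx (n + k)) := by
      intro k hk
      have h6 := hcon k hk
      set Q := ∑ n ∈ Finset.Ioc R N, Real.sign (xx n) * (xx (n - k) + xx (n + k)) with hQ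
      have w0 := wt_nonneg J k
      have w1 := wt_le_one hJ k
      rcases le_or_gt 0 Q with h7 | h7
      · have h8 : 0 ≤ wt J k * Q := mul_nonneg w0 h7
        have h9 : 0 ≤ c1 / (4 * R) * N := by positivity
        linarith
      · have h8 : Q ≤ wt J k * Q := by nlinarith
        linarith
    have h6 := Finset.sum_le_sum h5
    rw [Finset.sum_const, Nat.card_Icc, nsmul_eq_mul, Nat.add_sub_cancel] at h6
    refine le_trans (le_of_eq ?_) h6
    field_simp
  rw [div_lt_iff₀ hc1] at g4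
  have g5 := mul_pos hc1 hN0
  linarith

end Pool.Agent.Q276.LR
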